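import Pool.Agent.Mg.F79429d.G997527

/-! The affine form: avoiding one prescribed value in each coordinate of `x` and of `A x`. -/

set_option autoImplicit false

namespace Pool.Agent.MP_79429d_co.LD

open MvPolynomial Pool.Agent.AJT

variable {K : Type} [Field K] {n : ℕ}

theorem lin_hom (e : Fin n → K) : (lin e).IsHomogeneous 1 := by
  rw [lin_apply]
  exact IsHomogeneous.sum _ _ _ fun j _ => by
    rw [smul_eq_C_mul]; exact isHomogeneous_C_mul_X _ _

theorem prod_sub {ι : Type} (A : ι → Fin n → K) (d : ι → K) (F : Finset ι) :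
    (∏ i ∈ F, lin (A i)).IsHomogeneous F.card ∧
      (∏ i ∈ F, (lin (A i) - C (d i))).totalDegree ≤ F.card ∧
      ∀ s ∈ ((∏ i ∈ F, (lin (A i) - C (d i))) - ∏ i ∈ F, lin (A i)).support,
        s.degree < F.card := by
  classical
  induction F using Finset.induction_on with
  | empty => exact ⟨by simpa using isHomogeneous_one _ _, by simp, by simp⟩
  | insert y F hy ih =>
    rw [Finset.prod_insert hy, Finset.prod_insert hy, Finset.card_insert_of_notMem hy]
    refine ⟨by rw [add_comm]; exact (lin_hom _).mul ih.1, ?_, fun s hs => ?_⟩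
    · refine (totalDegree_mul _ _).trans ?_
      have := (totalDegree_sub_C_le (lin (A y)) (d y)).trans (lin_hom (A y)).totalDegree_le
      omega
    · have e : (lin (A y) - C (d y)) * ∏ i ∈ F, (lin (A i) - C (d i)) -
          lin (A y) * ∏ i ∈ F, lin (A i) =
          lin (A y) * ((∏ i ∈ F, (lin (A i) - C (d i))) - ∏ i ∈ F, lin (A i)) +
            C (-d y) * ∏ i ∈ F, (lin (A i) - C (d i)) := by
        rw [map_neg]; ring
      rw [e] at hs
      rcases Finset.mem_union.1 (support_add hs) with hs | hs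
      · obtain ⟨a, ha, b, hb, rfl⟩ := Finset.mem_add.1 (support_mul _ _ hs)
        have h1 : a.degree ≤ 1 := (le_totalDegree ha).trans (lin_hom (A y)).totalDegree_le
        have h2 := ih.2.2 b hb
        rw [map_add]; omega
      · have h1 : s.degree ≤ _ := (le_totalDegree hs).trans (totalDegree_mul _ _)
        rw [totalDegree_C] at h1
        have := ih.2.1
        omega

theorem exists_avoid (p : ℕ) [Fact p.Prime] [CharP K p] [Finite K]
    (hK : ∀ r : K, r ^ p = r) (hp : 4 ≤ p) (hcard : p ≤ Nat.card K) (A : Fin n → Fin n → K)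
    (hA : LinearIndependent K A) (c d : Fin n → K) :
    ∃ x : Fin n → K, (∀ i, x i ≠ c i) ∧ ∀ i, ∑ j, A i j * x j ≠ d i := by
  classical
  have := Fintype.ofFinite K
  obtain ⟨g, hg⟩ := exists_coeff p hK hp A hA
  have h1 : ∏ i, (X i : MvPolynomial (Fin n) K) = monomial (m0 n 1) 1 := by
    rw [← prod_X_pow_m0]; simp
  have h2 : m0 n (p - 1) = m0 n 1 + m0 n (p - 2) := by
    ext i; simp [m0]; omega
  rw [mul_assoc, h1, h2, coeff_monomial_mul, one_mul, coeff_mul] at hg
  obtain ⟨x, hx, hx'⟩ := Finset.exists_ne_zero_of_sum_ne_zero (hg ▸ one_ne_zero)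
  have h3 : coeff x.1 (∏ i, lin (A i)) ≠ 0 := left_ne_zero_of_mul hx'
  obtain ⟨h4, h7, h8⟩ := prod_sub A d Finset.univ
  have h5 : x.1.degree = (Finset.univ : Finset (Fin n)).card := by
    by_contra h; exact h3 (h4.coeff_eq_zero h)
  have h9 : coeff x.1 (∏ i, (lin (A i) - C (d i))) ≠ 0 := by
    have h6 : coeff x.1 ((∏ i, (lin (A i) - C (d i))) - ∏ i, lin (A i)) = 0 := by
      by_contra hne
      exact absurd (h8 _ (mem_support_iff.2 hne)) (by omega)
    rw [coeff_sub, sub_eq_zero] at h6
    rwa [h6]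
  obtain ⟨s, hs, hs'⟩ := combinatorial_nullstellensatz_exists_eval_nonzero _ x.1 h9
    (le_antisymm (h7.trans h5.ge) (le_totalDegree (mem_support_iff.2 h9)))
    (fun i => Finset.univ.erase (c i)) (fun i => by
      have h6 := congrArg (fun m => m i) (Finset.HasAntidiagonal.mem_antidiagonal.1 hx)
      simp only [Finsupp.add_apply, m0, Finsupp.equivFunOnFinite_symm_apply_apply] at h6
      rw [Finset.card_erase_of_mem (Finset.mem_univ _), Finset.card_univ,
        ← Nat.card_eq_fintype_card]
      omega)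
  refine ⟨s, fun i => (Finset.mem_erase.1 (hs i)).1, fun i hi => hs' ?_⟩
  rw [map_prod]
  refine Finset.prod_eq_zero (Finset.mem_univ i) ?_
  simpa [lin_apply, sub_eq_zero] using hi

end Pool.Agent.MP_79429d_co.LD
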