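import Pool.Agent.Mg.F79429d.Ga8afa4

section

/-! The splitting map into the tensor square. -/

set_option autoImplicit false

namespace Pool.Agent.AJT

open TensorProduct

variable {K E ι : Type} [Field K] [AddCommGroup E] [Module K E]

open Classical in
/-- Left part of a generator. -/
noncomputable def gL (σ : E →ₗ[K] E) (XL : Set ι) : Gen E ι → Om K E ι
  | .x e => xx (K := K) ι (σ e)
  | .d e => dd (K := K) ι (σ e)
  | .k i => if i ∈ XL then kk K E i else 0

open Classical in
/-- Right part of a generator. -/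
noncomputable def gR (σ : E →ₗ[K] E) (XL : Set ι) : Gen E ι → Om K E ι
  | .x e => xx (K := K) ι (e - σ e)
  | .d e => dd (K := K) ι (e - σ e)
  | .k i => if i ∈ XL then 0 else kk K E i

/-- Sign twist of a generator. -/
noncomputable def gE (K : Type) [Field K] [Module K E] : Gen E ι → (Om K E ι →ₐ[K] Om K E ι)
  | .x _ => AlgHom.id K _
  | .d _ => par
  | .k _ => par

theorem gL_add_gR (σ : E →ₗ[K] E) (XL : Set ι) (g : Gen E ι) :
    gL σ XL g + gR σ XL g = gen K g := by
  cases g with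
  | x e => simp [gL, gR]
  | d e => simp [gL, gR]
  | k i => simp only [gL, gR]; split_ifs <;> simp

theorem gL_odd (σ : E →ₗ[K] E) (XL : Set ι) {g : Gen E ι} (hg : g.odd) :
    gL σ XL g ∈ O1 K E ι := by
  cases g with
  | x e => exact hg.elim
  | d e => exact dd_mem_O1 _
  | k i => simp only [gL]; split_ifs; exacts [kk_mem_O1 i, Submodule.zero_mem _]

theorem gR_odd (σ : E →ₗ[K] E) (XL : Set ι) {g : Gen E ι} (hg : g.odd) :
    gR σ XL g ∈ O1 K E ι := by
  cases g with
  | x e => exact hg.elim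
  | d e => exact dd_mem_O1 _
  | k i => simp only [gR]; split_ifs; exacts [Submodule.zero_mem _, kk_mem_O1 i]

theorem gE_odd {g : Gen E ι} (hg : g.odd) : gE K g = par := by
  cases g with
  | x e => exact hg.elim
  | d e => rfl
  | k i => rfl

theorem gE_xx (g : Gen E ι) (e : E) : gE K g (xx (K := K) ι e) = xx (K := K) ι e := by
  cases g <;> simp [gE]

theorem gE_mul_gR (σ : E →ₗ[K] E) (XL : Set ι) (g : Gen E ι) (a : Om K E ι) :
    gE K g a * gR σ XL g = gR σ XL g * a := by
  cases g with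
  | x e => exact (xx_comm _ a).symm
  | d e => exact (O1_mul (gR_odd σ XL (g := .d e) trivial) a).symm
  | k i => exact (O1_mul (gR_odd σ XL (g := .k i) trivial) a).symm

/-- Action of a generator on the tensor square. -/
noncomputable def gA (σ : E →ₗ[K] E) (XL : Set ι) (g : Gen E ι) :
    Module.End K (Om K E ι ⊗[K] Om K E ι) :=
  TensorProduct.map (LinearMap.mulLeft K (gL σ XL g)) LinearMap.id
    + TensorProduct.map (gE K g).toLinearMap (LinearMap.mulLeft K (gR σ XL g))

theorem gA_tmul (σ : E →ₗ[K] E) (XL : Set ι) (g : Gen E ι) (a b : Om K E ι) :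
    gA σ XL g (a ⊗ₜ[K] b) = (gL σ XL g * a) ⊗ₜ[K] b + gE K g a ⊗ₜ[K] (gR σ XL g * b) := by
  simp [gA]

theorem gA_compat (σ : E →ₗ[K] E) (XL : Set ι) : Compat K (gA σ XL) where
  xadd e e' := by
    refine TensorProduct.ext' fun a b => ?_
    simp only [LinearMap.add_apply, gA_tmul, gL, gR, gE, map_add, map_sub, add_mul, sub_mul,
      add_tmul, tmul_add, tmul_sub]
    abel
  xsmul r e := by
    refine TensorProduct.ext' fun a b => ?_
    simp only [LinearMap.smul_apply, gA_tmul, gL, gR, gE, map_smul, ← smul_sub, smul_mul_assoc,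
      smul_add, ← smul_tmul', tmul_smul]
  dadd e e' := by
    refine TensorProduct.ext' fun a b => ?_
    simp only [LinearMap.add_apply, gA_tmul, gL, gR, gE, map_add, map_sub, add_mul, sub_mul,
      add_tmul, tmul_add, tmul_sub]
    abel
  dsmul r e := by
    refine TensorProduct.ext' fun a b => ?_
    simp only [LinearMap.smul_apply, gA_tmul, gL, gR, gE, map_smul, ← smul_sub, smul_mul_assoc,
      smul_add, ← smul_tmul', tmul_smul]
  comm e g := by
    refine TensorProduct.ext' fun a b => ?_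
    have h1 : gL σ XL (.x e) = xx (K := K) ι (σ e) := rfl
    have h2 : gR σ XL (.x e) = xx (K := K) ι (e - σ e) := rfl
    have h3 : ∀ c, gE K (.x e : Gen E ι) c = c := fun c => rfl
    simp only [Module.End.mul_apply, gA_tmul, map_add, h1, h2, h3, map_mul, gE_xx]
    rw [← mul_assoc, ← mul_assoc, ← mul_assoc, ← mul_assoc, xx_comm (σ e) (gL σ XL g),
      xx_comm (e - σ e) (gR σ XL g)]
    abel
  anti g g' hg hg' := by
    refine TensorProduct.ext' fun a b => ?_
    simp only [Module.End.mul_apply, LinearMap.neg_apply, gA_tmul, map_add, gE_odd hg, gE_odd hg',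
      map_mul, par_par, par_O1 (gL_odd σ XL hg), par_O1 (gL_odd σ XL hg'), ← mul_assoc,
      O1_anti (gL_odd σ XL hg) (gL_odd σ XL hg'), O1_anti (gR_odd σ XL hg) (gR_odd σ XL hg'),
      neg_mul, neg_tmul, tmul_neg]
    abel

/-- The splitting map. -/
noncomputable def nu (σ : E →ₗ[K] E) (XL : Set ι) : Om K E ι →ₗ[K] Om K E ι ⊗[K] Om K E ι :=
  (LinearMap.applyₗ ((1 : Om K E ι) ⊗ₜ[K] (1 : Om K E ι))).comp
    (lift _ (gA_compat σ XL)).toLinearMap

theorem nu_one (σ : E →ₗ[K] E) (XL : Set ι) : nu σ XL 1 = (1 : Om K E ι) ⊗ₜ[K] 1 := by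
  simp [nu]

theorem nu_gen_mul (σ : E →ₗ[K] E) (XL : Set ι) (g : Gen E ι) (a : Om K E ι) :
    nu σ XL (gen K g * a) = gA σ XL g (nu σ XL a) := by
  simp [nu]

/-- Multiplication. -/
noncomputable def mu : Om K E ι ⊗[K] Om K E ι →ₗ[K] Om K E ι := LinearMap.mul' K (Om K E ι)

@[simp] theorem mu_tmul (a b : Om K E ι) : mu (a ⊗ₜ[K] b) = a * b := by simp [mu]

theorem mu_gA (σ : E →ₗ[K] E) (XL : Set ι) (g : Gen E ι) (t : Om K E ι ⊗[K] Om K E ι) :
    mu (gA σ XL g t) = gen K g * mu t := by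
  induction t with
  | zero => simp
  | tmul a b =>
    rw [gA_tmul, map_add, mu_tmul, mu_tmul, mu_tmul, ← mul_assoc, gE_mul_gR, ← gL_add_gR σ XL g]
    noncomm_ring
  | add a b ha hb => simp [ha, hb, mul_add]

theorem mu_nu (σ : E →ₗ[K] E) (XL : Set ι) (a : Om K E ι) : mu (nu σ XL a) = a := by
  refine lin_ext (mu.comp (nu σ XL)) LinearMap.id (fun l => ?_) a
  simp only [LinearMap.comp_apply, LinearMap.id_apply]
  induction l with
  | nil => simp [nu_one]
  | cons g l ih => rw [pr_cons, nu_gen_mul, mu_gA, ih]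

theorem gL_of_gR {σ : E →ₗ[K] E} {XL : Set ι} {g : Gen E ι} (h : gR σ XL g = 0) :
    gL σ XL g = gen K g := by rw [← gL_add_gR σ XL g, h, add_zero]

theorem gR_of_gL {σ : E →ₗ[K] E} {XL : Set ι} {g : Gen E ι} (h : gL σ XL g = 0) :
    gR σ XL g = gen K g := by rw [← gL_add_gR σ XL g, h, zero_add]

theorem gE_pr (g : Gen E ι) (l : List (Gen E ι)) : ∃ r : K, gE K g (pr K l) = r • pr K l := by
  have : ∃ r : K, par (pr K l) = r • pr K l := by
    rcases par_pr (K := K) l with h | h
    · exact ⟨1, by simp [h]⟩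
    · exact ⟨-1, by simp [h]⟩
  cases g with
  | x e => exact ⟨1, by simp [gE]⟩
  | d e => exact this
  | k i => exact this

theorem nu_pr (σ : E →ₗ[K] E) (XL : Set ι) (q : Gen E ι → Bool) (l : List (Gen E ι))
    (h : ∀ g ∈ l, (q g = true → gR σ XL g = 0) ∧ (q g = false → gL σ XL g = 0)) :
    ∃ r : K, nu σ XL (pr K l) = r • (pr K (l.filter q) ⊗ₜ[K] pr K (l.filter fun g => !q g)) := by
  induction l with
  | nil => exact ⟨1, by simp [nu_one]⟩
  | cons g l ih =>
    obtain ⟨r, hr⟩ := ih fun g' hg' => h g' (by simp [hg'])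
    have hg := h g (by simp)
    rw [pr_cons, nu_gen_mul, hr, map_smul, gA_tmul]
    cases hq : q g
    · obtain ⟨r', hr'⟩ := gE_pr (K := K) g (l.filter q)
      refine ⟨r * r', ?_⟩
      simp [hq, hg.2 hq, gR_of_gL (hg.2 hq), hr', mul_smul, smul_tmul']
    · exact ⟨r, by simp [hq, hg.1 hq, gL_of_gR (hg.1 hq)]⟩

theorem nu_mul (σ : E →ₗ[K] E) (XL : Set ι) {AL AR : Set (Gen E ι)}
    (hL : ∀ g ∈ AL, gR σ XL g = 0) (hR : ∀ g ∈ AR, gL σ XL g = 0) {w w' : Gen E ι → ℕ}
    {k k' : ℕ} {a b : Om K E ι} (ha : a ∈ Fil K AL w k) (hb : b ∈ Fil K AR w' k') :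
    nu σ XL (a * b) = a ⊗ₜ[K] b := by
  have h1 : nu σ XL b = 1 ⊗ₜ[K] b := by
    refine Sp_ext (nu σ XL) (TensorProduct.mk K _ _ 1) (fun l hl => ?_) hb
    have hl' := hl.1
    clear hl
    induction l with
    | nil => simp [nu_one]
    | cons g l ih =>
      have hg := hR g (hl' g (by simp))
      rw [pr_cons, nu_gen_mul, ih fun g' hg' => hl' g' (by simp [hg'])]
      simp [gA_tmul, hg, gR_of_gL hg]
  refine Sp_ext ((nu σ XL).comp (LinearMap.mulRight K b)) ((TensorProduct.mk K _ _).flip b)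
    (fun l hl => ?_) ha
  have hl' := hl.1
  clear hl
  simp only [LinearMap.comp_apply, LinearMap.mulRight_apply, LinearMap.flip_apply, mk_apply]
  induction l with
  | nil => simpa using h1
  | cons g l ih =>
    have hg := hL g (hl' g (by simp))
    rw [pr_cons, mul_assoc, nu_gen_mul, ih fun g' hg' => hl' g' (by simp [hg'])]
    simp [gA_tmul, hg, gL_of_gR hg]

theorem eq_zero_of_mu (σ : E →ₗ[K] E) (XL : Set ι) {AL AR : Set (Gen E ι)}
    (hL : ∀ g ∈ AL, gR σ XL g = 0) (hR : ∀ g ∈ AR, gL σ XL g = 0) {w w' : Gen E ι → ℕ}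
    {k k' : ℕ} {t : Om K E ι ⊗[K] Om K E ι} (ht : t ∈ TS (Fil K AL w k) (Fil K AR w' k'))
    (h : mu t = 0) : t = 0 := by
  have := TS_ext ((nu σ XL).comp mu) LinearMap.id
    (fun a ha b hb => by simpa using nu_mul σ XL hL hR ha hb) ht
  simpa [h] using this.symm

theorem mu_tdiff {δ : Om K E ι →ₗ[K] Om K E ι} (hδ : IsOdd δ) (t : Om K E ι ⊗[K] Om K E ι) :
    mu (tdiff δ par.toLinearMap t) = δ (mu t) := by
  induction t with
  | zero => simp
  | tmul a b => simp [tdiff_tmul, hδ.der a b]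
  | add a b ha hb => simp [ha, hb]

theorem rsl_nu_mem (σ : E →ₗ[K] E) (XL : Set ι) (q : Gen E ι → Bool) {Q : List (Gen E ι) → Prop}
    (h : ∀ l, Q l → ∀ g ∈ l, (q g = true → gR σ XL g = 0) ∧ (q g = false → gL σ XL g = 0))
    {U : Submodule K (Om K E ι)} (hU : ∀ l, Q l → pr K (l.filter q) ∈ U) {a : Om K E ι}
    (ha : a ∈ Sp K Q) (f : Om K E ι →ₗ[K] K) : rsl f (nu σ XL a) ∈ U := by
  refine Sp_map ((rsl f).comp (nu σ XL)) (fun l hl => ?_) ha
  obtain ⟨r, hr⟩ := nu_pr σ XL q l (h l hl)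
  simp only [LinearMap.comp_apply, hr, map_smul, rsl_tmul]
  exact U.smul_mem _ (U.smul_mem _ (hU l hl))

theorem lsl_nu_mem (σ : E →ₗ[K] E) (XL : Set ι) (q : Gen E ι → Bool) {Q : List (Gen E ι) → Prop}
    (h : ∀ l, Q l → ∀ g ∈ l, (q g = true → gR σ XL g = 0) ∧ (q g = false → gL σ XL g = 0))
    {U : Submodule K (Om K E ι)} (hU : ∀ l, Q l → pr K (l.filter fun g => !q g) ∈ U)
    {a : Om K E ι} (ha : a ∈ Sp K Q) (f : Om K E ι →ₗ[K] K) : lsl f (nu σ XL a) ∈ U := by
  refine Sp_map ((lsl f).comp (nu σ XL)) (fun l hl => ?_) ha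
  obtain ⟨r, hr⟩ := nu_pr σ XL q l (h l hl)
  simp only [LinearMap.comp_apply, hr, map_smul, lsl_tmul]
  exact U.smul_mem _ (U.smul_mem _ (hU l hl))

end Pool.Agent.AJT

end

section

/-! The complexes attached to weighted vector configurations, and the lifting lemma. -/

set_option autoImplicit false

namespace Pool.Agent.AJT

variable {K E ι : Type} [Field K] [AddCommGroup E] [Module K E]

/-- Allowed generators. -/
def gens (T : Submodule K E) (X : Set ι) : Set (Gen E ι) :=
  {g | match g with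
    | .x e => e ∈ T
    | .d e => e ∈ T
    | .k i => i ∈ X}

@[simp] theorem x_mem_gens {T : Submodule K E} {X : Set ι} {e : E} :
    (.x e : Gen E ι) ∈ gens T X ↔ e ∈ T := Iff.rfl
@[simp] theorem d_mem_gens {T : Submodule K E} {X : Set ι} {e : E} :
    (.d e : Gen E ι) ∈ gens T X ↔ e ∈ T := Iff.rfl
@[simp] theorem k_mem_gens {T : Submodule K E} {X : Set ι} {i : ι} :
    (.k i : Gen E ι) ∈ gens T X ↔ i ∈ X := Iff.rfl

theorem gens_mono {T T' : Submodule K E} {X X' : Set ι} (hT : T ≤ T') (hX : X ⊆ X') :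
    gens T X ⊆ gens T' X' := by
  intro g hg
  cases g with
  | x e => exact hT hg
  | d e => exact hT hg
  | k i => exact hX hg

open Classical in
/-- Order of vanishing weights along a subspace. -/
noncomputable def ws (S : Submodule K E) (v : ι → E) (c : ι → ℕ) : Gen E ι → ℕ
  | .x e => if e ∈ S then 1 else 0
  | .d e => if e ∈ S then 1 else 0
  | .k i => if v i ∈ S then c i else 0

open Classical in
theorem ws_x (S : Submodule K E) (v : ι → E) (c : ι → ℕ) (e : E) :
    ws S v c (.x e) = if e ∈ S then 1 else 0 := rfl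
open Classical in
theorem ws_d (S : Submodule K E) (v : ι → E) (c : ι → ℕ) (e : E) :
    ws S v c (.d e) = if e ∈ S then 1 else 0 := rfl
open Classical in
theorem ws_k (S : Submodule K E) (v : ι → E) (c : ι → ℕ) (i : ι) :
    ws S v c (.k i) = if v i ∈ S then c i else 0 := rfl

theorem xx_mem_Fil {T S : Submodule K E} {X : Set ι} {v : ι → E} {c : ι → ℕ} {e : E} (he : e ∈ T)
    {k : ℕ} (hk : k ≤ 1) (hS : k = 0 ∨ e ∈ S) :
    xx (K := K) ι e ∈ Fil K (gens T X) (ws S v c) k := by
  refine gen_mem_Fil (g := .x e) he ?_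
  rw [ws_x]; split_ifs with h
  · exact hk
  · rcases hS with h' | h'
    · omega
    · exact (h h').elim

theorem dd_mem_Fil {T S : Submodule K E} {X : Set ι} {v : ι → E} {c : ι → ℕ} {e : E} (he : e ∈ T)
    {k : ℕ} (hk : k ≤ 1) (hS : k = 0 ∨ e ∈ S) :
    dd (K := K) ι e ∈ Fil K (gens T X) (ws S v c) k := by
  refine gen_mem_Fil (g := .d e) he ?_
  rw [ws_d]; split_ifs with h
  · exact hk
  · rcases hS with h' | h'
    · omega
    · exact (h h').elim

open Classical in
/-- Total mass inside a subspace. -/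
noncomputable def mass [Fintype ι] (S : Submodule K E) (v : ι → E) (c : ι → ℕ) : ℕ :=
  ∑ i, if v i ∈ S then c i else 0

/-- The complex attached to a weighted configuration. -/
noncomputable def KK [Fintype ι] (T : Submodule K E) (X : Set ι) (v : ι → E) (c : ι → ℕ) :
    Submodule K (Om K E ι) :=
  ⨅ S : Submodule K E, ⨅ _ : S ≤ T, Fil K (gens T X) (ws S v c) (mass S v c)

variable [Fintype ι]

theorem mem_KK {T : Submodule K E} {X : Set ι} {v : ι → E} {c : ι → ℕ} {a : Om K E ι} :
    a ∈ KK T X v c ↔ ∀ S ≤ T, a ∈ Fil K (gens T X) (ws S v c) (mass S v c) := by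
  simp [KK, Submodule.mem_iInf]

open Classical in
theorem mass_add_single [DecidableEq ι] (S : Submodule K E) (v : ι → E) (c : ι → ℕ) (y : ι)
    (n : ℕ) : mass S v (c + Pi.single y n) = mass S v c + if v y ∈ S then n else 0 := by
  unfold mass
  have : ∀ i, (if v i ∈ S then (c + Pi.single y n : ι → ℕ) i else 0)
      = (if v i ∈ S then c i else 0) + if i = y then (if v y ∈ S then n else 0) else 0 := by
    intro i
    by_cases h : i = y
    · subst h; split_ifs <;> simp_all
    · simp [h]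
  simp only [this, Finset.sum_add_distrib, Finset.sum_ite_eq', Finset.mem_univ, if_true]

theorem mass_le {S S' : Submodule K E} {v v' : ι → E} {c c' : ι → ℕ}
    (h : ∀ i, v i ∈ S → c i = 0 ∨ (v' i ∈ S' ∧ c i ≤ c' i)) : mass S v c ≤ mass S' v' c' := by
  unfold mass
  refine Finset.sum_le_sum fun i _ => ?_
  split_ifs with h1 h2 h2
  · rcases h i h1 with h3 | h3
    · omega
    · exact h3.2
  · rcases h i h1 with h3 | h3
    · omega
    · exact (h2 h3.1).elim
  · omega
  · omega

@[simp] theorem mass_zero (S : Submodule K E) (v : ι → E) : mass S v 0 = 0 := by simp [mass]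

omit [Fintype ι] in
theorem push_Fil (π : E →ₗ[K] E) {T T' S S' : Submodule K E} {X : Set ι} {v v' : ι → E}
    {c : ι → ℕ} (hT : ∀ e ∈ T, π e ∈ T') (hS : ∀ e ∈ T, e ∈ S → π e ∈ S')
    (hX : ∀ i ∈ X, v i ∈ S → v' i ∈ S') {k : ℕ} {a : Om K E ι}
    (ha : a ∈ Fil K (gens T X) (ws S v c) k) :
    push ι π a ∈ Fil K (gens T' X) (ws S' v' c) k := by
  refine Fil_map _ (fun g hg => ?_) ha
  cases g with
  | x e =>
    rw [gen_x, push_xx, ws_x]
    split_ifs with h
    · exact xx_mem_Fil (hT e hg) le_rfl (Or.inr (hS e hg h))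
    · exact xx_mem_Fil (hT e hg) (by omega) (Or.inl rfl)
  | d e =>
    rw [gen_d, push_dd, ws_d]
    split_ifs with h
    · exact dd_mem_Fil (hT e hg) le_rfl (Or.inr (hS e hg h))
    · exact dd_mem_Fil (hT e hg) (by omega) (Or.inl rfl)
  | k i =>
    rw [gen_k, push_kk]
    refine gen_mem_Fil (g := .k i) hg ?_
    rw [ws_k, ws_k]
    split_ifs with h1 h2 h2
    · exact le_rfl
    · exact (h2 (hX i hg h1)).elim
    · omega
    · omega

theorem push_KK (π : E →ₗ[K] E) {T : Submodule K E} {X : Set ι} {v : ι → E} {c : ι → ℕ}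
    (hc : ∀ i, c i ≠ 0 → v i ∈ T) {a : Om K E ι} (ha : a ∈ KK T X v c) :
    push ι π a ∈ KK (T.map π) X (fun i => π (v i)) c := by
  rw [mem_KK] at *
  intro S' _
  refine Fil_anti ?_ (push_Fil π (S := S'.comap π ⊓ T) (fun e he => Submodule.mem_map_of_mem he)
    (fun e _ he => he.1) (fun i _ hi => hi.1) (ha _ inf_le_right))
  refine mass_le fun i hi => ?_
  by_cases h : c i = 0
  · exact Or.inl h
  · exact Or.inr ⟨⟨hi, hc i h⟩, le_rfl⟩

omit [Fintype ι] in
theorem Fil_bot_eq_zero {T : Submodule K E} {v : ι → E} {c : ι → ℕ} {k : ℕ} (hk : 0 < k)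
    {a : Om K E ι} (ha : a ∈ Fil K (gens T ∅) (ws (⊥ : Submodule K E) v c) k) : a = 0 := by
  refine Fil_eq_zero (fun g hg hw => ?_) hk ha
  cases g with
  | x e =>
    rw [ws_x] at hw
    split_ifs at hw with h
    · simp [(Submodule.mem_bot K).1 h]
    · exact (hw rfl).elim
  | d e =>
    rw [ws_d] at hw
    split_ifs at hw with h
    · simp [(Submodule.mem_bot K).1 h]
    · exact (hw rfl).elim
  | k i => exact hg.elim

omit [Fintype ι] in
theorem push_prj_eq_zero {f : E →ₗ[K] K} {y : E} (hf : f y = 1) {T : Submodule K E}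
    {v : ι → E} {c : ι → ℕ} {k : ℕ} (hk : 0 < k) {a : Om K E ι}
    (ha : a ∈ Fil K (gens T ∅) (ws (K ∙ y) v c) k) : push ι (prj f y) a = 0 := by
  refine Fil_bot_eq_zero (T := ⊤) (v := v) (c := c) hk
    (push_Fil _ (fun _ _ => Submodule.mem_top) (fun e _ he => ?_) (fun i hi => hi.elim) ha)
  obtain ⟨r, rfl⟩ := Submodule.mem_span_singleton.1 he
  simp [prj_self hf]

omit [Fintype ι] in
theorem con_Fil (f : E →ₗ[K] K) {T S : Submodule K E} {X : Set ι} {v : ι → E} {c : ι → ℕ} {k : ℕ}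
    {a : Om K E ι} (ha : a ∈ Fil K (gens T X) (ws S v c) k) :
    con ι f a ∈ Fil K (gens T X) (ws S v c) (k - 1) := by
  refine Fil_odd (con_isOdd f) 0 1 (fun g _ => ?_) ha
  cases g with
  | x e => simp
  | d e =>
    rw [gen_d, con_dd, show ws S v c (.d e) + 0 - 1 = 0 by rw [ws_d]; split_ifs <;> rfl]
    exact Submodule.smul_mem _ _ one_mem_Fil
  | k i => simp

omit [Fintype ι] in
open Classical in
theorem dv_Fil {f : E →ₗ[K] K} {y : E} {T S : Submodule K E} (hy : y ∈ T)
    (hf : y ∉ S → ∀ e ∈ S, f e = 0) {X : Set ι} {v : ι → E} {c : ι → ℕ} {k : ℕ}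
    {a : Om K E ι} (ha : a ∈ Fil K (gens T X) (ws S v c) k) :
    dv ι f y a ∈ Fil K (gens T X) (ws S v c) (k - if y ∈ S then 1 else 0) := by
  refine Fil_der (dv_isDer f y) 0 _ (fun g hg => ?_) (fun g hg => ?_) ha
  · cases g with
    | x e =>
      rw [gen_x, zx_xx, ws_x, prj_apply]
      have h1 : e - f e • y ∈ T := T.sub_mem hg (T.smul_mem _ hy)
      split_ifs with h
      · refine xx_mem_Fil h1 le_rfl (Or.inr ?_)
        by_cases h' : y ∈ S
        · exact S.sub_mem h (S.smul_mem _ h')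
        · simpa [hf h' e h] using h
      · exact xx_mem_Fil h1 (by omega) (Or.inl rfl)
    | d e => rw [gen_d, zx_dd]; exact gen_mem_Fil (g := .d e) hg le_rfl
    | k i => rw [gen_k, zx_kk]; exact gen_mem_Fil (g := .k i) hg le_rfl
  · cases g with
    | x e =>
      rw [gen_x, dv_xx, ws_x]
      by_cases h : e ∈ S
      · by_cases h' : y ∈ S
        · simp only [h, h', if_true]
          exact Submodule.smul_mem _ _ one_mem_Fil
        · simp [hf h' e h]
      · simp only [h, if_false, Nat.zero_add, Nat.zero_sub]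
        exact Submodule.smul_mem _ _ one_mem_Fil
    | d e => simp
    | k i => simp

omit [Fintype ι] in
open Classical in
theorem Fil_of_xx_mul {y : E} (hy0 : y ≠ 0) {T S : Submodule K E} (hy : y ∈ T)
    {X : Set ι} {v : ι → E} {c : ι → ℕ} {k : ℕ} {a : Om K E ι}
    (ha : xx (K := K) ι y * a ∈ Fil K (gens T X) (ws S v c) k) :
    a ∈ Fil K (gens T X) (ws S v c) (k - if y ∈ S then 1 else 0) := by
  obtain ⟨f, hf, hf'⟩ : ∃ f : E →ₗ[K] K, f y = 1 ∧ (y ∉ S → ∀ e ∈ S, f e = 0) := by
    by_cases h : y ∈ S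
    · obtain ⟨f, hf, _⟩ := exists_functional (K := K) (S := ⊥) (y := y) (by simpa using hy0)
      exact ⟨f, hf, fun h' => (h' h).elim⟩
    · obtain ⟨f, hf, hf'⟩ := exists_functional h
      exact ⟨f, hf, fun _ => hf'⟩
  have := dv_Fil hy hf' ha
  rwa [dv_xx_mul hf] at this

omit [Fintype ι] in
theorem ws_empty_le {T S : Submodule K E} {v v' : ι → E} {c c' : ι → ℕ} :
    ∀ g ∈ gens T (∅ : Set ι), ws S v c g ≤ ws S v' c' g := by
  intro g hg
  cases g with
  | x e => exact le_rfl
  | d e => exact le_rfl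
  | k i => exact hg.elim

theorem KK_of_xx_mul [DecidableEq ι] {T : Submodule K E} {v : ι → E} {c : ι → ℕ} {y : ι}
    (hy0 : v y ≠ 0) (hy : v y ∈ T) {a : Om K E ι}
    (ha : xx (K := K) ι (v y) * a ∈ KK T ∅ v (c + Pi.single y 1)) : a ∈ KK T ∅ v c := by
  rw [mem_KK] at *
  intro S hS
  refine Fil_mono subset_rfl ws_empty_le ?_ (Fil_of_xx_mul hy0 hy (ha S hS))
  rw [mass_add_single]; omega

theorem mul_mem_KK [DecidableEq ι] {T : Submodule K E} {v : ι → E} {c : ι → ℕ} {y : ι}
    {θ a : Om K E ι} (hθ : θ = xx (K := K) ι (v y) ∨ θ = dd (K := K) ι (v y)) (hy : v y ∈ T)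
    (ha : a ∈ KK T ∅ v c) : θ * a ∈ KK T ∅ v (c + Pi.single y 1) := by
  classical
  rw [mem_KK] at *
  intro S hS
  have h1 : θ ∈ Fil K (gens T ∅) (ws S v (c + Pi.single y 1)) (if v y ∈ S then 1 else 0) := by
    rcases hθ with rfl | rfl
    · exact gen_mem_Fil (g := .x (v y)) hy (by rw [ws_x])
    · exact gen_mem_Fil (g := .d (v y)) hy (by rw [ws_d])
  refine Fil_mul h1 (Fil_mono subset_rfl ws_empty_le le_rfl (ha S hS)) ?_
  rw [mass_add_single]; omega

theorem KK_mono_mass {T : Submodule K E} {v : ι → E} {c c' : ι → ℕ} (h : c ≤ c') :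
    KK T ∅ v c' ≤ KK T ∅ v c := by
  intro a ha
  rw [mem_KK] at *
  intro S hS
  exact Fil_mono subset_rfl ws_empty_le (mass_le fun i hi => Or.inr ⟨hi, h i⟩) (ha S hS)

theorem prj_map_lt {f : E →ₗ[K] K} {y : E} (hf : f y = 1) {T : Submodule K E} (hy : y ∈ T) :
    T.map (prj f y) < T := by
  refine lt_of_le_of_ne ?_ ?_
  · rintro _ ⟨e, he, rfl⟩
    rw [prj_apply]
    exact T.sub_mem he (T.smul_mem _ hy)
  · intro h
    rw [← h] at hy
    obtain ⟨e, _, he⟩ := hy
    have := congrArg f he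
    simp [prj_apply, hf] at this

theorem exists_single [DecidableEq ι] {c : ι → ℕ} {m : ℕ} (h : ∑ i, c i = m + 1) :
    ∃ (y : ι) (c' : ι → ℕ), c = c' + Pi.single y 1 ∧ ∑ i, c' i = m := by
  obtain ⟨y, _, hy⟩ := Finset.exists_ne_zero_of_sum_ne_zero (s := Finset.univ) (f := c)
    (by omega)
  have h1 : c = Function.update c y (c y - 1) + Pi.single y 1 := by
    ext i
    by_cases hi : i = y
    · subst hi; simp; omega
    · simp [hi]
  refine ⟨y, _, h1, ?_⟩
  have h2 := congrArg (fun d : ι → ℕ => ∑ i, d i) h1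
  simp only [Pi.add_apply, Finset.sum_add_distrib, Finset.sum_pi_single', Finset.mem_univ,
    if_true] at h2
  omega

theorem lift_KK_empty [NeZero (2 : K)] [FiniteDimensional K E] (T : Submodule K E) (v : ι → E)
    (n : ℕ) : ∀ π : E →ₗ[K] E, Module.finrank K (T.map π) = n → ∀ (m : ℕ) (c : ι → ℕ),
      ∑ i, c i = m → (∀ i, c i ≠ 0 → v i ∈ T) →
      ∀ a ∈ KK (T.map π) ∅ (fun i => π (v i)) c, ∃ b ∈ KK T ∅ v c, push ι π b = a := by
  classical
  induction n using Nat.strong_induction_on with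
  | _ n ihn =>
  intro π hπ m
  induction m with
  | zero =>
    intro c hc _ a ha
    have hc0 : c = 0 := by
      ext i; exact (Finset.sum_eq_zero_iff.1 hc) i (Finset.mem_univ i)
    subst hc0
    have h1 := mem_KK.1 ha ⊥ bot_le
    have h2 : a ∈ (Fil K (gens T ∅) 0 0).map (push ι π).toLinearMap := by
      refine Sp_le (fun l hl => ?_) h1
      have hl' := hl.1
      clear hl
      induction l with
      | nil => exact ⟨1, one_mem_Fil, by simp⟩
      | cons g l ih =>
        obtain ⟨b, hb, hb'⟩ := ih fun g' hg' => hl' g' (by simp [hg'])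
        have hg := hl' g (by simp)
        obtain ⟨b0, hb0, hb0'⟩ : ∃ b0 ∈ Fil K (gens T ∅) 0 0, push ι π b0 = gen K g := by
          cases g with
          | x e =>
            obtain ⟨e0, he0, rfl⟩ := hg
            exact ⟨_, gen_mem_Fil (g := .x e0) he0 le_rfl, by simp⟩
          | d e =>
            obtain ⟨e0, he0, rfl⟩ := hg
            exact ⟨_, gen_mem_Fil (g := .d e0) he0 le_rfl, by simp⟩
          | k i => exact hg.elim
        refine ⟨b0 * b, Fil_mul hb0 hb le_rfl, ?_⟩
        simp only [AlgHom.toLinearMap_apply] at hb' ⊢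
        rw [map_mul, hb0', hb', pr_cons]
    obtain ⟨b, hb, hb'⟩ := h2
    refine ⟨b, mem_KK.2 fun S _ => ?_, hb'⟩
    rw [mass_zero]
    exact Fil_le_zero subset_rfl hb
  | succ m ihm =>
    intro c hc hcv a ha
    obtain ⟨y, c', rfl, hc'⟩ := exists_single hc
    have hyT : v y ∈ T := hcv y (by simp)
    have hcv' : ∀ i, c' i ≠ 0 → v i ∈ T := fun i hi => hcv i (by simp; omega)
    by_cases hy0 : π (v y) = 0
    · have h1 := mem_KK.1 ha ⊥ bot_le
      rw [mass_add_single, if_pos (by simp [hy0])] at h1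
      exact ⟨0, Submodule.zero_mem _, by rw [Fil_bot_eq_zero (by omega) h1, map_zero]⟩
    obtain ⟨f, hf, -⟩ := exists_functional (K := K) (S := ⊥) (y := π (v y)) (by simpa using hy0)
    have hyT' : π (v y) ∈ T.map π := Submodule.mem_map_of_mem hyT
    set π' := prj f (π (v y)) with hπ'
    have hg : push ι π' (con ι f a) ∈ KK (T.map (π'.comp π)) ∅ (fun i => (π'.comp π) (v i)) c' := by
      rw [mem_KK]
      intro S'' _
      have h1 := con_Fil f (mem_KK.1 ha (S''.comap π' ⊓ T.map π) inf_le_right)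
      rw [mass_add_single, if_pos ⟨by simp [hπ', prj_self hf], hyT'⟩, Nat.add_sub_cancel] at h1
      refine Fil_mono subset_rfl ws_empty_le ?_ (push_Fil π' (T' := T.map (π'.comp π)) (S' := S'')
        (S := S''.comap π' ⊓ T.map π) (v' := v) (fun e he => by rw [Submodule.map_comp]; exact Submodule.mem_map_of_mem he)
        (fun e _ he => he.1) (fun i hi => hi.elim) h1)
      refine mass_le fun i hi => ?_
      by_cases h : c' i = 0
      · exact Or.inl h
      · exact Or.inr ⟨⟨hi, Submodule.mem_map_of_mem (hcv' i h)⟩, le_rfl⟩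
    have hlt : Module.finrank K (T.map (π'.comp π)) < n := by
      rw [← hπ, Submodule.map_comp]
      exact Submodule.finrank_lt_finrank_of_lt (prj_map_lt hf hyT')
    obtain ⟨g, hg1, hg2⟩ := ihn _ hlt _ rfl m c' hc' hcv' _ hg
    have hb0 : dd (K := K) ι (v y) * g ∈ KK T ∅ v (c' + Pi.single y 1) :=
      mul_mem_KK (Or.inr rfl) hyT hg1
    have hr : a - push ι π (dd (K := K) ι (v y) * g)
        ∈ KK (T.map π) ∅ (fun i => π (v i)) (c' + Pi.single y 1) :=
      Submodule.sub_mem _ ha (push_KK π hcv hb0)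
    have hz : zx ι π' (a - push ι π (dd (K := K) ι (v y) * g)) = 0 := by
      have h1 := mem_KK.1 ha (K ∙ π (v y)) ((Submodule.span_singleton_le_iff_mem _ _).2 hyT')
      rw [mass_add_single, if_pos (Submodule.mem_span_singleton_self _)] at h1
      rw [map_sub, map_mul, map_mul, push_dd, zx_dd, hπ', zx_expand, zx_expand, ← hπ',
        push_prj_eq_zero hf (by omega) h1, push_push, hg2, mul_add, ← mul_assoc,
        O1_sq (dd_mem_O1 _)]
      simp
    have hr2 := xx_mul_dv f (π (v y)) (a - push ι π (dd (K := K) ι (v y) * g))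
    rw [← hπ', hz, sub_zero] at hr2
    rw [← hr2] at hr
    obtain ⟨b, hb1, hb2⟩ := ihm c' hc' hcv' _
      (KK_of_xx_mul (v := fun i => π (v i)) hy0 hyT' hr)
    refine ⟨dd (K := K) ι (v y) * g + xx (K := K) ι (v y) * b,
      Submodule.add_mem _ hb0 (mul_mem_KK (Or.inl rfl) hyT hb1), ?_⟩
    rw [map_add, map_mul _ _ b, push_xx, hb2, hr2]
    abel

omit [Fintype ι] in
theorem zk_Fil (i : ι) {T : Submodule K E} {X : Set ι} {w : Gen E ι → ℕ} {k : ℕ} {a : Om K E ι}
    (ha : a ∈ Fil K (gens T (insert i X)) w k) : zk K E i a ∈ Fil K (gens T X) w k := by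
  refine Fil_map _ (fun g hg => ?_) ha
  cases g with
  | x e => rw [gen_x, zk_xx]; exact gen_mem_Fil (g := .x e) hg le_rfl
  | d e => rw [gen_d, zk_dd]; exact gen_mem_Fil (g := .d e) hg le_rfl
  | k j =>
    rw [gen_k, zk_kk]
    split_ifs with h
    · exact Submodule.zero_mem _
    · exact gen_mem_Fil (g := .k j) ((Set.mem_insert_iff.1 hg).resolve_left h) le_rfl

omit [Fintype ι] in
theorem dk_Fil (i : ι) {A : Set (Gen E ι)} {w : Gen E ι → ℕ} {k : ℕ} {a : Om K E ι}
    (ha : a ∈ Fil K A w k) : dk K E i a ∈ Fil K A w (k - w (.k i)) := by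
  refine Fil_odd (dk_isOdd i) 0 _ (fun g _ => ?_) ha
  cases g with
  | x e => simp
  | d e => simp
  | k j =>
    rw [gen_k, dk_kk]
    split_ifs with h
    · subst h; simpa using one_mem_Fil
    · exact Submodule.zero_mem _

theorem lift_KK [NeZero (2 : K)] [FiniteDimensional K E] (T : Submodule K E) (v : ι → E)
    (π : E →ₗ[K] E) (X : Set ι) : ∀ c : ι → ℕ, (∀ i, c i ≠ 0 → v i ∈ T) →
      ∀ a ∈ KK (T.map π) X (fun i => π (v i)) c, ∃ b ∈ KK T X v c, push ι π b = a := by
  classical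
  induction X, Set.toFinite X using Set.Finite.induction_on with
  | empty => intro c hc; exact lift_KK_empty T v _ π rfl _ c rfl hc
  | @insert i X hi _ ih =>
    intro c hc a ha
    let c1 : ι → ℕ := Function.update c i 0
    have hc1 : c = c1 + Pi.single i (c i) := by
      ext j
      by_cases h : j = i
      · subst h; simp [c1]
      · simp [c1, h]
    have hw : ∀ (S T0 : Submodule K E) (u : ι → E), ∀ g ∈ gens T0 X, ws S u c g = ws S u c1 g := by
      intro S T0 u g hg
      cases g with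
      | x e => rfl
      | d e => rfl
      | k j =>
        have : j ≠ i := fun h => hi (h ▸ hg)
        simp [ws_k, c1, this]
    have hm : ∀ (S : Submodule K E) (u : ι → E),
        mass S u c = mass S u c1 + ws S u c (.k i) := by
      intro S u
      conv_lhs => rw [hc1]
      rw [mass_add_single, ws_k]
    obtain ⟨b0, hb0, hb0'⟩ := ih c hc (zk K E i a)
      (mem_KK.2 fun S hS => zk_Fil i (mem_KK.1 ha S hS))
    obtain ⟨b1, hb1, hb1'⟩ := ih c1 (fun j hj => hc j (by
        intro h; apply hj; by_cases h' : j = i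
        · simp [c1, h']
        · simp [c1, h', h])) (zk K E i (dk K E i a))
      (mem_KK.2 fun S hS => Fil_mono subset_rfl (fun g hg => (hw S _ _ g hg).le)
        (by rw [hm]; omega) (zk_Fil i (dk_Fil i (mem_KK.1 ha S hS))))
    refine ⟨b0 + kk K E i * b1, mem_KK.2 fun S hS => Submodule.add_mem _ ?_ ?_, ?_⟩
    · exact Fil_mono (gens_mono le_rfl (Set.subset_insert _ _)) (fun _ _ => le_rfl) le_rfl
        (mem_KK.1 hb0 S hS)
    · refine Fil_mul (gen_mem_Fil (g := .k i) (Set.mem_insert _ _) le_rfl)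
        (Fil_mono (gens_mono le_rfl (Set.subset_insert _ _)) (fun g hg => (hw S _ _ g hg).ge)
          le_rfl (mem_KK.1 hb1 S hS)) (by rw [hm]; omega)
    · rw [map_add, map_mul, push_kk, hb0', hb1', ← zk_expand]

theorem KK_div [NeZero (2 : K)] [DecidableEq ι] {T : Submodule K E} {v : ι → E} {c : ι → ℕ}
    {y : ι} (hy0 : v y ≠ 0) (hy : v y ∈ T) {a : Om K E ι}
    (ha : a ∈ KK T ∅ v (c + Pi.single y 2)) :
    ∃ b ∈ KK T ∅ v c, a = xx (K := K) ι (v y) * b := by
  classical
  obtain ⟨f, hf, -⟩ := exists_functional (K := K) (S := ⊥) (y := v y) (by simpa using hy0)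
  have h1 := mem_KK.1 ha (K ∙ v y) ((Submodule.span_singleton_le_iff_mem _ _).2 hy)
  rw [mass_add_single, if_pos (Submodule.mem_span_singleton_self _)] at h1
  have h2 := xx_mul_dv f (v y) a
  rw [zx_expand, push_prj_eq_zero hf (by omega) h1,
    push_prj_eq_zero hf (by omega) (con_Fil f h1)] at h2
  simp only [mul_zero, add_zero, sub_zero] at h2
  refine ⟨dv ι f (v y) a, KK_of_xx_mul hy0 hy ?_, h2.symm⟩
  rw [h2]
  refine KK_mono_mass (fun j => ?_) ha
  by_cases h : j = y
  · subst h; simp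
  · simp [h]

end Pool.Agent.AJT

end

section

/-! The Euler operator, counting odd generators, stability under the differential. -/

set_option autoImplicit false

namespace Pool.Agent.AJT

variable {K E ι : Type} [Field K] [AddCommGroup E] [Module K E]

/-- The Euler operator. -/
noncomputable def EE (p : ℕ) (u : ι → E) (σ : E →ₗ[K] E) : Module.End K (Om K E ι) :=
  (DD p u).comp (hh ι σ) + (hh ι σ).comp (DD p u)

theorem EE_apply (p : ℕ) (u : ι → E) (σ : E →ₗ[K] E) (a : Om K E ι) :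
    EE p u σ a = DD p u (hh ι σ a) + hh ι σ (DD p u a) := rfl

theorem EE_isDer (p : ℕ) (u : ι → E) (σ : E →ₗ[K] E) : IsDer (AlgHom.id K _) (EE p u σ) :=
  (DD_isOdd p u).bracket (hh_isOdd σ)

@[simp] theorem EE_xx (p : ℕ) (u : ι → E) (σ : E →ₗ[K] E) (e : E) :
    EE p u σ (xx (K := K) ι e) = xx (K := K) ι (σ e) := by simp [EE_apply]
@[simp] theorem EE_dd (p : ℕ) (u : ι → E) (σ : E →ₗ[K] E) (e : E) :
    EE p u σ (dd (K := K) ι e) = dd (K := K) ι (σ e) := by simp [EE_apply]
@[simp] theorem EE_kk (p : ℕ) (u : ι → E) (σ : E →ₗ[K] E) (i : ι) :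
    EE p u σ (kk K E i) = 0 := by
  simp [EE_apply, (hh_isOdd (ι := ι) σ).xx_pow_zero _ (hh_xx σ _)]

theorem der_pr_smul {δ : Om K E ι →ₗ[K] Om K E ι} (hδ : IsDer (AlgHom.id K _) δ)
    {w : Gen E ι → ℕ} (l : List (Gen E ι)) (h : ∀ g ∈ l, δ (gen K g) = (w g : K) • gen K g) :
    δ (pr K l) = (wt w l : K) • pr K l := by
  induction l with
  | nil => simp [hδ.one]
  | cons g l ih =>
    rw [pr_cons, hδ, h g (by simp), ih fun g' hg' => h g' (by simp [hg'])]
    simp [add_smul]

theorem pow_apply_of_smul {V : Type} [AddCommGroup V] [Module K V] (Φ : Module.End K V) {a : V}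
    {r : K} (h : Φ a = r • a) (n : ℕ) : (Φ ^ n) a = r ^ n • a := by
  induction n with
  | zero => simp
  | succ n ih => rw [pow_succ', Module.End.mul_apply, ih, map_smul, h, smul_smul, pow_succ]

theorem pow_apply_mem {V : Type} [AddCommGroup V] [Module K V] (Φ : Module.End K V)
    {U : Submodule K V} (h : ∀ a ∈ U, Φ a ∈ U) (n : ℕ) {a : V} (ha : a ∈ U) : (Φ ^ n) a ∈ U := by
  induction n with
  | zero => simpa using ha
  | succ n ih => rw [pow_succ', Module.End.mul_apply]; exact h _ ih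

/-- The projection onto the kernel of the Euler operator. -/
noncomputable def PP (p : ℕ) (u : ι → E) (σ : E →ₗ[K] E) : Module.End K (Om K E ι) :=
  1 - EE p u σ ^ (p - 1)

theorem PP_apply (p : ℕ) (u : ι → E) (σ : E →ₗ[K] E) (a : Om K E ι) :
    PP p u σ a = a - (EE p u σ ^ (p - 1)) a := rfl

section
variable (p : ℕ) [Fact p.Prime] [CharP K p]

theorem EE_DD [NeZero (2 : K)] (u : ι → E) (σ : E →ₗ[K] E) (a : Om K E ι) :
    EE p u σ (DD p u a) = DD p u (EE p u σ a) := by
  simp [EE_apply, DD_DD]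

theorem euler_exact [NeZero (2 : K)] (u : ι → E) (σ : E →ₗ[K] E) {a : Om K E ι}
    (ha : DD p u a = 0) : a - PP p u σ a = DD p u (hh ι σ ((EE p u σ ^ (p - 2)) a)) := by
  have h1 : DD p u ((EE p u σ ^ (p - 2)) a) = 0 :=
    pow_apply_mem (EE p u σ) (U := LinearMap.ker (DD p u))
      (fun b hb => by rw [LinearMap.mem_ker] at *; rw [← EE_DD, hb, map_zero]) _ ha
  have h2 : p - 1 = p - 2 + 1 := by have := (Fact.out : p.Prime).two_le; omega
  rw [PP_apply, sub_sub_cancel, h2, pow_succ', Module.End.mul_apply, EE_apply, h1, map_zero,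
    add_zero]

omit [CharP K p] in
theorem pow_pred_eq_one (hK : ∀ r : K, r ^ p = r) {r : K} (hr : r ≠ 0) : r ^ (p - 1) = 1 := by
  have h2 : p = p - 1 + 1 := by have := (Fact.out : p.Prime).two_le; omega
  have := hK r
  rw [h2, pow_succ] at this
  exact mul_right_cancel₀ hr (by simpa using this)

theorem PP_Sp (hK : ∀ r : K, r ^ p = r) (u : ι → E) (σ : E →ₗ[K] E) {Q : List (Gen E ι) → Prop}
    {w : Gen E ι → ℕ} (h : ∀ l, Q l → ∀ g ∈ l, EE p u σ (gen K g) = (w g : K) • gen K g)
    {a : Om K E ι} (ha : a ∈ Sp K Q) : PP p u σ a ∈ Sp K (fun l => Q l ∧ p ∣ wt w l) := by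
  refine Sp_map _ (fun l hl => ?_) ha
  rw [PP_apply, pow_apply_of_smul _ (der_pr_smul (EE_isDer p u σ) l (h l hl))]
  by_cases hd : p ∣ wt w l
  · exact Submodule.sub_mem _ (pr_mem_Sp ⟨hl, hd⟩) (Submodule.smul_mem _ _ (pr_mem_Sp ⟨hl, hd⟩))
  · rw [pow_pred_eq_one p hK (by rwa [Ne, CharP.cast_eq_zero_iff K p])]
    simp

theorem EE_PP (hK : ∀ r : K, r ^ p = r) (u : ι → E) (σ : E →ₗ[K] E) {Q : List (Gen E ι) → Prop}
    {w : Gen E ι → ℕ} (h : ∀ l, Q l → ∀ g ∈ l, EE p u σ (gen K g) = (w g : K) • gen K g)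
    {a : Om K E ι} (ha : a ∈ Sp K Q) : EE p u σ (PP p u σ a) = 0 := by
  refine Sp_ext (EE p u σ) 0 (fun l hl => ?_) (PP_Sp p hK u σ h ha)
  rw [der_pr_smul (EE_isDer p u σ) l (h l hl.1), (CharP.cast_eq_zero_iff K p _).2 hl.2]
  simp

omit [CharP K p] in
theorem PP_of_EE (u : ι → E) (σ : E →ₗ[K] E) {a : Om K E ι} (ha : EE p u σ a = 0) :
    PP p u σ a = a := by
  have h2 : p - 1 = p - 2 + 1 := by have := (Fact.out : p.Prime).two_le; omega
  rw [PP_apply, h2, pow_succ, Module.End.mul_apply, ha, map_zero, sub_zero]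

theorem xx_add_pow (e e' : E) :
    xx (K := K) ι (e + e') ^ p = xx (K := K) ι e ^ p + xx (K := K) ι e' ^ p := by
  rcases subsingleton_or_nontrivial (Om K E ι) with h | h
  · exact Subsingleton.elim _ _
  have : CharP (Om K E ι) p := charP_of_injective_algebraMap (algebraMap K _).injective p
  rw [map_add, add_pow_char_of_commute _ (xx_comm e _)]

end

theorem wt_le_sum [NeZero (2 : K)] {J : Type} [Fintype J] (e : J → Gen E ι) (he : ∀ j, (e j).odd)
    (f : J → ℕ) {w : Gen E ι → ℕ} {l : List (Gen E ι)} (hl : pr K l ≠ 0)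
    (h : ∀ g ∈ l, w g = 0 ∨ ∃ j, g = e j ∧ w g ≤ f j) : wt w l ≤ ∑ j, f j := by
  classical
  have key : wt w l ≤ ∑ j, if e j ∈ l then f j else 0 := by
    induction l with
    | nil => simp
    | cons g l ih =>
      have hl' : pr K l ≠ 0 := fun h0 => hl (by rw [pr_cons, h0, mul_zero])
      have ih' := ih hl' fun g' hg' => h g' (by simp [hg'])
      rw [wt_cons]
      rcases h g (by simp) with h0 | ⟨j, rfl, hj⟩
      · rw [h0, zero_add]
        refine ih'.trans (Finset.sum_le_sum fun j _ => ?_)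
        split_ifs with h1 h2 h2
        · exact le_rfl
        · exact (h2 (by simp [h1])).elim
        · omega
        · omega
      · have hj' : e j ∉ l := fun hm => hl (pr_eq_zero_of_mem (he j) hm)
        calc w (e j) + wt w l
            ≤ (∑ i, if i = j then f j else 0) + ∑ i, if e i ∈ l then f i else 0 := by
              simp only [Finset.sum_ite_eq', Finset.mem_univ, if_true]; omega
          _ ≤ _ := by
              rw [← Finset.sum_add_distrib]
              refine Finset.sum_le_sum fun i _ => ?_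
              by_cases hi : i = j
              · subst hi; simp [hj']
              · by_cases h1 : e i ∈ l
                · simp [hi, h1]
                · simp [hi, h1]
  exact key.trans (Finset.sum_le_sum fun j _ => by split_ifs <;> omega)

theorem DD_Fil (p : ℕ) {T S : Submodule K E} {X : Set ι} {u v : ι → E} {c : ι → ℕ}
    (h : ∀ i ∈ X, xx (K := K) ι (u i) ^ p ∈ Fil K (gens T X) (ws S v c) (ws S v c (.k i)))
    {k : ℕ} {a : Om K E ι} (ha : a ∈ Fil K (gens T X) (ws S v c) k) :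
    DD p u a ∈ Fil K (gens T X) (ws S v c) k := by
  refine Fil_odd (DD_isOdd p u) 0 0 (fun g hg => ?_) ha
  cases g with
  | x e => rw [gen_x, DD_xx]; exact gen_mem_Fil (g := .d e) hg le_rfl
  | d e => simp
  | k i => rw [gen_k, DD_kk]; exact h i hg

theorem DD_Fil_self (p : ℕ) {T S : Submodule K E} {X : Set ι} {v : ι → E} {c : ι → ℕ}
    (hv : ∀ i ∈ X, v i ∈ T) (hc : ∀ i ∈ X, c i ≤ p)
    {k : ℕ} {a : Om K E ι} (ha : a ∈ Fil K (gens T X) (ws S v c) k) :
    DD p v a ∈ Fil K (gens T X) (ws S v c) k := by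
  refine DD_Fil p (fun i hi => ?_) ha
  refine Fil_anti ?_ (pow_mem_Fil (gen_mem_Fil (g := .x (v i)) (hv i hi) le_rfl) p)
  rw [ws_k, ws_x]
  have := hc i hi
  split_ifs <;> omega

theorem DD_Fil_zero (p : ℕ) {T : Submodule K E} {X : Set ι} {v : ι → E}
    (hv : ∀ i ∈ X, v i ∈ T) {a : Om K E ι} (ha : a ∈ Fil K (gens T X) 0 0) :
    DD p v a ∈ Fil K (gens T X) 0 0 :=
  Fil_le_zero subset_rfl (DD_Fil_self p (S := ⊥) (c := 0) hv (fun _ _ => Nat.zero_le _)
    (Fil_le_zero subset_rfl ha))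

end Pool.Agent.AJT

end

section

/-! The base case: cohomology of the whole algebra vanishes in high degree. -/

set_option autoImplicit false

namespace Pool.Agent.AJT

variable {K E ι : Type} [Field K] [AddCommGroup E] [Module K E]

open Classical in
/-- Indicator weight of one generator. -/
noncomputable def ind (g0 : Gen E ι) : Gen E ι → ℕ := fun g => if g = g0 then 1 else 0

theorem par_monom (y : E) (i : ι) (u h m : ℕ) : ∃ r : K,
    par (xx (K := K) ι y ^ u * dd (K := K) ι y ^ h * kk K E i ^ m)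
      = r • (xx (K := K) ι y ^ u * dd (K := K) ι y ^ h * kk K E i ^ m) := by
  refine ⟨(-1) ^ h * (-1) ^ m, ?_⟩
  rw [map_mul, map_mul, map_pow, map_pow, map_pow, par_xx, par_dd, par_kk,
    ← neg_one_smul K (dd (K := K) ι y), ← neg_one_smul K (kk K E i), smul_pow, smul_pow]
  simp only [mul_smul_comm, smul_mul_assoc, smul_smul, mul_comm]

theorem normal_form {y : E} {i : ι} {A : Set (Gen E ι)} (hx : Gen.x y ∉ A) (hd : Gen.d y ∉ A)
    (hk : Gen.k i ∉ A) (l : List (Gen E ι))
    (hl : ∀ g ∈ l, g = .x y ∨ g = .d y ∨ g = .k i ∨ g ∈ A) :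
    ∃ a ∈ Fil K A 0 0, pr K l = xx (K := K) ι y ^ wt (ind (.x y)) l
      * dd (K := K) ι y ^ wt (ind (.d y)) l * kk K E i ^ wt (ind (.k i)) l * a := by
  induction l with
  | nil => exact ⟨1, one_mem_Fil, by simp⟩
  | cons g l ih =>
    obtain ⟨a, ha, ha'⟩ := ih fun g' hg' => hl g' (by simp [hg'])
    rw [pr_cons, ha']
    simp only [wt_cons]
    generalize wt (ind (Gen.x y)) l = u
    generalize wt (ind (Gen.d y)) l = h
    generalize wt (ind (Gen.k i)) l = m
    rcases hl g (by simp) with rfl | rfl | rfl | hg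
    · refine ⟨a, ha, ?_⟩
      simp only [ind, if_true, reduceCtorEq, if_false, zero_add, gen_x, add_comm 1 u, pow_succ',
        mul_assoc]
    · refine ⟨a, ha, ?_⟩
      simp only [ind, if_true, reduceCtorEq, if_false, zero_add, gen_d, add_comm 1 h, pow_succ',
        mul_assoc]
      rw [← mul_assoc, ← xx_pow_comm, mul_assoc]
    · obtain ⟨r, hr⟩ := par_monom (K := K) y i u h 0
      simp only [pow_zero, mul_one] at hr
      refine ⟨r • a, Submodule.smul_mem _ _ ha, ?_⟩
      simp only [ind, if_true, reduceCtorEq, if_false, zero_add, gen_k, add_comm 1 m, pow_succ']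
      rw [← mul_assoc, ← mul_assoc, O1_mul (kk_mem_O1 i), hr]
      simp only [mul_smul_comm, smul_mul_assoc, mul_assoc]
    · have h1 : ind (.x y) g = 0 := if_neg (fun h : g = .x y => hx (h ▸ hg))
      have h2 : ind (.d y) g = 0 := if_neg (fun h : g = .d y => hd (h ▸ hg))
      have h3 : ind (.k i) g = 0 := if_neg (fun h : g = .k i => hk (h ▸ hg))
      simp only [h1, h2, h3, zero_add]
      obtain ⟨r, hr⟩ : ∃ r : K, gen K g * (xx (K := K) ι y ^ u * dd (K := K) ι y ^ h * kk K E i ^ m)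
          = r • ((xx (K := K) ι y ^ u * dd (K := K) ι y ^ h * kk K E i ^ m) * gen K g) := by
        obtain ⟨r, hr⟩ := par_monom (K := K) y i u h m
        cases g with
        | x e => exact ⟨1, by rw [gen_x, xx_comm, one_smul]⟩
        | d e => exact ⟨r, by rw [gen_d, O1_mul (dd_mem_O1 e), hr, smul_mul_assoc]⟩
        | k j => exact ⟨r, by rw [gen_k, O1_mul (kk_mem_O1 j), hr, smul_mul_assoc]⟩
      refine ⟨r • (gen K g * a), Submodule.smul_mem _ _
        (Fil_mul (gen_mem_Fil hg le_rfl) ha le_rfl), ?_⟩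
      rw [← mul_assoc, hr]
      simp only [mul_smul_comm, smul_mul_assoc, mul_assoc]

section
variable (p : ℕ) [Fact p.Prime] [CharP K p] [NeZero (2 : K)]

omit [CharP K p] in
theorem DD_top (u : ι → E) (y : E) :
    DD p u (xx (K := K) ι y ^ (p - 1) * dd (K := K) ι y) = 0 := by
  obtain ⟨n, hn⟩ : ∃ n, p - 1 = n + 1 := ⟨p - 2, by have := (Fact.out : p.Prime).two_le; omega⟩
  rw [(DD_isOdd p u).der, hn, (DD_isOdd p u).xx_pow, DD_xx, DD_dd, smul_mul_assoc, mul_assoc,
    O1_sq (dd_mem_O1 y)]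
  simp

omit [CharP K p] [NeZero (2 : K)] in
theorem top_tau (y : E) :
    xx (K := K) ι y ^ (p - 1) * dd (K := K) ι y ∈ Hom (tau K E ι p) (3 * p) := by
  have := Hom_mul (Hom_pow (xx_tau (K := K) (ι := ι) p y) (p - 1)) (dd_tau p y)
  rwa [show (p - 1) * 2 + (p + 2) = 3 * p by have := (Fact.out : p.Prime).two_le; omega] at this

theorem base_step (hK : ∀ r : K, r ^ p = r) {T T' : Submodule K E} {X : Set ι} {i : ι}
    (hi : i ∉ X) {v : ι → E} {f : E →ₗ[K] K} (hf : f (v i) = 1) (hy : v i ∈ T) (hT' : T' ≤ T)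
    (hfT : ∀ e ∈ T', f e = 0) (hT : ∀ e ∈ T, prj f (v i) e ∈ T') (hv : ∀ j ∈ X, v j ∈ T')
    {a : Om K E ι} (ha : a ∈ Fil K (gens T (insert i X)) 0 0) (hD : DD p v a = 0) :
    ∃ b ∈ Fil K (gens T (insert i X)) 0 0, ∃ a0 ∈ Fil K (gens T' X) 0 0,
      ∃ a1 ∈ Fil K (gens T' X) 0 0, DD p v a0 = 0 ∧ DD p v a1 = 0 ∧
        a = DD p v b + a0 + xx (K := K) ι (v i) ^ (p - 1) * dd (K := K) ι (v i) * a1 := by
  classical
  have hp2 := (Fact.out : p.Prime).two_le
  set y := v i with hydef
  have hyT' : y ∉ T' := fun h => by simpa [hf] using hfT y h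
  set x := xx (K := K) ι y with hx
  set d := dd (K := K) ι y with hd
  set κ := kk K E i with hκ
  let R := Fil K (gens T' X) 0 0
  let Ω' := Fil K (gens T X) 0 0
  let Ω := Fil K (gens T (insert i X)) 0 0
  have hRΩ' : R ≤ Ω' := Fil_le_zero (gens_mono hT' subset_rfl)
  have hΩ'Ω : Ω' ≤ Ω := Fil_le_zero (gens_mono le_rfl (Set.subset_insert _ _))
  have hxΩ' : ∀ n, x ^ n ∈ Ω' := fun n => by
    simpa using pow_mem_Fil (gen_mem_Fil (K := K) (w := 0) (g := .x y) (A := gens T X) hy le_rfl) n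
  have hdΩ' : ∀ n, d ^ n ∈ Ω' := fun n => by
    simpa using pow_mem_Fil (gen_mem_Fil (K := K) (w := 0) (g := .d y) (A := gens T X) hy le_rfl) n
  have hκΩ : κ ∈ Ω := gen_mem_Fil (g := .k i) (Set.mem_insert _ _) le_rfl
  let σ : E →ₗ[K] E := f.smulRight y
  let ng : Set (Gen E ι) := {g | g = .x y ∨ g = .d y ∨ g = .k i ∨ g ∈ gens T' X}
  have ha1 : a ∈ Fil K ng 0 0 := by
    refine Fil_le (fun g hg => ?_) 0 ha
    cases g with
    | x e =>
      have : gen K (.x e : Gen E ι) = gen K (.x (prj f y e)) + f e • gen K (.x y) := by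
        simp [prj_apply]
      rw [this]
      exact Submodule.add_mem _ (gen_mem_Fil (by simp [ng, hT e hg]) le_rfl)
        (Submodule.smul_mem _ _ (gen_mem_Fil (by simp [ng]) le_rfl))
    | d e =>
      have : gen K (.d e : Gen E ι) = gen K (.d (prj f y e)) + f e • gen K (.d y) := by
        simp [prj_apply]
      rw [this]
      exact Submodule.add_mem _ (gen_mem_Fil (by simp [ng, hT e hg]) le_rfl)
        (Submodule.smul_mem _ _ (gen_mem_Fil (by simp [ng]) le_rfl))
    | k j =>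
      refine gen_mem_Fil ?_ le_rfl
      rcases hg with h | h
      · simp [ng, h]
      · simp [ng, h]
  let wM : Gen E ι → ℕ := fun g => ind (.x y) g + ind (.d y) g
  have hE : ∀ g ∈ ng, EE p v σ (gen K g) = (wM g : K) • gen K g := by
    intro g hg
    rcases hg with rfl | rfl | rfl | hg
    · simp [wM, ind, σ, hf]
    · simp [wM, ind, σ, hf]
    · simp [wM, ind]
    · cases g with
      | x e =>
        have : e ≠ y := fun h => hyT' (h ▸ hg)
        simp [wM, ind, σ, hfT e hg, this]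
      | d e =>
        have : e ≠ y := fun h => hyT' (h ▸ hg)
        simp [wM, ind, σ, hfT e hg, this]
      | k j => simp [wM, ind]
  have hvT : ∀ j ∈ insert i X, v j ∈ T := by
    intro j hj
    rcases hj with rfl | hj
    exacts [hy, hT' (hv j hj)]
  have hhΩ : ∀ b ∈ Ω, hh ι σ b ∈ Ω := by
    intro b hb
    refine Fil_odd (hh_isOdd σ) 0 0 (fun g hg => ?_) hb
    cases g with
    | x e => simp
    | d e =>
      rw [gen_d, hh_dd]
      exact gen_mem_Fil (g := .x (σ e)) (T.smul_mem _ hy) le_rfl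
    | k j => simp
  have hEΩ : ∀ b ∈ Ω, EE p v σ b ∈ Ω := fun b hb =>
    Submodule.add_mem _ (DD_Fil_zero p hvT (hhΩ b hb)) (hhΩ _ (DD_Fil_zero p hvT hb))
  have hb1 : hh ι σ ((EE p v σ ^ (p - 2)) a) ∈ Ω := hhΩ _ (pow_apply_mem _ hEΩ _ ha)
  have he := euler_exact p v σ hD
  have hP := PP_Sp p hK v σ (w := wM) (fun l hl g hg => hE g (hl.1 g hg)) ha1
  let N : Submodule K (Om K E ι) := R ⊔ R.map (LinearMap.mulLeft K (x ^ (p - 1) * d))
    ⊔ Ω'.map (LinearMap.mulLeft K (x ^ p)) ⊔ Ω'.map (LinearMap.mulLeft K κ)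
  have hN : PP p v σ a ∈ N := by
    refine Sp_le (fun l hl => ?_) hP
    obtain ⟨c, hc, hc'⟩ := normal_form (K := K) (y := y) (i := i) (A := gens T' X) hyT' hyT' hi l
      hl.1.1
    have hM : wt wM l = wt (ind (.x y)) l + wt (ind (.d y)) l := by
      simp only [wM, wt]; exact List.sum_map_add
    have hdv := hl.2
    rw [hM] at hdv
    rw [hc', ← hx, ← hd, ← hκ]
    generalize wt (ind (Gen.x y)) l = u at *
    generalize wt (ind (Gen.d y)) l = h at *
    generalize wt (ind (Gen.k i)) l = m at *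
    have hdd : d * d = 0 := O1_sq (dd_mem_O1 y)
    have hκκ : κ * κ = 0 := O1_sq (kk_mem_O1 i)
    rcases m with _ | _ | m
    · by_cases hu : p ≤ u
      · refine Submodule.mem_sup_left (Submodule.mem_sup_right ⟨x ^ (u - p) * d ^ h * c,
          Fil_mul (Fil_mul (hxΩ' _) (hdΩ' _) le_rfl) (hRΩ' hc) le_rfl, ?_⟩)
        simp only [LinearMap.mulLeft_apply, pow_zero, mul_one, ← mul_assoc, ← pow_add]
        rw [show p + (u - p) = u by omega]
      · rcases h with _ | _ | h
        · have : u = 0 := Nat.eq_zero_of_dvd_of_lt hdv (by omega)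
          subst this
          exact Submodule.mem_sup_left (Submodule.mem_sup_left (Submodule.mem_sup_left
            (by simpa using hc)))
        · have : u = p - 1 := by have := Nat.le_of_dvd (by omega) hdv; omega
          subst this
          exact Submodule.mem_sup_left (Submodule.mem_sup_left (Submodule.mem_sup_right
            ⟨c, hc, by simp [mul_assoc]⟩))
        · rw [pow_succ d, pow_succ d, mul_assoc (d ^ h), hdd]; simp
    · refine Submodule.mem_sup_right ⟨par (x ^ u * d ^ h) * c,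
        Fil_mul (Fil_par (Fil_mul (hxΩ' _) (hdΩ' _) le_rfl)) (hRΩ' hc) le_rfl, ?_⟩
      simp only [LinearMap.mulLeft_apply, zero_add, pow_one]
      rw [mul_O1 (kk_mem_O1 i) (x ^ u * d ^ h), mul_assoc]
    · rw [pow_succ κ, pow_succ κ, mul_assoc (κ ^ m), hκκ]; simp
  obtain ⟨n1, hn1, _, ⟨b2, hb2, rfl⟩, h1⟩ := Submodule.mem_sup.1 hN
  obtain ⟨n2, hn2, _, ⟨b, hb, rfl⟩, rfl⟩ := Submodule.mem_sup.1 hn1
  obtain ⟨a0, ha0, _, ⟨a1, ha1', rfl⟩, rfl⟩ := Submodule.mem_sup.1 hn2
  simp only [LinearMap.mulLeft_apply] at h1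
  have hDκ : ∀ c, DD p v (κ * c) = x ^ p * c - κ * DD p v c := fun c => by
    rw [(DD_isOdd p v).der, hκ, DD_kk, par_kk, neg_mul, sub_eq_add_neg]
  have hDt : ∀ c, DD p v (x ^ (p - 1) * d * c) = -(x ^ (p - 1) * d * DD p v c) := fun c => by
    rw [(DD_isOdd p v).der, hx, hd, DD_top, map_mul, map_pow, par_xx, par_dd]; simp
  have hDΩ' : ∀ c ∈ Ω', DD p v c ∈ Ω' := fun c hc => DD_Fil_zero p (fun j hj => hT' (hv j hj)) hc
  have hDR : ∀ c ∈ R, DD p v c ∈ R := fun c hc => DD_Fil_zero p hv hc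
  set b'' := b2 + DD p v b with hb''
  have hb''Ω : b'' ∈ Ω' := Submodule.add_mem _ hb2 (hDΩ' b hb)
  have h2 : PP p v σ a = DD p v (κ * b) + a0 + x ^ (p - 1) * d * a1 + κ * b'' := by
    rw [← h1, hDκ, hb'']; noncomm_ring
  have h3 : DD p v (PP p v σ a) = 0 := by
    have := congrArg (DD p v) he
    rw [DD_DD, map_sub, hD, zero_sub, neg_eq_zero] at this
    exact this
  rw [h2, map_add, map_add, map_add, DD_DD, hDt, hDκ, zero_add] at h3
  have hzk : ∀ c ∈ Ω', zk K E i c = c := fun c hc =>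
    Fil_alg_ext (zk K E i) (AlgHom.id K _) (fun g hg => by
      cases g with
      | x e => simp
      | d e => simp
      | k j =>
        have : j ≠ i := fun h => hi (h ▸ hg)
        simp [zk_kk, this]) hc
  have hzx : ∀ c ∈ R, zx ι (prj f y) c = c := fun c hc =>
    Fil_alg_ext (zx ι (prj f y)) (AlgHom.id K _) (fun g hg => by
      cases g with
      | x e => simp [prj_apply, hfT e hg]
      | d e => simp
      | k j => simp) hc
  have hcon : ∀ c ∈ R, con ι f c = 0 := fun c hc =>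
    Fil_der_zero (con_isOdd f).der (fun g hg => by
      cases g with
      | x e => simp
      | d e => simp [hfT e hg]
      | k j => simp) hc
  have h4 : DD p v a0 - x ^ (p - 1) * d * DD p v a1 + x ^ p * b'' = 0 := by
    have := congrArg (zk K E i) h3
    simp only [map_add, map_neg, map_sub, map_mul, map_pow, hx, hd, hκ, zk_xx, zk_dd, zk_kk,
      if_true, zero_mul, sub_zero, map_zero, hzk _ (hRΩ' (hDR _ ha0)), hzk _ (hRΩ' (hDR _ ha1')),
      hzk _ hb''Ω] at this
    rw [← this, sub_eq_add_neg]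
  have hzx0 : zx ι (prj f y) x = 0 := by rw [hx, zx_xx, prj_self hf, map_zero]
  have h5 : DD p v a0 = 0 := by
    have := congrArg (zx ι (prj f y)) h4
    simp only [map_add, map_sub, map_mul, map_pow, hzx0, hzx _ (hDR _ ha0), map_zero,
      zero_pow (show p - 1 ≠ 0 by omega), zero_pow (show p ≠ 0 by omega), zero_mul] at this
    simpa using this
  have h6 : x * b'' - d * DD p v a1 = 0 := by
    refine xx_pow_mul_eq_zero hf (p - 1) ?_
    rw [← h4, h5, ← hx, mul_sub, ← mul_assoc, ← pow_succ, show p - 1 + 1 = p by omega]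
    noncomm_ring
  have h7 : DD p v a1 = 0 := by
    have := congrArg (zx ι (prj f y)) h6
    simp only [map_sub, map_mul, hzx0, hzx _ (hDR _ ha1'), map_zero, zero_mul, hd, zx_dd, zero_sub,
      neg_eq_zero] at this
    have := congrArg (con ι f) this
    rw [(con_isOdd f).der, hcon _ (hDR _ ha1'), con_dd, hf] at this
    simpa using this
  have h8 : b'' = 0 := by
    rw [h7, mul_zero, sub_zero] at h6
    exact xx_mul_eq_zero hf h6
  refine ⟨hh ι σ ((EE p v σ ^ (p - 2)) a) + κ * b,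
    Submodule.add_mem _ hb1 (Fil_mul hκΩ (hΩ'Ω hb) le_rfl), a0, ha0, a1, ha1', h5, h7, ?_⟩
  rw [map_add, ← he, h2, h8]
  noncomm_ring

theorem base_case [FiniteDimensional K E] [Fintype ι] [DecidableEq ι] (hK : ∀ r : K, r ^ p = r)
    (n : ℕ) : ∀ (X : Finset ι), X.card = n → ∀ (T : Submodule K E) (v : ι → E),
      Submodule.span K (v '' X) = T → ∀ t, p * (2 * Module.finrank K T + n) < t →
      ∀ a ∈ Fil K (gens T (X : Set ι)) 0 0, a ∈ Hom (tau K E ι p) t → DD p v a = 0 →
        ∃ b ∈ Fil K (gens T (X : Set ι)) 0 0, DD p v b = a := by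
  induction n using Nat.strong_induction_on with
  | _ n ih =>
  intro X hX T v hT t ht a ha hat hD
  by_cases h0 : ∀ i ∈ X, v i = 0
  · have hT0 : T = ⊥ := by
      rw [← hT, Submodule.span_eq_bot]
      rintro _ ⟨i, hi, rfl⟩
      exact h0 i hi
    have h1 : a ∈ Fil K {g | ∃ i ∈ X, g = .k i} 0 0 := by
      refine Fil_le (fun g hg => ?_) 0 ha
      cases g with
      | x e =>
        have : e = 0 := by simpa [hT0] using hg
        simp [this]
      | d e =>
        have : e = 0 := by simpa [hT0] using hg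
        simp [this]
      | k i => exact gen_mem_Fil ⟨i, hg, rfl⟩ le_rfl
    have h2 := cp_Sp (G := tau K E ι p) (w := wT p) (fun _ _ g _ => gen_tau p g) t h1
    rw [cp_self hat] at h2
    refine ⟨0, Submodule.zero_mem _, ?_⟩
    rw [map_zero]
    refine Sp_ext 0 LinearMap.id (fun l hl => ?_) h2
    by_contra hne
    have h3 := wt_le_sum (K := K) (fun i => (.k i : Gen E ι)) (fun _ => trivial)
      (fun i => if i ∈ X then p else 0) (w := wT p) (l := l) (fun h => hne (by simp [h]))
      (fun g hg => by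
        obtain ⟨i, hi, rfl⟩ := hl.1.1 g hg
        exact Or.inr ⟨i, rfl, by simp [hi, wT]⟩)
    simp only [Finset.sum_ite_mem, Finset.univ_inter, Finset.sum_const, smul_eq_mul, hX,
      hl.2] at h3
    nlinarith
  push Not at h0
  obtain ⟨i, hi, hy0⟩ := h0
  obtain ⟨f, hf, -⟩ := exists_functional (K := K) (S := ⊥) (y := v i) (by simpa using hy0)
  have hvT : ∀ j ∈ X, v j ∈ T := fun j hj => hT ▸ Submodule.subset_span ⟨j, hj, rfl⟩
  let π := prj f (v i)
  let v' : ι → E := fun j => if j = i then v i else π (v j)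
  have hv'i : v' i = v i := by simp [v']
  let T' := T.map π
  have hlt : T' < T := prj_map_lt hf (hvT i hi)
  have hXe : (X : Set ι) = insert i (X.erase i : Set ι) := by
    rw [← Finset.coe_insert, Finset.insert_erase hi]
  have hT' : Submodule.span K (v' '' (X.erase i)) = T' := by
    apply le_antisymm
    · rw [Submodule.span_le]
      rintro _ ⟨j, hj, rfl⟩
      have hj' := Finset.mem_erase.1 (Finset.mem_coe.1 hj)
      simp only [v', if_neg hj'.1]
      exact Submodule.mem_map_of_mem (hvT j hj'.2)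
    · simp only [T']
      rw [← hT, Submodule.map_span, Submodule.span_le]
      rintro _ ⟨_, ⟨j, hj, rfl⟩, rfl⟩
      by_cases hji : j = i
      · subst hji; simp [π, prj_self hf]
      · exact Submodule.subset_span ⟨j, by simpa [hji] using hj, by simp [v', hji]⟩
  let α : Om K E ι →ₐ[K] Om K E ι := endo LinearMap.id LinearMap.id
    (fun j => if j = i then kk K E i else kk K E j - f (v j) • kk K E i) (fun j => by
      split_ifs
      exacts [kk_mem_O1 i, Submodule.sub_mem _ (kk_mem_O1 j) (Submodule.smul_mem _ _ (kk_mem_O1 i))])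
  let β : Om K E ι →ₐ[K] Om K E ι := endo LinearMap.id LinearMap.id
    (fun j => if j = i then kk K E i else kk K E j + f (v j) • kk K E i) (fun j => by
      split_ifs
      exacts [kk_mem_O1 i, Submodule.add_mem _ (kk_mem_O1 j) (Submodule.smul_mem _ _ (kk_mem_O1 i))])
  have hαβ : ∀ c, α (β c) = c := alg_ext (α.comp β) (AlgHom.id K _) (fun g => by
    cases g with
    | x e => simp [α, β]
    | d e => simp [α, β]
    | k j => by_cases h : j = i <;> simp [α, β, h])
  have hβα : ∀ c, β (α c) = c := alg_ext (β.comp α) (AlgHom.id K _) (fun g => by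
    cases g with
    | x e => simp [α, β]
    | d e => simp [α, β]
    | k j => by_cases h : j = i <;> simp [α, β, h])
  have hDα : ∀ c, DD p v (α c) = α (DD p v' c) := by
    intro c
    have := der_zero_all ((DD p v).comp α.toLinearMap - α.toLinearMap.comp (DD p v'))
      (fun c => par (α c)) α (fun a b => by
        simp only [LinearMap.sub_apply, LinearMap.comp_apply, AlgHom.toLinearMap_apply, map_mul,
          (DD_isOdd p v).der _ _, (DD_isOdd p v').der _ _, map_add, α, endo_par]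
        noncomm_ring)
      (by simp [(DD_isOdd (K := K) p v).der.one, (DD_isOdd (K := K) p v').der.one])
      (fun g => by
        cases g with
        | x e => simp [α]
        | d e => simp [α]
        | k j =>
          by_cases h : j = i
          · simp [α, h, v']
          · have h1 := xx_add_pow (K := K) (ι := ι) p (π (v j)) (f (v j) • v i)
            rw [show π (v j) + f (v j) • v i = v j by simp [π, prj_apply], map_smul, smul_pow,
              hK] at h1
            simp [α, h, v', h1]) c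
    simpa [sub_eq_zero] using this
  have hFil : ∀ φ : Om K E ι →ₐ[K] Om K E ι, (φ = α ∨ φ = β) →
      (∀ c ∈ Fil K (gens T (X : Set ι)) 0 0, φ c ∈ Fil K (gens T (X : Set ι)) 0 0) ∧
      ∀ g, φ (gen K g) ∈ Hom (tau K E ι p) (wT p g) := by
    intro φ hφ
    have h1 : ∀ U : Submodule K (Om K E ι), ∀ j, kk K E i ∈ U → kk K E j ∈ U →
        φ (kk K E j) ∈ U := by
      intro U j h1 h2
      rcases hφ with rfl | rfl
      · simp only [α, endo_kk]
        split_ifs
        exacts [h1, U.sub_mem h2 (U.smul_mem _ h1)]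
      · simp only [β, endo_kk]
        split_ifs
        exacts [h1, U.add_mem h2 (U.smul_mem _ h1)]
    have h2 : ∀ e, φ (xx (K := K) ι e) = xx (K := K) ι e := by
      intro e; rcases hφ with rfl | rfl <;> simp [α, β]
    have h3 : ∀ e, φ (dd (K := K) ι e) = dd (K := K) ι e := by
      intro e; rcases hφ with rfl | rfl <;> simp [α, β]
    refine ⟨fun c hc => Fil_map φ (fun g hg => ?_) hc, fun g => ?_⟩
    · cases g with
      | x e => rw [gen_x, h2]; exact gen_mem_Fil (g := .x e) hg le_rfl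
      | d e => rw [gen_d, h3]; exact gen_mem_Fil (g := .d e) hg le_rfl
      | k j =>
        exact h1 _ j (gen_mem_Fil (g := .k i) hi le_rfl) (gen_mem_Fil (g := .k j) hg le_rfl)
    · cases g with
      | x e => rw [gen_x, h2]; exact xx_tau p e
      | d e => rw [gen_d, h3]; exact dd_tau p e
      | k j => exact h1 _ j (kk_tau p i) (kk_tau p j)
  have ha' := (hFil β (Or.inr rfl)).1 a ha
  have hat' := alg_tau p β (hFil β (Or.inr rfl)).2 hat
  have hD' : DD p v' (β a) = 0 := by rw [← hβα (DD p v' (β a)), ← hDα, hαβ, hD, map_zero]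
  have hv'T : ∀ j ∈ (X.erase i : Set ι), v' j ∈ T' := fun j hj =>
    hT' ▸ Submodule.subset_span ⟨j, hj, rfl⟩
  obtain ⟨b, hb, a0, ha0, a1, ha1, hD0, hD1, hab⟩ := base_step p hK (T := T) (T' := T')
    (X := (X.erase i : Set ι)) (i := i) (by simp) (v := v') (f := f) (by rw [hv'i, hf])
    (by rw [hv'i]; exact hvT i hi) hlt.le
    (by rintro _ ⟨e, _, rfl⟩; simp [π, prj_apply, hf])
    (fun e he => by rw [hv'i]; exact Submodule.mem_map_of_mem he) hv'T (hXe ▸ ha') hD'
  rw [← hXe] at hb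
  have hdim : Module.finrank K T' < Module.finrank K T := Submodule.finrank_lt_finrank_of_lt hlt
  have hn : 0 < n := hX ▸ Finset.card_pos.2 ⟨i, hi⟩
  have hcard : (X.erase i).card = n - 1 := by rw [Finset.card_erase_of_mem hi, hX]
  have hineq : p * (2 * Module.finrank K T' + (n - 1)) + 3 * p
      ≤ p * (2 * Module.finrank K T + n) := by
    rw [mul_comm 3 p, ← mul_add]
    exact Nat.mul_le_mul_left _ (by omega)
  obtain ⟨t', rfl⟩ : ∃ t', t = t' + 3 * p := ⟨t - 3 * p, by omega⟩
  have hcl : ∀ k c, DD p v' c = 0 → DD p v' (cp (tau K E ι p) k c) = 0 := fun k c hc => by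
    rw [← cp_tau_DD, hc, map_zero]
  obtain ⟨e0, he0, he0'⟩ := ih (n - 1) (by omega) _ hcard T' v' hT' (t' + 3 * p) (by omega) _
    (cp_tau_Sp p _ ha0) (cp_tau_Hom p _ _) (hcl _ _ hD0)
  obtain ⟨e1, he1, he1'⟩ := ih (n - 1) (by omega) _ hcard T' v' hT' t' (by omega) _
    (cp_tau_Sp p _ ha1) (cp_tau_Hom p _ _) (hcl _ _ hD1)
  obtain ⟨b', hb', hb'', -⟩ := exists_cp_DD p v' _ (fun k c hc => cp_tau_Sp p k hc) (t' + 3 * p) hb
  have hsub : Fil K (gens T' (X.erase i : Set ι)) 0 0 ≤ Fil K (gens T (X : Set ι)) 0 0 :=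
    Fil_le_zero (gens_mono hlt.le (by simp))
  have htop : xx (K := K) ι (v' i) ^ (p - 1) * dd (K := K) ι (v' i)
      ∈ Fil K (gens T (X : Set ι)) 0 0 := by
    have hy : v' i ∈ T := by rw [hv'i]; exact hvT i hi
    exact Fil_mul (pow_mem_Fil (gen_mem_Fil (g := .x (v' i)) hy le_rfl) _)
      (gen_mem_Fil (g := .d (v' i)) hy le_rfl) (Nat.zero_le _)
  refine ⟨α (b' + e0 - xx (K := K) ι (v' i) ^ (p - 1) * dd (K := K) ι (v' i) * e1),
    (hFil α (Or.inl rfl)).1 _ (Submodule.sub_mem _ (Submodule.add_mem _ hb' (hsub he0))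
      (Fil_mul htop (hsub he1) le_rfl)), ?_⟩
  rw [hDα, ← hαβ a]
  congr 1
  rw [← cp_self hat', hab, map_add, map_add, hb'', cp_Hom_mul (top_tau p _), ← he0', ← he1',
    map_sub, map_add, (DD_isOdd p v').der (_ * _), DD_top, map_mul, map_pow, par_xx, par_dd]
  simp

end

end Pool.Agent.AJT

end

section

/-! The graded piece along a subspace: definitions, slices and lifting. -/

set_option autoImplicit false

namespace Pool.Agent.AJT

open TensorProduct

variable {K E ι : Type} [Field K] [AddCommGroup E] [Module K E] [Fintype ι] [DecidableEq ι]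

/-- Intermediate complexes. -/
noncomputable def FF (T : Submodule K E) (X : Set ι) (v : ι → E) (c : ι → ℕ) (y : ι)
    (C : Set (Submodule K E)) : Submodule K (Om K E ι) :=
  KK T X v c ⊓ ⨅ S : Submodule K E, ⨅ _ : S ∈ C,
    Fil K (gens T X) (ws S v (c + Pi.single y 1)) (mass S v (c + Pi.single y 1))

theorem mem_FF {T : Submodule K E} {X : Set ι} {v : ι → E} {c : ι → ℕ} {y : ι}
    {C : Set (Submodule K E)} {a : Om K E ι} : a ∈ FF T X v c y C ↔ a ∈ KK T X v c ∧
      ∀ S ∈ C, a ∈ Fil K (gens T X) (ws S v (c + Pi.single y 1))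
        (mass S v (c + Pi.single y 1)) := by
  simp [FF, Submodule.mem_iInf]

omit [DecidableEq ι] in
theorem KK_stable {T : Submodule K E} {X : Set ι} {v : ι → E} {c : ι → ℕ}
    {Φ : Om K E ι → Om K E ι}
    (h : ∀ S ≤ T, ∀ k, ∀ a ∈ Fil K (gens T X) (ws S v c) k, Φ a ∈ Fil K (gens T X) (ws S v c) k)
    {a : Om K E ι} (ha : a ∈ KK T X v c) : Φ a ∈ KK T X v c :=
  mem_KK.2 fun S hS => h S hS _ _ (mem_KK.1 ha S hS)

theorem FF_stable {T : Submodule K E} {X : Set ι} {v : ι → E} {c : ι → ℕ} {y : ι}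
    {C : Set (Submodule K E)} {Φ : Om K E ι → Om K E ι}
    (h : ∀ S : Submodule K E, ∀ c0, (c0 = c ∨ c0 = c + Pi.single y 1) → ∀ k,
      ∀ a ∈ Fil K (gens T X) (ws S v c0) k, Φ a ∈ Fil K (gens T X) (ws S v c0) k)
    {a : Om K E ι} (ha : a ∈ FF T X v c y C) : Φ a ∈ FF T X v c y C :=
  mem_FF.2 ⟨KK_stable (fun S _ => h S c (Or.inl rfl)) (mem_FF.1 ha).1,
    fun S hS => h S _ (Or.inr rfl) _ _ ((mem_FF.1 ha).2 S hS)⟩

omit [DecidableEq ι] in
theorem KK_le_zero {T : Submodule K E} {X : Set ι} {v : ι → E} {c : ι → ℕ} :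
    KK T X v c ≤ Fil K (gens T X) 0 0 := fun _ ha => Fil_le_zero subset_rfl (mem_KK.1 ha ⊥ bot_le)

/-- Homogeneous generators for a splitting. -/
def hgens (T S : Submodule K E) (σ : E →ₗ[K] E) (X : Set ι) : Set (Gen E ι) :=
  {g | match g with
    | .x e => e ∈ S ∨ (e ∈ T ∧ σ e = 0)
    | .d e => e ∈ S ∨ (e ∈ T ∧ σ e = 0)
    | .k i => i ∈ X}

open Classical in
/-- Left generators. -/
noncomputable def isL (S : Submodule K E) (v : ι → E) : Gen E ι → Bool
  | .x e => decide (e ∈ S)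
  | .d e => decide (e ∈ S)
  | .k i => decide (v i ∈ S)

/-- A splitting of the space along `S`. -/
structure Spl (T S : Submodule K E) (σ : E →ₗ[K] E) : Prop where
  le : S ≤ T
  mem : ∀ e, σ e ∈ S
  fix : ∀ e ∈ S, σ e = e

/-- The grading along `S`. -/
noncomputable def gS (S : Submodule K E) (σ : E →ₗ[K] E) (v : ι → E) (c : ι → ℕ) :
    Om K E ι →ₐ[K] Polynomial (Om K E ι) := grad σ 1 1 (fun i => ws S v c (.k i))

open Classical in
/-- Masses outside `S`. -/
noncomputable def cOut (S : Submodule K E) (v : ι → E) (c : ι → ℕ) : ι → ℕ :=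
  fun i => if v i ∈ S then 0 else c i

/-- The left factor. -/
noncomputable def YY (S : Submodule K E) (σ : E →ₗ[K] E) (X : Set ι) (v : ι → E) (c : ι → ℕ)
    (y : ι) : Submodule K (Om K E ι) :=
  Hom (gS S σ v (c + Pi.single y 1)) (mass S v c) ⊓
    FF S {i ∈ X | v i ∈ S} v c y {S' | S' < S ∧ v y ∈ S'}

/-- The right factor. -/
noncomputable def WW (T S : Submodule K E) (σ : E →ₗ[K] E) (X : Set ι) (v : ι → E) (c : ι → ℕ) :
    Submodule K (Om K E ι) :=
  KK (T.map (LinearMap.id - σ)) {i ∈ X | v i ∉ S} (fun i => (LinearMap.id - σ : E →ₗ[K] E) (v i))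
    (cOut S v c)

section
variable {T S : Submodule K E} {σ : E →ₗ[K] E} {X : Set ι} {v : ι → E}

omit [Fintype ι] [DecidableEq ι] in
theorem hgens_subset (h : Spl T S σ) : hgens T S σ X ⊆ gens T X := by
  intro g hg
  cases g with
  | x e => rcases hg with h' | h'; exacts [h.le h', h'.1]
  | d e => rcases hg with h' | h'; exacts [h.le h', h'.1]
  | k i => exact hg

omit [Fintype ι] [DecidableEq ι] in
theorem Fil_le_hgens (h : Spl T S σ) {S' : Submodule K E} (hS' : ∀ e ∈ T, e ∈ S' → σ e ∈ S')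
    (c : ι → ℕ) (k : ℕ) :
    Fil K (gens T X) (ws S' v c) k ≤ Fil K (hgens T S σ X) (ws S' v c) k := by
  refine Fil_le (fun g hg => ?_) k
  have h1 : ∀ e ∈ T, e - σ e ∈ T ∧ σ (e - σ e) = 0 := fun e he =>
    ⟨T.sub_mem he (h.le (h.mem e)), by rw [map_sub, h.fix _ (h.mem e), sub_self]⟩
  cases g with
  | x e =>
    have : gen K (.x e : Gen E ι) = gen K (.x (σ e)) + gen K (.x (e - σ e)) := by simp
    rw [this]
    refine Submodule.add_mem _ (gen_mem_Fil (Or.inl (h.mem e)) ?_)
      (gen_mem_Fil (Or.inr (h1 e hg)) ?_)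
    · simp only [ws_x]
      by_cases h' : e ∈ S'
      · simp [h', hS' e hg h']
      · simp [h']
    · simp only [ws_x]
      by_cases h' : e ∈ S'
      · simp [h', S'.sub_mem h' (hS' e hg h')]
      · simp [h']
  | d e =>
    have : gen K (.d e : Gen E ι) = gen K (.d (σ e)) + gen K (.d (e - σ e)) := by simp
    rw [this]
    refine Submodule.add_mem _ (gen_mem_Fil (Or.inl (h.mem e)) ?_)
      (gen_mem_Fil (Or.inr (h1 e hg)) ?_)
    · simp only [ws_d]
      by_cases h' : e ∈ S'
      · simp [h', hS' e hg h']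
      · simp [h']
    · simp only [ws_d]
      by_cases h' : e ∈ S'
      · simp [h', S'.sub_mem h' (hS' e hg h')]
      · simp [h']
  | k i => exact gen_mem_Fil hg le_rfl

omit [Fintype ι] [DecidableEq ι] in
theorem hgens_Hom (h : Spl T S σ) (c : ι → ℕ) :
    ∀ g ∈ hgens T S σ X, gen K g ∈ Hom (gS S σ v c) (ws S v c g) := by
  intro g hg
  cases g with
  | x e =>
    rw [ws_x]
    split_ifs with h'
    · exact xx_Hom_left _ _ _ _ (h.fix e h')
    · exact xx_Hom_right _ _ _ _ (hg.resolve_left h').2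
  | d e =>
    rw [ws_d]
    split_ifs with h'
    · exact dd_Hom_left _ _ _ _ (h.fix e h')
    · exact dd_Hom_right _ _ _ _ (hg.resolve_left h').2
  | k i => exact kk_Hom _ _ _ (fun i => ws S v c (.k i)) i

omit [Fintype ι] [DecidableEq ι] in
theorem hgens_split (h : Spl T S σ) : ∀ g ∈ hgens T S σ X,
    (isL S v g = true → gR σ {i | v i ∈ S} g = 0) ∧
      (isL S v g = false → gL σ {i | v i ∈ S} g = 0) := by
  intro g hg
  cases g with
  | x e =>
    simp only [isL, decide_eq_true_eq, decide_eq_false_iff_not, gR, gL]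
    exact ⟨fun h' => by simp [h.fix e h'], fun h' => by simp [(hg.resolve_left h').2]⟩
  | d e =>
    simp only [isL, decide_eq_true_eq, decide_eq_false_iff_not, gR, gL]
    exact ⟨fun h' => by simp [h.fix e h'], fun h' => by simp [(hg.resolve_left h').2]⟩
  | k i =>
    simp only [isL, decide_eq_true_eq, decide_eq_false_iff_not, gR, gL]
    exact ⟨fun h' => by simp [h'], fun h' => by simp [h']⟩

omit [Fintype ι] [DecidableEq ι] in
theorem left_mem {g : Gen E ι} (hg : g ∈ hgens T S σ X) (hq : isL S v g = true) :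
    g ∈ gens S {i ∈ X | v i ∈ S} := by
  cases g with
  | x e => simpa [isL] using hq
  | d e => simpa [isL] using hq
  | k i => exact ⟨hg, by simpa [isL] using hq⟩

omit [Fintype ι] [DecidableEq ι] in
theorem right_mem {g : Gen E ι} (hg : g ∈ hgens T S σ X) (hq : isL S v g = false) :
    g ∈ gens (T.map (LinearMap.id - σ)) {i ∈ X | v i ∉ S} := by
  cases g with
  | x e =>
    have := hg.resolve_left (by simpa [isL] using hq)
    exact ⟨e, this.1, by simp [this.2]⟩
  | d e =>
    have := hg.resolve_left (by simpa [isL] using hq)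
    exact ⟨e, this.1, by simp [this.2]⟩
  | k i => exact ⟨hg, by simpa [isL] using hq⟩

omit [Fintype ι] [DecidableEq ι] in
theorem ws_right {S' : Submodule K E} (hS' : S' ≤ S) (c : ι → ℕ) {g : Gen E ι}
    (hq : isL S v g = false) : ws S' v c g = 0 := by
  cases g with
  | x e => exact if_neg fun h => by simp [isL, hS' h] at hq
  | d e => exact if_neg fun h => by simp [isL, hS' h] at hq
  | k i => exact if_neg fun h => by simp [isL, hS' h] at hq

omit [Fintype ι] [DecidableEq ι] in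
theorem wt_left {S' : Submodule K E} (hS' : S' ≤ S) (c : ι → ℕ) (l : List (Gen E ι)) :
    wt (ws S' v c) l = wt (ws S' v c) (l.filter (isL S v)) := by
  rw [wt_filter _ (isL S v), wt_eq_zero (l := l.filter fun g => !isL S v g), add_zero]
  intro g hg
  exact ws_right hS' c (by simpa using (List.mem_filter.1 hg).2)

omit [Fintype ι] [DecidableEq ι] in
theorem rsl_Fil (h : Spl T S σ) {S' : Submodule K E} (hS' : S' ≤ S) (c0 c1 : ι → ℕ) (k m : ℕ)
    {a : Om K E ι} (ha : a ∈ Fil K (gens T X) (ws S' v c0) k) (f : Om K E ι →ₗ[K] K) :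
    rsl f (nu σ {i | v i ∈ S} (cp (gS S σ v c1) m a))
      ∈ Hom (gS S σ v c1) m ⊓ Fil K (gens S {i ∈ X | v i ∈ S}) (ws S' v c0) k := by
  have h1 := cp_Sp (G := gS S σ v c1) (w := ws S v c1)
    (fun l hl g hg => hgens_Hom h c1 g (hl.1 g hg)) m
    (Fil_le_hgens h (fun e _ he => by rwa [h.fix e (hS' he)]) c0 k ha)
  refine rsl_nu_mem σ _ (isL S v) (fun l hl g hg => hgens_split h g (hl.1.1 g hg))
    (fun l hl => Submodule.mem_inf.2 ⟨?_, pr_mem_Sp ⟨fun g hg => ?_, ?_⟩⟩) h1 f
  · rw [← hl.2, wt_left le_rfl]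
    exact pr_Hom _ fun g hg => hgens_Hom h c1 g (hl.1.1 g (List.mem_filter.1 hg).1)
  · exact left_mem (hl.1.1 g (List.mem_filter.1 hg).1) (List.mem_filter.1 hg).2
  · rw [← wt_left hS']; exact hl.1.2

theorem nu_mem_TS (h : Spl T S σ) {c : ι → ℕ} (hc : ∀ i, c i ≠ 0 → v i ∈ T) {y : ι}
    {C : Set (Submodule K E)} (hC : ∀ S' < S, v y ∈ S' → S' ∈ C) {a : Om K E ι}
    (ha : a ∈ FF T X v c y C) :
    nu σ {i | v i ∈ S} (cp (gS S σ v (c + Pi.single y 1)) (mass S v c) a)
      ∈ TS (YY S σ X v c y) (WW T S σ X v c) := by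
  obtain ⟨ha1, ha2⟩ := mem_FF.1 ha
  rw [mem_KK] at ha1
  refine mem_TS_of_slices (fun f => ⟨(rsl_Fil h le_rfl _ _ _ _ (ha1 S h.le) f).1, mem_FF.2
    ⟨mem_KK.2 fun S' hS' => (rsl_Fil h hS' _ _ _ _ (ha1 S' (hS'.trans h.le)) f).2,
      fun S' hS' => (rsl_Fil h hS'.1.le _ _ _ _ (ha2 S' (hC S' hS'.1 hS'.2)) f).2⟩⟩)
    (fun f => mem_KK.2 fun S'' _ => ?_)
  let π : E →ₗ[K] E := LinearMap.id - σ
  have hπ : ∀ e ∈ S, π e = 0 := fun e he => by simp [π, h.fix e he]
  let S' := S''.comap π ⊓ T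
  have hSS' : S ≤ S' := fun e he => ⟨by simp [hπ e he], h.le he⟩
  have h1 := cp_Sp (G := gS S σ v (c + Pi.single y 1)) (w := ws S v (c + Pi.single y 1))
    (fun l hl g hg => hgens_Hom h _ g (hl.1 g hg)) (mass S v c)
    (Fil_le_hgens h (fun e _ _ => hSS' (h.mem e)) c _ (ha1 S' inf_le_right))
  refine lsl_nu_mem σ _ (isL S v) (fun l hl g hg => hgens_split h g (hl.1.1 g hg))
    (fun l hl => pr_mem_Sp ⟨fun g hg => ?_, ?_⟩) h1 f
  · exact right_mem (hl.1.1 g (List.mem_filter.1 hg).1) (by simpa using (List.mem_filter.1 hg).2)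
  · have h2 := hl.1.2
    have h3 := hl.2
    rw [wt_filter _ (isL S v)] at h2
    rw [wt_left le_rfl] at h3
    have h4 : wt (ws S' v c) (l.filter (isL S v))
        ≤ wt (ws S v (c + Pi.single y 1)) (l.filter (isL S v)) := by
      refine wt_le fun g hg => ?_
      have hq := (List.mem_filter.1 hg).2
      cases g with
      | x e =>
        have : e ∈ S := by simpa [isL] using hq
        simp [ws_x, this, hSS' this]
      | d e =>
        have : e ∈ S := by simpa [isL] using hq
        simp [ws_d, this, hSS' this]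
      | k i =>
        have : v i ∈ S := by simpa [isL] using hq
        simp [ws_k, this, hSS' this]
    have h5 : wt (ws S' v c) (l.filter fun g => !isL S v g)
        ≤ wt (ws S'' (fun i => π (v i)) (cOut S v c)) (l.filter fun g => !isL S v g) := by
      refine wt_le fun g hg => ?_
      have hq : isL S v g = false := by simpa using (List.mem_filter.1 hg).2
      have hg' := hl.1.1 g (List.mem_filter.1 hg).1
      cases g with
      | x e =>
        have h6 := (hg'.resolve_left (by simpa [isL] using hq)).2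
        simp only [ws_x]
        by_cases h' : e ∈ S'
        · have : e ∈ S'' := by simpa [π, h6] using h'.1
          simp [h', this]
        · simp [h']
      | d e =>
        have h6 := (hg'.resolve_left (by simpa [isL] using hq)).2
        simp only [ws_d]
        by_cases h' : e ∈ S'
        · have : e ∈ S'' := by simpa [π, h6] using h'.1
          simp [h', this]
        · simp [h']
      | k i =>
        have h6 : v i ∉ S := by simpa [isL] using hq
        simp only [ws_k, cOut]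
        by_cases h' : v i ∈ S'
        · have : π (v i) ∈ S'' := h'.1
          simp [h', this, h6]
        · simp [h']
    have h6 : mass S v c + mass S'' (fun i => π (v i)) (cOut S v c) ≤ mass S' v c := by
      unfold mass cOut
      rw [← Finset.sum_add_distrib]
      refine Finset.sum_le_sum fun i _ => ?_
      by_cases h7 : v i ∈ S
      · simp [h7, hSS' h7]
      · by_cases h8 : π (v i) ∈ S''
        · by_cases h9 : c i = 0
          · simp [h9]
          · have : v i ∈ S' := ⟨h8, hc i h9⟩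
            simp [h7, h8, this]
        · simp [h7, h8]
    change mass S'' (fun i => π (v i)) (cOut S v c) ≤ wt (ws S'' (fun i => π (v i)) (cOut S v c)) _
    omega

theorem mu_mem_map [NeZero (2 : K)] [FiniteDimensional K E] (h : Spl T S σ) {c : ι → ℕ}
    (hc : ∀ i, c i ≠ 0 → v i ∈ T) {y : ι} (hy : v y ∈ S)
    {C : Set (Submodule K E)} (hC : ∀ S' ∈ C, S' ≤ T ∧ v y ∈ S' ∧ ¬ S ≤ S')
    {t : Om K E ι ⊗[K] Om K E ι} (ht : t ∈ TS (YY S σ X v c y) (WW T S σ X v c)) :
    mu t ∈ (FF T X v c y C).map (cp (gS S σ v (c + Pi.single y 1)) (mass S v c)) := by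
  refine TS_map mu (fun z hz a ha => ?_) ht
  obtain ⟨b, hb, hb'⟩ := lift_KK T v (LinearMap.id - σ) _ (cOut S v c) (fun i hi => hc i (by
    intro h0; simp [cOut, h0] at hi)) a ha
  obtain ⟨hz0, hz1⟩ := hz
  obtain ⟨hz1, hz2⟩ := mem_FF.1 hz1
  rw [mem_KK] at hz1 hb
  have key : ∀ S' ≤ T, ∀ c0, c ≤ c0 → (∀ i, v i ∉ S → c0 i = c i) →
      z ∈ Fil K (gens S {i ∈ X | v i ∈ S}) (ws (S' ⊓ S) v c0) (mass (S' ⊓ S) v c0) →
      z * b ∈ Fil K (gens T X) (ws S' v c0) (mass S' v c0) := by
    intro S' hS' c0 hc0 hc0' hz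
    refine Fil_mul (Fil_mono (gens_mono h.le (fun i hi => hi.1)) (fun g _ => ?_) le_rfl hz)
      (Fil_mono (gens_mono le_rfl (fun i hi => hi.1)) (fun g _ => ?_) le_rfl (hb S' hS')) ?_
    · cases g with
      | x e => simp only [ws_x]; split_ifs with h1 h2 <;> simp_all
      | d e => simp only [ws_d]; split_ifs with h1 h2 <;> simp_all
      | k i => simp only [ws_k]; split_ifs with h1 h2 <;> simp_all
    · cases g with
      | x e => exact le_rfl
      | d e => exact le_rfl
      | k i =>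
        have := hc0 i
        simp only [ws_k, cOut]; split_ifs <;> omega
    · unfold mass cOut
      rw [← Finset.sum_add_distrib]
      refine Finset.sum_le_sum fun i _ => ?_
      by_cases h1 : v i ∈ S'
      · by_cases h2 : v i ∈ S
        · simp [h1, h2]
        · simp [h1, h2, hc0' i h2]
      · simp [h1]
  refine ⟨z * b, mem_FF.2 ⟨mem_KK.2 fun S' hS' =>
    key S' hS' c le_rfl (fun _ _ => rfl) (hz1 _ inf_le_right), fun S' hS' => ?_⟩, ?_⟩
  · obtain ⟨h1, h2, h3⟩ := hC S' hS'
    refine key S' h1 _ (fun i => by simp) (fun i hi => ?_) (hz2 _ ⟨?_, h2, hy⟩)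
    · have : i ≠ y := fun h => hi (h ▸ hy)
      simp [this]
    · exact lt_of_le_of_ne inf_le_right fun h => h3 (h ▸ inf_le_left)
  · have h1 := cp_Hom_mul hz0 0 b
    rw [zero_add] at h1
    rw [h1, mu_tmul, ← hb']
    congr 1
    refine Sp_ext _ (push ι (LinearMap.id - σ)).toLinearMap (fun l hl => ?_) (hb ⊥ bot_le)
    have hl' := hl.1
    clear hl
    simp only [cp_apply, AlgHom.toLinearMap_apply]
    induction l with
    | nil => simp
    | cons g l ih =>
      rw [pr_cons, map_mul, map_mul, Polynomial.mul_coeff_zero,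
        ih fun g' hg' => hl' g' (by simp [hg'])]
      congr 1
      have hg := hl' g (by simp)
      cases g with
      | x e => simp [gS, grad_xx, Polynomial.coeff_monomial]
      | d e => simp [gS, grad_dd, Polynomial.coeff_monomial]
      | k i => simp [gS, grad_kk, ws_k, hg.2]

omit [Fintype ι] [DecidableEq ι] in
theorem cp_DD (p : ℕ) [Fact p.Prime] [CharP K p] (h : Spl T S σ)
    {c : ι → ℕ} (hc : ∀ i, c i < p) {m : ℕ} {a : Om K E ι}
    (ha : a ∈ Fil K (gens T X) (ws S v c) m) :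
    cp (gS S σ v c) m (DD p v a)
      = DD p (fun i => (LinearMap.id - σ : E →ₗ[K] E) (v i)) (cp (gS S σ v c) m a) := by
  set u : ι → E := fun i => (LinearMap.id - σ : E →ₗ[K] E) (v i) with hu
  have hp := (Fact.out : p.Prime).pos
  have hodd : IsOdd (DD (K := K) p v - DD p u) :=
    ⟨fun a b => by
      simp only [LinearMap.sub_apply, (DD_isOdd p v).der _ _, (DD_isOdd p u).der _ _]
      noncomm_ring,
    fun a => by
      simp only [LinearMap.sub_apply, (DD_isOdd p v).anti, (DD_isOdd p u).anti, map_sub]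
      abel⟩
  have h1 : (DD (K := K) p v - DD p u : Om K E ι →ₗ[K] Om K E ι) a ∈ Fil K (gens T X) (ws S v c) (m + 1) := by
    refine Fil_odd hodd 1 0 (fun g hg => ?_) ha
    cases g with
    | x e => simp
    | d e => simp
    | k i =>
      have h2 := xx_add_pow (K := K) (ι := ι) p (σ (v i)) (u i)
      rw [show σ (v i) + u i = v i by simp [hu]] at h2
      simp only [gen_k, LinearMap.sub_apply, DD_kk, h2, add_sub_cancel_right]
      refine Fil_anti ?_ (pow_mem_Fil (xx_mem_Fil (h.le (h.mem _)) le_rfl (Or.inr (h.mem _))) p)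
      have := hc i
      rw [ws_k]; split_ifs <;> omega
  have h2 := cp_Fil_succ (hgens_Hom h c) (Fil_le_hgens h (fun e _ _ => h.mem e) c _ h1)
  rw [LinearMap.sub_apply, map_sub, sub_eq_zero] at h2
  rw [h2]
  refine cp_lin (w := ws S v c) (DD p u) 0 (fun l hl => ?_) m
    (Fil_le_hgens h (fun e _ _ => h.mem e) c _ ha)
  refine ⟨pr_Hom l fun g hg => hgens_Hom h c g (hl.1 g hg), der_pr_Hom (DD_isOdd p u).der 0 l
    fun g hg => ⟨hgens_Hom h c g (hl.1 g hg), par_Hom_gen (hgens_Hom h c g (hl.1 g hg)), ?_⟩⟩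
  have hg' := hl.1 g hg
  cases g with
  | x e => rw [gen_x, DD_xx]; exact hgens_Hom (X := X) h c (.d e) hg'
  | d e => simp
  | k i =>
    rw [gen_k, DD_kk, ws_k]
    split_ifs with h'
    · simp [hu, h.fix _ h', hp.ne']
    · simpa [gS] using Hom_pow (xx_Hom_right (ι := ι) σ 1 1 (fun i => ws S v c (.k i)) (e := u i)
        (by simp [hu, h.fix _ (h.mem _)])) p

end

end Pool.Agent.AJT

end

section

/-! Exactness of the graded piece. -/

set_option autoImplicit false

namespace Pool.Agent.AJT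

open TensorProduct

variable {K E ι : Type} [Field K] [AddCommGroup E] [Module K E]

omit [AddCommGroup E] in
theorem wt_add (w w' : Gen E ι → ℕ) (l : List (Gen E ι)) :
    wt (fun g => w g + w' g) l = wt w l + wt w' l := by
  simp only [wt]; exact List.sum_map_add

omit [AddCommGroup E] in
theorem wt_mul (n : ℕ) (w : Gen E ι → ℕ) (l : List (Gen E ι)) :
    wt (fun g => n * w g) l = n * wt w l := by
  induction l with
  | nil => simp
  | cons g l ih => simp [ih, mul_add]

omit [AddCommGroup E] in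
theorem le_wt (w : Gen E ι → ℕ) {l : List (Gen E ι)} {g : Gen E ι} (hg : g ∈ l) : w g ≤ wt w l := by
  obtain ⟨s, t, rfl⟩ := List.append_of_mem hg
  rw [wt_append, wt_cons]; omega

/-- A weight given by its three kinds of values. -/
def w3 (a b : ℕ) (c : ι → ℕ) : Gen E ι → ℕ
  | .x _ => a
  | .d _ => b
  | .k i => c i

variable [Fintype ι] [DecidableEq ι] [FiniteDimensional K E]
  (p : ℕ) [Fact p.Prime] [CharP K p] [NeZero (2 : K)]

section
variable {T S : Submodule K E} {σ : E →ₗ[K] E} {X : Set ι} {v : ι → E}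

omit [Fintype ι] [DecidableEq ι] [FiniteDimensional K E] [Fact p.Prime] [CharP K p]
  [NeZero (2 : K)] in
theorem EE_left (h : Spl T S σ) (u : ι → E) (X' : Set ι) :
    ∀ g ∈ gens S X', EE p u σ (gen K g) = (w3 1 1 0 g : K) • gen K g := by
  intro g hg
  cases g with
  | x e => simp [w3, h.fix e hg]
  | d e => simp [w3, h.fix e hg]
  | k i => simp [w3]

open Classical in
theorem YY_bound (hK : ∀ r : K, r ^ p = r) (hp : 4 ≤ p) (h : Spl T S σ) {c : ι → ℕ}
    (hc : ∀ i, c i ≤ 2) {y : ι} {n0 : ℕ}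
    (hm : mass S v c + (∑ i, if i ∈ X ∧ v i ∈ S ∧ i ≠ y then 2 - c i else 0) + 1 ≤ 2 * n0)
    (u : ι → E) {z : Om K E ι} (hz : z ∈ YY S σ X v c y) (hE : EE p u σ z = 0) {j : ℕ}
    (hj : p * (Module.finrank K S + n0) < j + p) (hzj : z ∈ Hom (tau K E ι p) j) : z = 0 := by
  let b := Module.finBasis K S
  let lg : Set (Gen E ι) := {g | (∃ j, g = .x (b j)) ∨ (∃ j, g = .d (b j)) ∨
    ∃ i, (i ∈ X ∧ v i ∈ S) ∧ g = .k i}
  have hlg : lg ⊆ gens S {i ∈ X | v i ∈ S} := by
    rintro g (⟨j, rfl⟩ | ⟨j, rfl⟩ | ⟨i, hi, rfl⟩)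
    exacts [(b j).2, (b j).2, hi]
  have hlg' : gens S {i ∈ X | v i ∈ S} ⊆ hgens T S σ X := by
    intro g hg
    cases g with
    | x e => exact Or.inl hg
    | d e => exact Or.inl hg
    | k i => exact hg.1
  have h1 : z ∈ Fil K lg (ws S v c) (mass S v c) := by
    refine Fil_le (fun g hg => ?_) _ (mem_KK.1 (mem_FF.1 hz.2).1 S le_rfl)
    have hrep : ∀ e ∈ S, ∃ r : Fin (Module.finrank K S) → K, e = ∑ j, r j • (b j : E) := by
      intro e he
      refine ⟨fun j => b.repr ⟨e, he⟩ j, ?_⟩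
      have := congrArg (fun s : S => (s : E)) (b.sum_repr ⟨e, he⟩)
      simp only [Submodule.coe_sum, Submodule.coe_smul] at this
      exact this.symm
    cases g with
    | x e =>
      obtain ⟨r, hr⟩ := hrep e hg
      rw [gen_x, ws_x, if_pos (show e ∈ S from hg), hr, map_sum]
      refine Submodule.sum_mem _ fun j _ => ?_
      rw [map_smul]
      exact Submodule.smul_mem _ _ (gen_mem_Fil (g := .x (b j : E)) (Or.inl ⟨j, rfl⟩)
        (by simp [ws_x]))
    | d e =>
      obtain ⟨r, hr⟩ := hrep e hg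
      rw [gen_d, ws_d, if_pos (show e ∈ S from hg), hr, map_sum]
      refine Submodule.sum_mem _ fun j _ => ?_
      rw [map_smul]
      exact Submodule.smul_mem _ _
        (gen_mem_Fil (g := .d (b j : E)) (Or.inr (Or.inl ⟨j, rfl⟩)) (by simp [ws_d]))
    | k i => exact gen_mem_Fil (Or.inr (Or.inr ⟨i, hg, rfl⟩)) le_rfl
  have h2 := cp_Sp (G := gS S σ v (c + Pi.single y 1)) (w := ws S v (c + Pi.single y 1))
    (fun l hl g hg => hgens_Hom h _ g (hlg' (hlg (hl.1 g hg)))) (mass S v c) h1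
  rw [cp_self hz.1] at h2
  have h3 := PP_Sp p hK u σ (w := w3 1 1 0)
    (fun l hl g hg => EE_left p h u _ g (hlg (hl.1.1 g hg))) h2
  rw [PP_of_EE p u σ hE] at h3
  have h4 := cp_Sp (G := tau K E ι p) (w := wT p) (fun _ _ g _ => gen_tau p g) j h3
  rw [cp_self hzj] at h4
  refine Sp_ext LinearMap.id 0 (fun l hl => ?_) h4
  by_contra hne
  obtain ⟨⟨⟨⟨hl, hl1⟩, hl2⟩, q, hl3⟩, hl4⟩ := hl
  have e1 : wt (wT p) l = 2 * wt (w3 1 1 0) l + p * wt (w3 0 1 0) l + p * wt (w3 0 0 1) l := by
    rw [← wt_mul, ← wt_mul, ← wt_mul, ← wt_add, ← wt_add]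
    refine wt_congr fun g _ => ?_
    cases g <;> simp [wT, w3, add_comm]
  have e2 : wt (ws S v c) l = wt (w3 1 1 0) l + wt (w3 0 0 c) l := by
    rw [← wt_add]
    refine wt_congr fun g hg => ?_
    rcases hl g hg with ⟨j, rfl⟩ | ⟨j, rfl⟩ | ⟨i, hi, rfl⟩
    · simp [ws_x, w3]
    · simp [ws_d, w3]
    · simp [ws_k, w3, hi.2]
  have e3 : wt (ws S v (c + Pi.single y 1)) l
      = wt (ws S v c) l + wt (w3 0 0 (Pi.single y 1)) l := by
    rw [← wt_add]
    refine wt_congr fun g hg => ?_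
    rcases hl g hg with ⟨j, rfl⟩ | ⟨j, rfl⟩ | ⟨i, hi, rfl⟩
    · simp [ws_x, w3]
    · simp [ws_d, w3]
    · simp [ws_k, w3, hi.2]
  have e4 : wt (w3 0 0 (fun i => 2 - c i)) l + wt (w3 0 0 c) l = 2 * wt (w3 0 0 1) l := by
    rw [← wt_add, ← wt_mul]
    refine wt_congr fun g _ => ?_
    cases g with
    | x e => simp [w3]
    | d e => simp [w3]
    | k i => have := hc i; simp [w3]; omega
  have e5 : Gen.k y ∉ l := fun hm => by
    have := le_wt (w3 0 0 (Pi.single y 1)) hm
    simp only [w3, Pi.single_eq_same] at this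
    omega
  have e6 := wt_le_sum (K := K) (fun j => (.d (b j) : Gen E ι)) (fun _ => trivial) (fun _ => 1)
    (w := w3 0 1 0) (l := l) hne (fun g hg => by
      rcases hl g hg with ⟨j, rfl⟩ | ⟨j, rfl⟩ | ⟨i, hi, rfl⟩
      · exact Or.inl rfl
      · exact Or.inr ⟨j, rfl, le_rfl⟩
      · exact Or.inl rfl)
  have e7 := wt_le_sum (K := K) (fun i => (.k i : Gen E ι)) (fun _ => trivial)
    (fun i => if i ∈ X ∧ v i ∈ S ∧ i ≠ y then 2 - c i else 0)
    (w := w3 0 0 (fun i => 2 - c i)) (l := l) hne (fun g hg => by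
      rcases hl g hg with ⟨j, rfl⟩ | ⟨j, rfl⟩ | ⟨i, hi, rfl⟩
      · exact Or.inl rfl
      · exact Or.inl rfl
      · have : i ≠ y := fun h => e5 (h ▸ hg)
        exact Or.inr ⟨i, rfl, by simp [w3, hi.1, hi.2, this]⟩)
  simp only [Finset.sum_const, Finset.card_univ, Fintype.card_fin, smul_eq_mul, mul_one] at e6
  have e8 : 4 * q ≤ p * q := Nat.mul_le_mul_right _ hp
  have e9 : 2 * q + wt (w3 0 1 0) l + wt (w3 0 0 1) l + 1 ≤ Module.finrank K S + n0 := by omega
  have e10 := Nat.mul_le_mul_left p e9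
  rw [← hl4, e1, hl3] at hj
  nlinarith

open Classical in
theorem graded_exact (hK : ∀ r : K, r ^ p = r) (hp : 4 ≤ p) (h : Spl T S σ)
    (hv : ∀ i ∈ X, v i ∈ T) {c : ι → ℕ} (hc : ∀ i, c i ≤ 2) {y : ι} {n0 : ℕ}
    (hm : mass S v c + (∑ i, if i ∈ X ∧ v i ∈ S ∧ i ≠ y then 2 - c i else 0) + 1 ≤ 2 * n0)
    {N' t0 : ℕ} (ht0 : p * N' + p * (Module.finrank K S + n0) < t0 + p)
    (habs : ∀ t, p * N' < t → ∀ a ∈ WW T S σ X v c, a ∈ Hom (tau K E ι p) t →
      DD p (fun i => (LinearMap.id - σ : E →ₗ[K] E) (v i)) a = 0 →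
      ∃ b ∈ WW T S σ X v c, DD p (fun i => (LinearMap.id - σ : E →ₗ[K] E) (v i)) b = a)
    {a : Om K E ι} (ha : a ∈ (TS (YY S σ X v c y) (WW T S σ X v c)).map mu)
    (hat : a ∈ Hom (tau K E ι p) t0)
    (hD : DD p (fun i => (LinearMap.id - σ : E →ₗ[K] E) (v i)) a = 0) :
    ∃ b ∈ (TS (YY S σ X v c y) (WW T S σ X v c)).map mu,
      DD p (fun i => (LinearMap.id - σ : E →ₗ[K] E) (v i)) b = a := by
  set u : ι → E := fun i => (LinearMap.id - σ : E →ₗ[K] E) (v i) with hu
  set Y := YY S σ X v c y with hY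
  set W := WW T S σ X v c with hW
  set U := (TS Y W).map mu with hU
  have hp0 := (Fact.out : p.Prime).pos
  let AL := gens (ι := ι) S {i ∈ X | v i ∈ S}
  let AR := gens (ι := ι) (T.map (LinearMap.id - σ)) {i ∈ X | v i ∉ S}
  have hYL : Y ≤ Fil K AL 0 0 := fun z hz => KK_le_zero (mem_FF.1 hz.2).1
  have hWR : W ≤ Fil K AR 0 0 := KK_le_zero
  have hAL : AL ⊆ hgens T S σ X := by
    intro g hg
    cases g with
    | x e => exact Or.inl hg
    | d e => exact Or.inl hg
    | k i => exact hg.1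
  have hσ0 : ∀ e ∈ T.map (LinearMap.id - σ), σ e = 0 := by
    rintro _ ⟨e, _, rfl⟩
    simp [h.fix _ (h.mem e)]
  have hL : ∀ g ∈ AL, gR σ {i | v i ∈ S} g = 0 := by
    intro g hg
    cases g with
    | x e => simp [gR, h.fix e hg]
    | d e => simp [gR, h.fix e hg]
    | k i => simp [gR, hg.2]
  have hR : ∀ g ∈ AR, gL σ {i | v i ∈ S} g = 0 := by
    intro g hg
    cases g with
    | x e => simp [gL, hσ0 e hg]
    | d e => simp [gL, hσ0 e hg]
    | k i => simp [gL, hg.2]
  have hHom : ∀ {δ : Om K E ι →ₗ[K] Om K E ι}, IsOdd δ →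
      (∀ g ∈ AL, δ (gen K g) ∈ Hom (gS S σ v (c + Pi.single y 1))
        (ws S v (c + Pi.single y 1) g)) →
      ∀ z ∈ Y, δ z ∈ Hom (gS S σ v (c + Pi.single y 1)) (mass S v c) := by
    intro δ hδ hg z hz
    have h1 := cp_Sp (G := gS S σ v (c + Pi.single y 1)) (w := ws S v (c + Pi.single y 1))
      (fun l hl g hg => hgens_Hom h _ g (hAL (hl.1 g hg))) (mass S v c) (hYL hz)
    rw [cp_self hz.1] at h1
    refine Sp_map δ (fun l hl => ?_) h1
    rw [← hl.2]
    exact der_pr_Hom hδ.der 0 l fun g hg' => ⟨hgens_Hom h _ g (hAL (hl.1.1 g hg')),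
      par_Hom_gen (hgens_Hom h _ g (hAL (hl.1.1 g hg'))), hg g (hl.1.1 g hg')⟩
  have hu0 : ∀ i, v i ∈ S → xx (K := K) ι (u i) ^ p = 0 := fun i hi => by
    simp [hu, h.fix _ hi, hp0.ne']
  have hDY : ∀ z ∈ Y, DD p u z ∈ Y := fun z hz => ⟨hHom (DD_isOdd p u) (fun g hg => by
      cases g with
      | x e => rw [gen_x, DD_xx]; exact hgens_Hom (X := X) h _ (.d e) (Or.inl hg)
      | d e => simp
      | k i => simp [hu0 i hg.2]) z hz,
    FF_stable (fun S' c0 _ k a ha => DD_Fil p (fun i hi => by simp [hu0 i hi.2]) ha) hz.2⟩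
  have hhY : ∀ z ∈ Y, hh ι σ z ∈ Y := fun z hz => ⟨hHom (hh_isOdd σ) (fun g hg => by
      cases g with
      | x e => simp
      | d e => rw [gen_d, hh_dd, h.fix e hg]; exact hgens_Hom (X := X) h _ (.x e) (Or.inl hg)
      | k i => simp) z hz,
    FF_stable (fun S' c0 _ k a ha => Fil_odd (hh_isOdd σ) 0 0 (fun g hg => by
      cases g with
      | x e => simp
      | d e => rw [gen_d, hh_dd, h.fix e hg]; exact gen_mem_Fil (g := .x e) hg le_rfl
      | k i => simp) ha) hz.2⟩
  have hEY : ∀ z ∈ Y, EE p u σ z ∈ Y := fun z hz =>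
    Submodule.add_mem _ (hDY _ (hhY z hz)) (hhY _ (hDY z hz))
  have hSpY : ∀ Φ : Om K E ι →ₗ[K] Om K E ι,
      (∀ Q, ∀ a ∈ Sp K Q, Φ a ∈ Sp K Q) → ∀ z ∈ Y, Φ z ∈ Y := by
    intro Φ hΦ z hz
    refine ⟨?_, FF_stable (fun S' c0 _ k a ha => hΦ _ a ha) hz.2⟩
    have h1 := cp_Sp (G := gS S σ v (c + Pi.single y 1)) (w := ws S v (c + Pi.single y 1))
      (fun l hl g hg => hgens_Hom h _ g (hAL (hl.1 g hg))) (mass S v c) (hYL hz)
    rw [cp_self hz.1] at h1
    exact Sp_le_Hom (fun l hl => ⟨fun g hg => hgens_Hom h _ g (hAL (hl.1.1 g hg)), hl.2⟩)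
      (hΦ _ z h1)
  have hparY : ∀ z ∈ Y, par z ∈ Y := hSpY par.toLinearMap (fun _ _ ha => Sp_par ha)
  have hcpY : ∀ k, ∀ z ∈ Y, cp (tau K E ι p) k z ∈ Y := fun k =>
    hSpY _ (fun _ _ ha => cp_tau_Sp p k ha)
  have hcpW : ∀ k, ∀ z ∈ W, cp (tau K E ι p) k z ∈ W := fun k z hz =>
    KK_stable (fun _ _ _ _ ha => cp_tau_Sp p k ha) hz
  have hDW : ∀ z ∈ W, DD p u z ∈ W := fun z hz =>
    KK_stable (fun _ _ _ _ ha => DD_Fil_self p
      (fun i hi => Submodule.mem_map_of_mem (hv i hi.1))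
      (fun i _ => by have := hc i; simp only [cOut]; split_ifs <;> omega) ha) hz
  have hhR : ∀ b ∈ W, hh ι σ b = 0 := fun b hb =>
    Fil_der_zero (hh_isOdd σ).der (fun g hg => by
      cases g with
      | x e => simp
      | d e => simp [hσ0 e hg]
      | k i => simp) (hWR hb)
  have hER : ∀ b ∈ W, EE p u σ b = 0 := fun b hb => by
    rw [EE_apply, hhR b hb, hhR _ (hDW b hb)]; simp
  have hEn : ∀ n z, ∀ b ∈ W, (EE p u σ ^ n) (z * b) = (EE p u σ ^ n) z * b := by
    intro n z b hb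
    induction n with
    | zero => simp
    | succ n ih =>
      rw [pow_succ', Module.End.mul_apply, Module.End.mul_apply, ih, EE_isDer, hER b hb]; simp
  have hcpU : ∀ k, ∀ a ∈ U, cp (tau K E ι p) k a ∈ U := by
    rintro k _ ⟨t, ht, rfl⟩
    refine TS_map ((cp (tau K E ι p) k).comp mu) (fun z hz b hb => ?_) ht
    rw [LinearMap.comp_apply, mu_tmul, cp_mul]
    exact Submodule.sum_mem _ fun x _ =>
      ⟨_, tmul_mem_TS (hcpY _ z hz) (hcpW _ b hb), mu_tmul _ _⟩
  obtain ⟨t, ht, rfl⟩ := ha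
  let Y0 := Y ⊓ LinearMap.ker (EE p u σ)
  let t1 := TensorProduct.map (PP p u σ) LinearMap.id t
  have ht1 : t1 ∈ TS Y0 W := TS_map _ (fun z hz b hb => tmul_mem_TS (U := Y0)
    ⟨Submodule.sub_mem _ hz (pow_apply_mem _ hEY _ hz), EE_PP p hK u σ (w := w3 1 1 0)
      (fun l hl g hg => EE_left p h u _ g (hl.1 g hg)) (hYL hz)⟩ hb) ht
  have hmu1 : mu t1 = PP p u σ (mu t) :=
    TS_ext (mu.comp (TensorProduct.map (PP p u σ) LinearMap.id)) ((PP p u σ).comp mu)
      (fun z _ b hb => by simp [PP_apply, hEn _ z b hb, sub_mul]) ht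
  have hs1 : hh ι σ ((EE p u σ ^ (p - 2)) (mu t)) ∈ U :=
    TS_map ((hh ι σ).comp ((EE p u σ ^ (p - 2)).comp mu)) (N := U) (fun z hz b hb =>
      ⟨_, tmul_mem_TS (hhY _ (pow_apply_mem _ hEY (p - 2) hz)) hb, by
        simp [hEn _ z b hb, (hh_isOdd σ).der _ b, hhR b hb]⟩) ht
  have he := euler_exact p u σ hD
  obtain ⟨b1, hb1, hb1', -⟩ := exists_cp_DD p u U hcpU t0 hs1
  let Φ : Om K E ι ⊗[K] Om K E ι →ₗ[K] Om K E ι ⊗[K] Om K E ι :=
    ∑ x ∈ Finset.HasAntidiagonal.antidiagonal t0,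
      TensorProduct.map (cp (tau K E ι p) x.1) (cp (tau K E ι p) x.2)
  have hΦ : ∀ s, mu (Φ s) = cp (tau K E ι p) t0 (mu s) := by
    intro s
    induction s with
    | zero => simp
    | tmul a b => simp [Φ, LinearMap.sum_apply, map_sum, cp_mul]
    | add a b ha hb => simp [ha, hb]
  have hEcp : ∀ k z, EE p u σ (cp (tau K E ι p) k z) = cp (tau K E ι p) k (EE p u σ z) :=
    fun k z => (cp_lin (w := wT p) (EE p u σ) 0 (fun l _ => ⟨pr_tau p l,
      der_pr_Hom (EE_isDer p u σ) 0 l fun g _ => ⟨gen_tau p g, gen_tau p g, by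
        cases g with
        | x e => rw [gen_x, EE_xx]; exact xx_tau p _
        | d e => rw [gen_d, EE_dd]; exact dd_tau p _
        | k i => simp⟩⟩) k (mem_Sp_true z)).symm
  have ht2 : Φ t1 ∈ TG (fun j => Y0 ⊓ Hom (tau K E ι p) j) (fun j => W ⊓ Hom (tau K E ι p) j)
      t0 0 := by
    refine TS_map Φ (fun z hz b hb => ?_) ht1
    simp only [Φ, LinearMap.sum_apply, TensorProduct.map_tmul]
    refine Submodule.sum_mem _ fun x hx => tmul_mem_TG (Nat.zero_le _)
      (Finset.HasAntidiagonal.mem_antidiagonal.1 hx) ⟨⟨hcpY _ z hz.1, ?_⟩, cp_tau_Hom _ _ _⟩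
      ⟨hcpW _ b hb, cp_tau_Hom _ _ _⟩
    have := hz.2
    simp only [SetLike.mem_coe, LinearMap.mem_ker] at this ⊢
    rw [hEcp, this, map_zero]
  have hD1 : DD p u (mu t1) = 0 := by
    have := congrArg (DD p u) he
    rw [DD_DD, map_sub, hD, zero_sub, neg_eq_zero] at this
    rw [hmu1, this]
  have hD2 : tdiff (DD p u) par.toLinearMap (Φ t1) = 0 := by
    refine eq_zero_of_mu σ _ hL hR (w := 0) (w' := 0) (k := 0) (k' := 0) ?_ ?_
    · refine TG_map _ (fun i k _ _ z hz b hb => ?_) ht2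
      rw [tdiff_tmul]
      exact Submodule.add_mem _ (tmul_mem_TS (hYL (hDY z hz.1.1)) (hWR hb.1))
        (tmul_mem_TS (hYL (hparY z hz.1.1)) (hWR (hDW b hb.1)))
    · rw [mu_tdiff (DD_isOdd p u), hΦ, ← cp_tau_DD, hD1, map_zero]
  have hn0 : p ≤ p * (Module.finrank K S + n0) := Nat.le_mul_of_pos_right _ (by omega)
  obtain ⟨s, hs, hs'⟩ := tensor_step (DD p u) par.toLinearMap (DD_DD p u) (DD_isOdd p u).anti
    par_par (fun j => Y0 ⊓ Hom (tau K E ι p) j) (fun j => W ⊓ Hom (tau K E ι p) j)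
    Y W (fun i z hz => hz.1.1) (fun i z hz => hz.1) (cp (tau K E ι p))
    (fun i j z hz => cp_of_Hom hz.2 j) p hp0
    (fun i z hz => ⟨⟨hDY z hz.1.1, by
      have := hz.1.2
      simp only [SetLike.mem_coe, LinearMap.mem_ker] at this ⊢
      rw [EE_DD, this, map_zero]⟩, DD_tau p u hz.2⟩)
    (fun i z hz => ⟨⟨hparY z hz.1.1, by
      have := hz.1.2
      simp only [SetLike.mem_coe, LinearMap.mem_ker, AlgHom.toLinearMap_apply] at this ⊢
      rw [EE_apply, (hh_isOdd σ).anti, (DD_isOdd p u).anti, map_neg, map_neg, (hh_isOdd σ).anti,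
        (DD_isOdd p u).anti, neg_neg, neg_neg, ← map_add, ← EE_apply, this, map_zero]⟩,
      par_tau p hz.2⟩)
    (p * (Module.finrank K S + n0) - p)
    (fun i hi z hz => YY_bound p hK hp h hc hm u hz.1.1 hz.1.2 (by omega) hz.2) t0
    (fun k hk w hw hDw => by
      obtain ⟨b, hb, hb'⟩ := habs k (by omega) w hw.1 hw.2 hDw
      obtain ⟨b', hb1, hb2, hb3⟩ := exists_cp_DD p u W hcpW k hb
      rw [hb', cp_self hw.2] at hb2
      rcases hb3 with h0 | ⟨k0, hk0, h0⟩
      · exact Or.inl (by rw [hb2, h0, map_zero])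
      · exact Or.inr ⟨k0, hk0, b', ⟨hb1, h0⟩, hb2.symm⟩) ht2 hD2
  refine ⟨mu s + b1, Submodule.add_mem _ ⟨s, hs, rfl⟩ hb1, ?_⟩
  rw [map_add, ← mu_tdiff (DD_isOdd p u), hs', hΦ, ← hb1', ← he, hmu1, ← map_add, add_sub_cancel,
    cp_self hat]

end

end Pool.Agent.AJT

end

section

/-! The vanishing theorem. -/

set_option autoImplicit false

namespace Pool.Agent.AJT

variable {K E ι : Type} [Field K] [AddCommGroup E] [Module K E]
  [Fintype ι] [DecidableEq ι] [FiniteDimensional K E]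
  (p : ℕ) [Fact p.Prime] [CharP K p] [NeZero (2 : K)]

omit [FiniteDimensional K E] [Fact p.Prime] [CharP K p] [NeZero (2 : K)] in
theorem DD_FF (hp : 4 ≤ p) {T : Submodule K E} {X : Set ι} {v : ι → E} (hv : ∀ i ∈ X, v i ∈ T)
    {c : ι → ℕ} (hc : ∀ i, c i ≤ 2) {y : ι} {C : Set (Submodule K E)} {a : Om K E ι}
    (ha : a ∈ FF T X v c y C) : DD p v a ∈ FF T X v c y C := by
  refine FF_stable (fun S c0 hc0 k a ha => DD_Fil_self p hv (fun i _ => ?_) ha) ha
  have := hc i
  rcases hc0 with rfl | rfl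
  · omega
  · by_cases h : i = y
    · subst h; simp; omega
    · simp [h]; omega

open Classical in
theorem step (hK : ∀ r : K, r ^ p = r) (hp : 4 ≤ p) {T S : Submodule K E} {σ : E →ₗ[K] E}
    {X : Set ι} {v : ι → E} (h : Spl T S σ)
    (hv : ∀ i ∈ X, v i ∈ T) {c : ι → ℕ} (hc : ∀ i, c i ≤ 2) (hcT : ∀ i, c i ≠ 0 → v i ∈ T)
    {y : ι} (hy : v y ∈ S) {n0 : ℕ}
    (hm : mass S v c + (∑ i, if i ∈ X ∧ v i ∈ S ∧ i ≠ y then 2 - c i else 0) + 1 ≤ 2 * n0)
    {N' t0 : ℕ} (ht0 : p * N' + p * (Module.finrank K S + n0) < t0 + p)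
    (habs : ∀ t, p * N' < t → ∀ a ∈ WW T S σ X v c, a ∈ Hom (tau K E ι p) t →
      DD p (fun i => (LinearMap.id - σ : E →ₗ[K] E) (v i)) a = 0 →
      ∃ b ∈ WW T S σ X v c, DD p (fun i => (LinearMap.id - σ : E →ₗ[K] E) (v i)) b = a)
    {C : Set (Submodule K E)} (hC : ∀ S' < S, v y ∈ S' → S' ∈ C)
    (hC' : ∀ S' ∈ C, S' ≤ T ∧ v y ∈ S' ∧ ¬ S ≤ S')
    {a : Om K E ι} (ha : a ∈ FF T X v c y C) (hat : a ∈ Hom (tau K E ι p) t0)
    (hD : DD p v a ∈ KK T X v (c + Pi.single y 1)) :
    ∃ b ∈ FF T X v c y C, a - DD p v b ∈ FF T X v c y (insert S C) := by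
  set c1 := c + Pi.single y 1 with hc1
  have hc1p : ∀ i, c1 i < p := fun i => by
    have := hc i
    by_cases h : i = y
    · subst h; simp [hc1]; omega
    · simp [hc1, h]; omega
  have hm1 : mass S v c1 = mass S v c + 1 := by rw [hc1, mass_add_single, if_pos hy]
  have hF : ∀ b ∈ FF T X v c y C, b ∈ Fil K (gens T X) (ws S v c1) (mass S v c) := fun b hb =>
    Fil_mono subset_rfl (fun g _ => by
      cases g with
      | x e => exact le_rfl
      | d e => exact le_rfl
      | k i => simp only [ws_k, hc1, Pi.add_apply]; split_ifs <;> omega) le_rfl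
      (mem_KK.1 (mem_FF.1 hb).1 S h.le)
  have hre : ∀ k, Fil K (gens T X) (ws S v c1) k ≤ Fil K (hgens T S σ X) (ws S v c1) k :=
    Fil_le_hgens h (fun e _ _ => h.mem e) c1
  have hLt : cp (gS S σ v c1) (mass S v c) a ∈ Hom (tau K E ι p) t0 := by
    rw [← cp_self hat, ← cp_lin (G := tau K E ι p) (w := wT p) (cp (gS S σ v c1) (mass S v c)) 0
      (fun l hl => ⟨pr_tau p l, ?_⟩) t0 (hre _ (hF a ha))]
    · exact cp_tau_Hom _ _ _
    · rw [cp_of_Hom (pr_Hom l fun g hg => hgens_Hom h c1 g (hl.1 g hg))]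
      split_ifs
      exacts [pr_tau p l, Submodule.zero_mem _]
  have hLD : cp (gS S σ v c1) (mass S v c) (DD p v a) = 0 :=
    cp_Fil_succ (hgens_Hom h c1) (hre _ (hm1 ▸ mem_KK.1 hD S h.le))
  rw [cp_DD p h hc1p (hF a ha)] at hLD
  obtain ⟨_, ⟨s, hs, rfl⟩, hs'⟩ := graded_exact p hK hp h hv hc hm ht0 habs
    ⟨_, nu_mem_TS h hcT hC ha, mu_nu _ _ _⟩ hLt hLD
  obtain ⟨b, hb, hb'⟩ := mu_mem_map h hcT hy hC' hs
  have h1 : a - DD p v b ∈ FF T X v c y C := Submodule.sub_mem _ ha (DD_FF p hp hv hc hb)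
  refine ⟨b, hb, mem_FF.2 ⟨(mem_FF.1 h1).1, fun S' hS' => ?_⟩⟩
  rcases hS' with rfl | hS'
  · have h2 := sub_cp_mem_Fil (hgens_Hom h c1) (hre _ (hF _ h1))
    rw [map_sub, cp_DD p h hc1p (hF b hb), hb', hs', sub_self, sub_zero] at h2
    rw [hm1]
    exact Fil_mono (hgens_subset h) (fun _ _ => le_rfl) le_rfl h2
  · exact (mem_FF.1 h1).2 S' hS'

/-- Absolute vanishing. -/
def AbsV (T : Submodule K E) (X P : Finset ι) (v : ι → E) (N : ℕ) : Prop :=
  ∀ c : ι → ℕ, (∀ i, c i ≤ 2) → (∀ i, c i ≠ 0 → i ∈ X ∨ i ∈ P) → ∀ t, p * N < t →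
    ∀ a ∈ KK T (X : Set ι) v c, a ∈ Hom (tau K E ι p) t → DD p v a = 0 →
      ∃ b ∈ KK T (X : Set ι) v c, DD p v b = a

/-- Relative vanishing. -/
def RelV (T : Submodule K E) (X P : Finset ι) (v : ι → E) (N : ℕ) : Prop :=
  ∀ (c : ι → ℕ) (y : ι), (∀ i, c i ≤ 2) → (∀ i, c i ≠ 0 → i ∈ X ∨ i ∈ P) → (y ∈ X ∨ y ∈ P) →
    c y ≤ 1 → ∀ t, p * N < t + p →
    ∀ a ∈ KK T (X : Set ι) v c, a ∈ Hom (tau K E ι p) t →
      DD p v a ∈ KK T (X : Set ι) v (c + Pi.single y 1) →
      ∃ b ∈ KK T (X : Set ι) v c, a - DD p v b ∈ KK T (X : Set ι) v (c + Pi.single y 1)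

open Classical in
/-- Admissible configurations. -/
structure Adm (T : Submodule K E) (X P : Finset ι) (v : ι → E) (N : ℕ) : Prop where
  span : Submodule.span K (v '' X) = T
  mem : ∀ j ∈ P, v j ∈ T
  bound : ∀ S ≤ T, 2 * Module.finrank K T + X.card + (P.filter fun j => v j ∈ S).card
    ≤ N + Module.finrank K S

omit [Fintype ι] [DecidableEq ι] [FiniteDimensional K E] [NeZero (2 : K)] in
theorem Adm.memX {T : Submodule K E} {X P : Finset ι} {v : ι → E} {N : ℕ} (h : Adm T X P v N) :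
    ∀ j ∈ X, v j ∈ T := fun j hj => h.span ▸ Submodule.subset_span ⟨j, hj, rfl⟩

omit [Fintype ι] [FiniteDimensional K E] [NeZero (2 : K)] in
theorem single_props {X P : Finset ι} {c : ι → ℕ} {y : ι}
    (h1 : ∀ i, (c + Pi.single y 1 : ι → ℕ) i ≤ 2)
    (h2 : ∀ i, (c + Pi.single y 1 : ι → ℕ) i ≠ 0 → i ∈ X ∨ i ∈ P) :
    (∀ i, c i ≤ 2) ∧ (∀ i, c i ≠ 0 → i ∈ X ∨ i ∈ P) ∧ (y ∈ X ∨ y ∈ P) ∧ c y ≤ 1 := by
  refine ⟨fun i => ?_, fun i hi => h2 i ?_, h2 y (by simp), ?_⟩
  · have := h1 i; simp only [Pi.add_apply] at this; omega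
  · simp only [Pi.add_apply]; omega
  · have := h1 y; simp only [Pi.add_apply, Pi.single_eq_same] at this; omega

omit [FiniteDimensional K E] in
theorem KK_succ_le {T : Submodule K E} {X : Set ι} {v : ι → E} {c : ι → ℕ} {y : ι} :
    KK T X v (c + Pi.single y 1) ≤ KK T X v c := by
  classical
  intro a ha
  rw [mem_KK] at *
  intro S hS
  refine Sp_le (fun l hl => ?_) (ha S hS)
  by_cases hne : pr K l = 0
  · rw [hne]; exact Submodule.zero_mem _
  refine pr_mem_Sp ⟨hl.1, ?_⟩
  have h1 := hl.2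
  rw [mass_add_single] at h1
  have e3 : wt (ws S v (c + Pi.single y 1)) l
      = wt (ws S v c) l + wt (w3 0 0 (Pi.single y (if v y ∈ S then 1 else 0))) l := by
    rw [← wt_add]
    refine wt_congr fun g _ => ?_
    cases g with
    | x e => simp [ws_x, w3]
    | d e => simp [ws_d, w3]
    | k i =>
      by_cases h : i = y
      · subst h; simp only [ws_k, w3, Pi.add_apply, Pi.single_eq_same]; split_ifs <;> rfl
      · simp [ws_k, w3, h]
  have e4 := wt_le_sum (K := K) (fun _ : Unit => (.k y : Gen E ι)) (fun _ => trivial)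
    (fun _ => if v y ∈ S then 1 else 0)
    (w := w3 0 0 (Pi.single y (if v y ∈ S then 1 else 0))) (l := l) hne (fun g _ => by
      cases g with
      | x e => exact Or.inl rfl
      | d e => exact Or.inl rfl
      | k i =>
        by_cases h : i = y
        · subst h; exact Or.inr ⟨(), rfl, by simp [w3]⟩
        · exact Or.inl (by simp [w3, h]))
  simp only [Finset.univ_unique, Finset.sum_singleton] at e4
  omega

theorem abs_of_rel (hK : ∀ r : K, r ^ p = r) {T : Submodule K E} {X P : Finset ι} {v : ι → E}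
    {N : ℕ} (h : Adm T X P v N) (hrel : RelV p T X P v N) : AbsV p T X P v N := by
  intro c
  induction hm : ∑ i, c i generalizing c with
  | zero =>
    have hc0 : c = 0 := by
      ext i; exact (Finset.sum_eq_zero_iff.1 hm) i (Finset.mem_univ i)
    subst hc0
    intro _ _ t ht a ha hat hD
    have h1 := h.bound ⊥ bot_le
    rw [finrank_bot] at h1
    obtain ⟨b, hb, hb'⟩ := base_case p hK _ X rfl T v h.span t
      (lt_of_le_of_lt (Nat.mul_le_mul_left _ (by omega)) ht) a (KK_le_zero ha) hat hD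
    exact ⟨b, mem_KK.2 fun S _ => by rw [mass_zero]; exact Fil_le_zero subset_rfl hb, hb'⟩
  | succ m ih =>
    obtain ⟨y, c', rfl, hc'⟩ := exists_single hm
    intro h1 h2 t ht a ha hat hD
    obtain ⟨h3, h4, h5, h6⟩ := single_props h1 h2
    obtain ⟨b, hb, hb'⟩ := ih c' hc' h3 h4 t ht a (KK_succ_le ha) hat hD
    obtain ⟨b1, hb1, hb2, hb3⟩ := exists_cp_DD p v _
      (fun k z hz => KK_stable (fun _ _ _ _ ha => cp_tau_Sp p k ha) hz) t hb
    rw [hb', cp_self hat] at hb2
    rcases hb3 with h0 | ⟨k, hk, h0⟩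
    · exact ⟨0, Submodule.zero_mem _, by rw [hb2, h0]⟩
    · obtain ⟨e, _, he⟩ := hrel c' y h3 h4 h5 h6 k (by omega) b1 hb1 h0 (hb2 ▸ ha)
      exact ⟨_, he, by rw [map_sub, DD_DD, sub_zero, hb2]⟩

omit [Fintype ι] [NeZero (2 : K)] in
open Classical in
theorem adm_quot {T S : Submodule K E} {σ : E →ₗ[K] E} (h : Spl T S σ) {X P : Finset ι}
    {v : ι → E} {N : ℕ} (hA : Adm T X P v N) :
    ∃ N', N' + (Module.finrank K S + ((X.filter fun j => v j ∈ S).card
        + (P.filter fun j => v j ∈ S).card)) = N ∧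
      Adm (T.map (LinearMap.id - σ)) (X.filter fun j => v j ∉ S) (P.filter fun j => v j ∉ S)
        (fun i => (LinearMap.id - σ : E →ₗ[K] E) (v i)) N' := by
  set π : E →ₗ[K] E := LinearMap.id - σ with hπ
  have hπ0 : ∀ e ∈ S, π e = 0 := fun e he => by simp [hπ, h.fix e he]
  have hT'T : T.map π ≤ T := by
    rintro _ ⟨e, he, rfl⟩
    exact T.sub_mem he (h.le (h.mem e))
  have hdis : S ⊓ T.map π = ⊥ := by
    rw [eq_bot_iff]
    rintro _ ⟨h1, e, _, rfl⟩
    have h2 := h.fix _ h1
    simp only [hπ, LinearMap.sub_apply, LinearMap.id_apply, map_sub, h.fix _ (h.mem e),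
      sub_self] at h2 ⊢
    simp [← h2]
  have hdim : Module.finrank K S + Module.finrank K (T.map π) ≤ Module.finrank K T := by
    rw [← Submodule.finrank_sup_add_finrank_inf_eq, hdis, finrank_bot, add_zero]
    exact Submodule.finrank_mono (sup_le h.le hT'T)
  have hX := Finset.card_filter_add_card_filter_not (s := X) (fun j => v j ∈ S)
  have key : ∀ S'' ≤ T.map π, 2 * Module.finrank K (T.map π) + (X.filter fun j => v j ∉ S).card
      + ((P.filter fun j => v j ∉ S).filter fun j => π (v j) ∈ S'').card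
      + (Module.finrank K S + ((X.filter fun j => v j ∈ S).card
        + (P.filter fun j => v j ∈ S).card)) ≤ N + Module.finrank K S'' := by
    intro S'' hS''
    have h1 := hA.bound (S ⊔ S'') (sup_le h.le (hS''.trans hT'T))
    have h2 := Submodule.finrank_add_le_finrank_add_finrank S S''
    have h3 : (P.filter fun j => v j ∈ S).card
        + ((P.filter fun j => v j ∉ S).filter fun j => π (v j) ∈ S'').card
        ≤ (P.filter fun j => v j ∈ S ⊔ S'').card := by
      rw [← Finset.card_union_of_disjoint]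
      · refine Finset.card_le_card fun j hj => ?_
        simp only [Finset.mem_union, Finset.mem_filter] at hj ⊢
        rcases hj with hj | hj
        · exact ⟨hj.1, Submodule.mem_sup_left hj.2⟩
        · refine ⟨hj.1.1, Submodule.mem_sup.2 ⟨_, h.mem (v j), _, hj.2, by simp [hπ]⟩⟩
      · rw [Finset.disjoint_left]
        intro j h1 h2
        simp only [Finset.mem_filter] at h1 h2
        exact h2.1.2 h1.2
    omega
  have h0 := key ⊥ bot_le
  rw [finrank_bot] at h0
  refine ⟨N - (Module.finrank K S + ((X.filter fun j => v j ∈ S).card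
    + (P.filter fun j => v j ∈ S).card)), by omega, ?_, fun j hj => ?_, fun S'' hS'' => ?_⟩
  · apply le_antisymm
    · rw [Submodule.span_le]
      rintro _ ⟨j, hj, rfl⟩
      exact Submodule.mem_map_of_mem (hA.memX j (Finset.mem_filter.1 hj).1)
    · rw [← hA.span, Submodule.map_span, Submodule.span_le]
      rintro _ ⟨_, ⟨j, hj, rfl⟩, rfl⟩
      by_cases hjS : v j ∈ S
      · simp [hπ0 _ hjS]
      · exact Submodule.subset_span ⟨j, by simpa [hjS] using hj, rfl⟩
  · exact Submodule.mem_map_of_mem (hA.mem j (Finset.mem_filter.1 hj).1)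
  · have := key S'' hS''
    omega

theorem rel_of_abs [Finite K] (hK : ∀ r : K, r ^ p = r) (hp : 4 ≤ p) {T : Submodule K E}
    {X P : Finset ι} {v : ι → E} {N : ℕ} (hA : Adm T X P v N)
    (ih : ∀ (T' : Submodule K E) (X' P' : Finset ι) (v' : ι → E) (N' : ℕ),
      X'.card + P'.card < X.card + P.card → Adm T' X' P' v' N' → AbsV p T' X' P' v' N') :
    RelV p T X P v N := by
  classical
  intro c y hc hcs hy hcy t ht a ha hat hD
  have hcT : ∀ i, c i ≠ 0 → v i ∈ T := fun i hi => (hcs i hi).elim (hA.memX i) (hA.mem i)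
  have : Finite E := Module.finite_of_finite K
  have : Fintype (Submodule K E) := Fintype.ofFinite _
  have key : ∀ C : Finset (Submodule K E), (∀ S ∈ C, S ≤ T ∧ v y ∈ S) →
      (∀ S ∈ C, ∀ S' < S, v y ∈ S' → S' ∈ C) →
      ∃ b ∈ KK T (X : Set ι) v c, a - DD p v b ∈ FF T (X : Set ι) v c y (C : Set _) := by
    intro C
    induction C using Finset.induction_on_max_value (fun S : Submodule K E => Module.finrank K S)
      with
    | empty => intro _ _; exact ⟨0, Submodule.zero_mem _, mem_FF.2 ⟨by simpa using ha, by simp⟩⟩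
    | insert S C hSC hmax ihC =>
      intro h1 h2
      obtain ⟨hST, hyS⟩ := h1 S (Finset.mem_insert_self _ _)
      obtain ⟨b0, hb0, hb0'⟩ := ihC (fun S' hS' => h1 S' (Finset.mem_insert_of_mem hS'))
        (fun S' hS' S'' hlt hy' => by
          refine (Finset.mem_insert.1 (h2 S' (Finset.mem_insert_of_mem hS') S'' hlt
            hy')).resolve_left ?_
          rintro rfl
          exact absurd (hmax S' hS') (not_le.2 (Submodule.finrank_lt_finrank_of_lt hlt)))
      obtain ⟨b1, hb1, hb1', -⟩ := exists_cp_DD p v _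
        (fun k z hz => KK_stable (fun _ _ _ _ ha => cp_tau_Sp p k ha) hz) t hb0
      have ha1 : a - DD p v b1 = cp (tau K E ι p) t (a - DD p v b0) := by
        rw [map_sub, hb1', cp_self hat]
      obtain ⟨σ, hσ1, hσ2⟩ := exists_proj S
      have hspl : Spl T S σ := ⟨hST, hσ1, hσ2⟩
      obtain ⟨N', hN', hA'⟩ := adm_quot hspl hA
      have hlt : (X.filter fun j => v j ∉ S).card + (P.filter fun j => v j ∉ S).card
          < X.card + P.card := by
        have h3 := Finset.card_filter_le X (fun j => v j ∉ S)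
        have h4 := Finset.card_filter_le P (fun j => v j ∉ S)
        rcases hy with hy | hy
        · have := Finset.card_lt_card (Finset.filter_ssubset (p := fun j => v j ∉ S).2
            ⟨y, hy, by simpa using hyS⟩)
          omega
        · have := Finset.card_lt_card (Finset.filter_ssubset (p := fun j => v j ∉ S).2
            ⟨y, hy, by simpa using hyS⟩)
          omega
      have habs := ih _ _ _ _ _ hlt hA' (cOut S v c)
        (fun i => by have := hc i; simp only [cOut]; split_ifs <;> omega)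
        (fun i hi => by
          simp only [cOut] at hi
          split_ifs at hi with h3
          · exact (hi rfl).elim
          · simpa [h3] using hcs i hi)
      rw [Finset.coe_filter] at habs
      have hm : mass S v c + (∑ i, if i ∈ (X : Set ι) ∧ v i ∈ S ∧ i ≠ y then 2 - c i else 0) + 1
          ≤ 2 * ((X.filter fun j => v j ∈ S).card + (P.filter fun j => v j ∈ S).card) := by
        have e1 : ∀ Z : Finset ι, (Z.filter fun j => v j ∈ S).card
            = ∑ i, if i ∈ Z ∧ v i ∈ S then 1 else 0 := by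
          intro Z
          rw [← Finset.card_filter]
          congr 1
          ext i; simp
        have e2 : 1 = ∑ i, if i = y then 1 else 0 := by simp
        rw [e1, e1, mass, ← Finset.sum_add_distrib, ← Finset.sum_add_distrib, Finset.mul_sum]
        conv_lhs => rw [e2]
        rw [← Finset.sum_add_distrib]
        refine Finset.sum_le_sum fun i _ => ?_
        have h3 := hc i
        have h4 := hcs i
        by_cases hiy : i = y
        · subst hiy
          rcases hy with hy | hy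
          · simp [hy, hyS]; omega
          · simp [hy, hyS]; omega
        · by_cases h5 : v i ∈ S
          · by_cases h6 : i ∈ X
            · simp [hiy, h5, h6]; omega
            · by_cases h7 : i ∈ P
              · simp [hiy, h5, h6, h7]; omega
              · simp only [h6, h7, or_self, imp_false, not_not] at h4
                simp [hiy, h4, h6]
          · simp [hiy, h5]
      obtain ⟨b2, hb2, hb2'⟩ := step p hK hp hspl (fun i hi => hA.memX i hi) hc hcT hyS
        (n0 := (X.filter fun j => v j ∈ S).card + (P.filter fun j => v j ∈ S).card) (N' := N')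
        (t0 := t) (C := (C : Set _)) (a := a - DD p v b1) (by convert hm) (by rw [← mul_add, hN']; exact ht)
        habs
        (fun S' hlt hy' => (Finset.mem_insert.1 (h2 S (Finset.mem_insert_self _ _) S' hlt
          hy')).resolve_left hlt.ne)
        (fun S' hS' => ⟨(h1 S' (Finset.mem_insert_of_mem hS')).1,
          (h1 S' (Finset.mem_insert_of_mem hS')).2, fun hle => hSC (by
            rw [Submodule.eq_of_le_of_finrank_le hle (hmax S' hS')]; exact hS')⟩)
        (ha1 ▸ FF_stable (fun _ _ _ _ _ ha => cp_tau_Sp p t ha) hb0')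
        (ha1 ▸ cp_tau_Hom _ _ _) (by rw [map_sub, DD_DD, sub_zero]; exact hD)
      refine ⟨b1 + b2, Submodule.add_mem _ hb1 (mem_FF.1 hb2).1, ?_⟩
      rw [map_add, ← sub_sub, Finset.coe_insert]
      exact hb2'
  obtain ⟨b, hb, hb'⟩ := key (Finset.univ.filter fun S => S ≤ T ∧ v y ∈ S)
    (fun S hS => (Finset.mem_filter.1 hS).2)
    (fun S hS S' hlt hy' => Finset.mem_filter.2
      ⟨Finset.mem_univ _, hlt.le.trans (Finset.mem_filter.1 hS).2.1, hy'⟩)
  refine ⟨b, hb, mem_KK.2 fun S hS => ?_⟩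
  by_cases hyS : v y ∈ S
  · exact (mem_FF.1 hb').2 S (by simp [hS, hyS])
  · rw [mass_add_single, if_neg hyS, add_zero]
    refine Fil_mono subset_rfl (fun g _ => ?_) le_rfl (mem_KK.1 (mem_FF.1 hb').1 S hS)
    cases g with
    | x e => exact le_rfl
    | d e => exact le_rfl
    | k i => simp only [ws_k, Pi.add_apply]; split_ifs <;> omega

theorem vanishing [Finite K] (hK : ∀ r : K, r ^ p = r) (hp : 4 ≤ p) (n : ℕ) :
    ∀ (T : Submodule K E) (X P : Finset ι) (v : ι → E) (N : ℕ), X.card + P.card = n →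
      Adm T X P v N → RelV p T X P v N := by
  induction n using Nat.strong_induction_on with
  | _ n ih =>
  intro T X P v N hn hA
  exact rel_of_abs p hK hp hA fun T' X' P' v' N' hlt hA' =>
    abs_of_rel p hK hA' (ih _ (hn ▸ hlt) T' X' P' v' N' rfl hA')

theorem lift_class [Finite K] (hK : ∀ r : K, r ^ p = r) (hp : 4 ≤ p) {T : Submodule K E}
    {X P : Finset ι} {v : ι → E} {N : ℕ} (hA : Adm T X P v N) {t : ℕ} (ht : p * N < t + p)
    {a : Om K E ι} (ha : a ∈ Fil K (gens T (X : Set ι)) 0 0) (hat : a ∈ Hom (tau K E ι p) t)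
    (hD : DD p v a = 0) (c : ι → ℕ) : (∀ i, c i ≤ 2) → (∀ i, c i ≠ 0 → i ∈ X ∨ i ∈ P) →
      ∃ b, a - DD p v b ∈ KK T (X : Set ι) v c := by
  induction hm : ∑ i, c i generalizing c with
  | zero =>
    have hc0 : c = 0 := by
      ext i; exact (Finset.sum_eq_zero_iff.1 hm) i (Finset.mem_univ i)
    subst hc0
    intro _ _
    exact ⟨0, mem_KK.2 fun S _ => by
      rw [mass_zero, map_zero, sub_zero]; exact Fil_le_zero subset_rfl ha⟩
  | succ m ih =>
    obtain ⟨y, c', rfl, hc'⟩ := exists_single hm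
    intro h1 h2
    obtain ⟨h3, h4, h5, h6⟩ := single_props h1 h2
    obtain ⟨b, hb⟩ := ih c' hc' h3 h4
    obtain ⟨b1, -, hb1', -⟩ := exists_cp_DD p v ⊤ (fun _ _ _ => trivial) t (a := b) trivial
    have ha1 : a - DD p v b1 = cp (tau K E ι p) t (a - DD p v b) := by
      rw [map_sub, hb1', cp_self hat]
    obtain ⟨e, -, he⟩ := vanishing p hK hp _ T X P v N rfl hA c' y h3 h4 h5 h6 t ht
      (a - DD p v b1) (ha1 ▸ KK_stable (fun _ _ _ _ ha => cp_tau_Sp p t ha) hb)
      (ha1 ▸ cp_tau_Hom _ _ _) (by rw [map_sub, DD_DD, hD]; simp)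
    exact ⟨b1 + e, by rw [map_add, ← sub_sub]; exact he⟩

end Pool.Agent.AJT

end

section

/-! The top coefficient functional and the conclusion. -/

set_option autoImplicit false

namespace Pool.Agent.AJT

open MvPolynomial

variable {K ι : Type} [Field K] {n : ℕ}

/-- The linear form with given coefficients. -/
noncomputable def lin : (Fin n → K) →ₗ[K] MvPolynomial (Fin n) K :=
  ∑ j, (LinearMap.proj j : (Fin n → K) →ₗ[K] K).smulRight (X j)

theorem lin_apply (e : Fin n → K) : lin e = ∑ j, e j • (X j : MvPolynomial (Fin n) K) := by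
  simp [lin, LinearMap.sum_apply]

/-- Values of the augmentation on generators. -/
noncomputable def zGen (ι : Type) : Gen (Fin n → K) ι → MvPolynomial (Fin n) K
  | .x e => lin e
  | .d _ => 0
  | .k _ => 0

/-- Killing all odd generators. -/
noncomputable def zz (ι : Type) : Om K (Fin n → K) ι →ₐ[K] MvPolynomial (Fin n) K :=
  lift (zGen ι)
    { xadd := fun a b => by simp [zGen]
      xsmul := fun r a => by simp [zGen]
      dadd := fun a b => by simp [zGen]
      dsmul := fun r a => by simp [zGen]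
      comm := fun e g => mul_comm _ _
      anti := fun g g' hg _ => by
        cases g with
        | x e => exact hg.elim
        | d e => simp [zGen]
        | k i => simp [zGen] }

@[simp] theorem zz_xx (e : Fin n → K) : zz ι (xx (K := K) ι e) = lin e := lift_gen _ _ (.x e)
@[simp] theorem zz_dd (e : Fin n → K) : zz ι (dd (K := K) ι e) = 0 := lift_gen _ _ (.d e)
@[simp] theorem zz_kk (i : ι) : zz ι (kk K (Fin n → K) i) = 0 := lift_gen _ _ (.k i)

theorem zz_par (a : Om K (Fin n → K) ι) : zz ι (par a) = zz ι a :=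
  alg_ext ((zz ι).comp par) (zz ι) (fun g => by cases g <;> simp) a

/-- Contraction with a coordinate. -/
noncomputable def cn (K ι : Type) [Field K] (i : Fin n) :
    Om K (Fin n → K) ι →ₗ[K] Om K (Fin n → K) ι := con ι (LinearMap.proj i)

theorem cn_isOdd (i : Fin n) : IsOdd (cn K ι i) := con_isOdd _
@[simp] theorem cn_xx (i : Fin n) (e : Fin n → K) : cn K ι i (xx (K := K) ι e) = 0 := con_xx _ _
@[simp] theorem cn_dd (i : Fin n) (e : Fin n → K) : cn K ι i (dd (K := K) ι e) = e i • 1 :=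
  con_dd _ _
@[simp] theorem cn_kk (i : Fin n) (j : ι) : cn K ι i (kk K (Fin n → K) j) = 0 := con_kk _ _

/-- Iterated contraction. -/
noncomputable def iot (K ι : Type) [Field K] :
    List (Fin n) → (Om K (Fin n → K) ι →ₗ[K] Om K (Fin n → K) ι)
  | [] => LinearMap.id
  | i :: l => (iot K ι l).comp (cn K ι i)

@[simp] theorem iot_nil (a : Om K (Fin n → K) ι) : iot K ι [] a = a := rfl
@[simp] theorem iot_cons (i : Fin n) (l : List (Fin n)) (a : Om K (Fin n → K) ι) :
    iot K ι (i :: l) a = iot K ι l (cn K ι i a) := rfl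

theorem iot_comm (Φ : Om K (Fin n → K) ι → Om K (Fin n → K) ι)
    (h : ∀ i a, cn K ι i (Φ a) = Φ (cn K ι i a)) (l : List (Fin n)) (a : Om K (Fin n → K) ι) :
    iot K ι l (Φ a) = Φ (iot K ι l a) := by
  induction l generalizing a with
  | nil => rfl
  | cons i l ih => rw [iot_cons, h, ih, iot_cons]

theorem iot_xx_pow (e : Fin n → K) (m : ℕ) (l : List (Fin n)) (a : Om K (Fin n → K) ι) :
    iot K ι l (xx (K := K) ι e ^ m * a) = xx (K := K) ι e ^ m * iot K ι l a :=
  iot_comm (fun a => xx (K := K) ι e ^ m * a) (fun i a => by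
    rw [(cn_isOdd i).der, (cn_isOdd i).xx_pow_zero e (cn_xx i e)]; simp) l a

/-- The top class. -/
noncomputable def om0 (K ι : Type) [Field K] (p : ℕ) (l : List (Fin n)) : Om K (Fin n → K) ι :=
  (l.map fun i => xx (K := K) ι (Pi.single i 1) ^ (p - 1) * dd (K := K) ι (Pi.single i 1)).prod

theorem om0_cons (p : ℕ) (i : Fin n) (l : List (Fin n)) : om0 K ι p (i :: l)
    = xx (K := K) ι (Pi.single i 1) ^ (p - 1) * dd (K := K) ι (Pi.single i 1) * om0 K ι p l := by
  simp [om0]

theorem cn_om0 (p : ℕ) {i : Fin n} {l : List (Fin n)} (h : i ∉ l) :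
    cn K ι i (om0 K ι p l) = 0 := by
  induction l with
  | nil => simpa [om0] using (cn_isOdd (K := K) (ι := ι) i).der.one
  | cons j l ih =>
    have hij : i ≠ j := fun h' => h (by simp [h'])
    rw [om0_cons, (cn_isOdd i).der, ih fun h' => h (by simp [h']), (cn_isOdd i).der,
      (cn_isOdd i).xx_pow_zero _ (cn_xx i _)]
    simp [hij]

theorem lin_single (i : Fin n) : lin (Pi.single i (1 : K)) = X i := by
  rw [lin_apply, Finset.sum_eq_single i] <;> simp +contextual

theorem zz_iot_om0 (p : ℕ) {l : List (Fin n)} (hl : l.Nodup) :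
    zz ι (iot K ι l (om0 K ι p l)) = (l.map fun i => (X i : MvPolynomial (Fin n) K) ^ (p - 1)).prod := by
  induction l with
  | nil => simp [om0]
  | cons i l ih =>
    rw [List.nodup_cons] at hl
    rw [iot_cons, om0_cons, mul_assoc, (cn_isOdd i).der, (cn_isOdd i).xx_pow_zero _ (cn_xx i _),
      (cn_isOdd i).der, cn_om0 p hl.1]
    simp [iot_xx_pow, ih hl.2, lin_single]

section
variable (p : ℕ) [Fact p.Prime] [CharP K p] [NeZero (2 : K)]

omit [CharP K p] in
theorem om0_props (u : ι → Fin n → K) (X0 : Set ι) (l : List (Fin n)) :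
    om0 K ι p l ∈ Fil K (gens (⊤ : Submodule K (Fin n → K)) X0) 0 0 ∧
      om0 K ι p l ∈ Hom (tau K _ ι p) (l.length * (3 * p)) ∧
      DD p u (om0 K ι p l) = 0 := by
  induction l with
  | nil =>
    exact ⟨one_mem_Fil, by simpa [om0] using one_mem_Hom, (DD_isOdd (K := K) p u).der.one⟩
  | cons i l ih =>
    rw [om0_cons]
    refine ⟨Fil_mul (Fil_mul (pow_mem_Fil (gen_mem_Fil (g := .x (Pi.single i 1))
      (x_mem_gens.2 Submodule.mem_top) le_rfl) _) (gen_mem_Fil (g := .d (Pi.single i 1))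
      (d_mem_gens.2 Submodule.mem_top) le_rfl) (Nat.zero_le _)) ih.1 le_rfl, ?_, ?_⟩
    · have := Hom_mul (top_tau p (Pi.single i 1)) ih.2.1
      rwa [List.length_cons, Nat.succ_mul, add_comm]
    · rw [(DD_isOdd p u).der, DD_top, ih.2.2]; simp

/-- The exponent vector of the top monomial. -/
noncomputable def m0 (n q : ℕ) : Fin n →₀ ℕ := Finsupp.equivFunOnFinite.symm fun _ => q

omit [Fact p.Prime] [CharP K p] [NeZero (2 : K)] in
theorem prod_X_pow_m0 (q : ℕ) : ∏ i, (X i : MvPolynomial (Fin n) K) ^ q = monomial (m0 n q) 1 := by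
  rw [monomial_eq, Finsupp.prod_fintype _ _ (by simp)]
  simp [m0]

omit [NeZero (2 : K)] in
theorem coeff_lin_pow_mul (e : Fin n → K) (g : MvPolynomial (Fin n) K) :
    coeff (m0 n (p - 1)) (lin e ^ p * g) = 0 := by
  classical
  have hp := (Fact.out : p.Prime).pos
  rw [lin_apply, sum_pow_char, Finset.sum_mul, coeff_sum]
  refine Finset.sum_eq_zero fun j _ => ?_
  rw [smul_pow, smul_mul_assoc, coeff_smul, X_pow_eq_monomial, coeff_monomial_mul', if_neg,
    smul_zero]
  intro h
  have := h j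
  simp [m0] at this
  omega

omit [NeZero (2 : K)] in
theorem coeff_zz_iot_DD (u : ι → Fin n → K) (l : List (Fin n)) (a : Om K (Fin n → K) ι) :
    coeff (m0 n (p - 1)) (zz ι (iot K ι l (DD p u a))) = 0 := by
  have hp := (Fact.out : p.Prime).pos
  induction l generalizing a with
  | nil =>
    have key : ∀ l : List (Gen (Fin n → K) ι), ∀ g,
        coeff (m0 n (p - 1)) (zz ι (DD p u (pr K l)) * g) = 0 := by
      intro l
      induction l with
      | nil => simp [(DD_isOdd (K := K) p u).der.one]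
      | cons g l ih =>
        intro h
        rw [pr_cons, (DD_isOdd p u).der, map_add, map_mul, map_mul, add_mul, coeff_add,
          mul_comm (zz ι (par _)), mul_assoc, mul_assoc, ih, add_zero]
        cases g with
        | x e => simp
        | d e => simp
        | k i => simp [coeff_lin_pow_mul]
    exact lin_ext ((lcoeff K (m0 n (p - 1))).comp ((zz ι).toLinearMap.comp (DD p u))) 0
      (fun l => by simpa using key l 1) a
  | cons i l ih =>
    let L := (cn K ι i).comp (DD p u) + (DD p u).comp (cn K ι i)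
    have hL : IsDer (AlgHom.id K _) L := (cn_isOdd i).bracket (DD_isOdd p u)
    have hLa : ∀ a, L a = cn K ι i (DD p u a) + DD p u (cn K ι i a) := fun a => rfl
    have hLx : ∀ e, L (xx (K := K) ι e) = e i • 1 := fun e => by simp [hLa]
    have hLd : ∀ e, L (dd (K := K) ι e) = 0 := fun e => by
      simp [hLa, (DD_isOdd (K := K) p u).der.one]
    have hLk : ∀ j, L (kk K _ j) = 0 := fun j => by
      simp [hLa, (cn_isOdd i).xx_pow_zero _ (cn_xx i _)]
    have hLp : ∀ a, L (par a) = par (L a) := fun a => by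
      simp [hLa, (cn_isOdd i).anti, (DD_isOdd p u).anti]
    have h1 : ∀ k a, cn K ι k (L a) = L (cn K ι k a) := fun k a => by
      have := der_zero_all ((cn K ι k).comp L - L.comp (cn K ι k)) par id (fun a b => by
          simp only [LinearMap.sub_apply, LinearMap.comp_apply, hL _ _, (cn_isOdd k).der _ _,
            map_add, AlgHom.id_apply, hLp, id]
          noncomm_ring)
        (by simp [hL.one, (cn_isOdd (K := K) (ι := ι) k).der.one])
        (fun g => by
          cases g <;> simp [hLx, hLd, hLk, hL.one, (cn_isOdd (K := K) (ι := ι) k).der.one]) a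
      simpa [sub_eq_zero] using this
    have h2 : ∀ a, zz ι (L a) = pderiv i (zz ι a) := fun a => by
      have := der_zero_all ((zz ι).toLinearMap.comp L
          - ((pderiv i : Derivation K _ _) : _ →ₗ[K] _).comp (zz ι).toLinearMap) (zz ι) (zz ι)
        (fun a b => by
          simp only [LinearMap.sub_apply, LinearMap.comp_apply, hL _ _, AlgHom.toLinearMap_apply,
            map_add, map_mul, AlgHom.id_apply, Derivation.coeFn_coe, pderiv_mul]
          ring)
        (by simp [hL.one])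
        (fun g => by
          cases g with
          | x e =>
            simp [hLx, lin_apply, pderiv_X, Pi.single_apply]
          | d e => simp [hLd]
          | k j => simp [hLk]) a
      simpa [sub_eq_zero] using this
    have h3 : cn K ι i (DD p u a) = L a - DD p u (cn K ι i a) := by rw [hLa]; abel
    rw [iot_cons, h3, map_sub, map_sub, coeff_sub, ih, sub_zero, iot_comm L h1, h2, coeff_pderiv]
    have : ((m0 n (p - 1) i : ℕ) : K) + 1 = 0 := by
      have h4 : ((p - 1 + 1 : ℕ) : K) = 0 := by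
        rw [Nat.sub_add_cancel hp]; exact CharP.cast_eq_zero K p
      simpa [m0] using h4
    rw [this, mul_zero]

end

theorem top_div [NeZero (2 : K)] [Fintype ι] [DecidableEq ι] {v : ι → Fin n → K}
    (hv : ∀ i, v i ≠ 0) (l : List (Fin n)) (F : Finset ι) :
    ∀ a ∈ KK ⊤ ∅ v (fun j => if j ∈ F then 2 else 0),
      ∃ g, zz ι (iot K ι l a) = (∏ j ∈ F, lin (v j)) * g := by
  induction F using Finset.induction_on with
  | empty => intro a _; exact ⟨_, by rw [Finset.prod_empty, one_mul]⟩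
  | insert y F hy ih =>
    intro a ha
    have : (fun j => if j ∈ insert y F then 2 else 0)
        = (fun j => if j ∈ F then 2 else 0) + Pi.single y 2 := by
      ext j
      by_cases h : j = y
      · subst h; simp [hy]
      · simp [h]
    rw [this] at ha
    obtain ⟨b, hb, rfl⟩ := KK_div (hv y) Submodule.mem_top ha
    obtain ⟨g, hg⟩ := ih b hb
    refine ⟨g, ?_⟩
    have := iot_xx_pow (v y) 1 l b
    rw [pow_one] at this
    rw [this, map_mul, hg, Finset.prod_insert hy, zz_xx, mul_assoc]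

theorem top_div' [NeZero (2 : K)] [Fintype ι] [DecidableEq ι] {v : ι → Fin n → K}
    (hv : ∀ i, v i ≠ 0) (l : List (Fin n)) (X0 : Set ι) {a : Om K (Fin n → K) ι}
    (ha : a ∈ KK ⊤ X0 v (fun _ => 2)) : ∃ g, zz ι (iot K ι l a) = (∏ j, lin (v j)) * g := by
  let z : Om K (Fin n → K) ι →ₐ[K] Om K (Fin n → K) ι :=
    endo LinearMap.id LinearMap.id 0 (fun _ => Submodule.zero_mem _)
  have h1 : ∀ k a, cn K ι k (z a) = z (cn K ι k a) := fun k a => by
    have := der_zero_all ((cn K ι k).comp z.toLinearMap - z.toLinearMap.comp (cn K ι k))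
      (fun a => par (z a)) z (fun a b => by
        simp only [LinearMap.sub_apply, LinearMap.comp_apply, AlgHom.toLinearMap_apply, map_mul,
          (cn_isOdd k).der _ _, map_add, z, endo_par]
        noncomm_ring)
      (by simp [(cn_isOdd (K := K) (ι := ι) k).der.one])
      (fun g => by cases g <;> simp [z]) a
    simpa [sub_eq_zero] using this
  have h2 : ∀ a, zz ι (z a) = zz ι a :=
    alg_ext ((zz ι).comp z) (zz ι) (fun g => by cases g <;> simp [z])
  have h3 : z a ∈ KK ⊤ ∅ v (fun j => if j ∈ Finset.univ then 2 else 0) := by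
    simp only [Finset.mem_univ, if_true]
    refine mem_KK.2 fun S hS => Fil_map z (fun g _ => ?_) (mem_KK.1 ha S hS)
    cases g with
    | x e => simpa [z] using gen_mem_Fil (K := K) (g := .x e) (A := gens ⊤ ∅) trivial le_rfl
    | d e => simpa [z] using gen_mem_Fil (K := K) (g := .d e) (A := gens ⊤ ∅) trivial le_rfl
    | k i => simp [z]
  obtain ⟨g, hg⟩ := top_div hv l Finset.univ _ h3
  exact ⟨g, by rw [← hg, iot_comm z h1, h2]⟩

theorem exists_coeff (p : ℕ) [Fact p.Prime] [CharP K p] [Finite K] (hK : ∀ r : K, r ^ p = r)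
    (hp : 4 ≤ p) (A : Fin n → Fin n → K) (hA : LinearIndependent K A) :
    ∃ g : MvPolynomial (Fin n) K,
      coeff (m0 n (p - 1)) ((∏ i, X i) * (∏ i, lin (A i)) * g) = 1 := by
  classical
  have : NeZero (2 : K) := ⟨fun h => by
    have h1 : ((2 : ℕ) : K) = 0 := by simpa using h
    have := Nat.le_of_dvd (by norm_num) ((CharP.cast_eq_zero_iff K p 2).1 h1)
    omega⟩
  let v : Fin n ⊕ Fin n → Fin n → K := Sum.elim (fun i => Pi.single i 1) A
  let X0 : Finset (Fin n ⊕ Fin n) := Finset.univ.map Function.Embedding.inl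
  let P0 : Finset (Fin n ⊕ Fin n) := Finset.univ.map Function.Embedding.inr
  have hAdm : Adm (⊤ : Submodule K (Fin n → K)) X0 P0 v (3 * n) := by
    refine ⟨?_, fun _ _ => trivial, fun S _ => ?_⟩
    · rw [eq_top_iff, ← (Pi.basisFun K (Fin n)).span_eq]
      refine Submodule.span_mono ?_
      rintro _ ⟨i, rfl⟩
      exact ⟨Sum.inl i, by simp [X0], by simp [v]⟩
    · have h1 : (P0.filter fun j => v j ∈ S).card = (Finset.univ.filter fun i => A i ∈ S).card := by
        rw [Finset.filter_map, Finset.card_map]; rfl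
      have h2 : (Finset.univ.filter fun i => A i ∈ S).card ≤ Module.finrank K S := by
        have h3 : LinearIndependent K (fun i : {i // A i ∈ S} => (⟨A i, i.2⟩ : S)) :=
          LinearIndependent.of_comp S.subtype (hA.comp _ Subtype.val_injective)
        have := h3.fintype_card_le_finrank
        rwa [Fintype.card_subtype] at this
      have h4 : X0.card = n := by simp [X0]
      rw [h1, h4, finrank_top, Module.finrank_fin_fun]
      omega
  obtain ⟨h1, h2, h3⟩ := om0_props (K := K) p v (X0 : Set _) (List.finRange n)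
  obtain ⟨b, hb⟩ := lift_class p hK hp hAdm (by rw [List.length_finRange]; nlinarith) h1 h2 h3
    (fun _ => 2) (fun _ => le_rfl) (fun i _ => by cases i <;> simp [X0, P0])
  obtain ⟨g, hg⟩ := top_div' (fun i => by
    cases i with
    | inl i => simp [v]
    | inr i => exact hA.ne_zero i) (List.finRange n) _ hb
  refine ⟨g, ?_⟩
  have h4 : ∏ j, lin (v j) = (∏ i, X i) * ∏ i, lin (A i) := by
    rw [Fintype.prod_sum_type]; simp [v, lin_single]
  rw [← h4, ← hg, map_sub, map_sub, coeff_sub, coeff_zz_iot_DD, sub_zero,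
    zz_iot_om0 p (List.nodup_finRange n), ← Fin.prod_univ_def, prod_X_pow_m0]
  simp

theorem exists_nowhere_zero (p : ℕ) [Fact p.Prime] [CharP K p] [Finite K]
    (hK : ∀ r : K, r ^ p = r) (hp : 4 ≤ p) (hcard : p ≤ Nat.card K) (A : Fin n → Fin n → K)
    (hA : LinearIndependent K A) :
    ∃ x : Fin n → K, (∀ i, x i ≠ 0) ∧ ∀ i, ∑ j, A i j * x j ≠ 0 := by
  classical
  have := Fintype.ofFinite K
  obtain ⟨g, hg⟩ := exists_coeff p hK hp A hA
  have h1 : ∏ i, (X i : MvPolynomial (Fin n) K) = monomial (m0 n 1) 1 := by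
    rw [← prod_X_pow_m0]; simp
  have h2 : m0 n (p - 1) = m0 n 1 + m0 n (p - 2) := by
    ext i; simp [m0]; omega
  rw [mul_assoc, h1, h2, coeff_monomial_mul, one_mul, coeff_mul] at hg
  obtain ⟨x, hx, hx'⟩ := Finset.exists_ne_zero_of_sum_ne_zero (hg ▸ one_ne_zero)
  have h3 : coeff x.1 (∏ i, lin (A i)) ≠ 0 := left_ne_zero_of_mul hx'
  have h4 : (∏ i, lin (A i)).IsHomogeneous (∑ _i : Fin n, 1) :=
    IsHomogeneous.prod _ _ _ fun i _ => by
      rw [lin_apply]
      exact IsHomogeneous.sum _ _ _ fun j _ => by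
        rw [smul_eq_C_mul]; exact isHomogeneous_C_mul_X _ _
  have h5 : x.1.degree = ∑ _i : Fin n, 1 := by
    by_contra h; exact h3 (h4.coeff_eq_zero h)
  obtain ⟨s, hs, hs'⟩ := combinatorial_nullstellensatz_exists_eval_nonzero _ x.1 h3
    (by rw [h5]; exact h4.totalDegree (fun h => h3 (by rw [h]; simp)))
    (fun _ => Finset.univ.erase 0) (fun i => by
      have h6 := congrArg (fun m => m i) (Finset.HasAntidiagonal.mem_antidiagonal.1 hx)
      simp only [Finsupp.add_apply, m0, Finsupp.equivFunOnFinite_symm_apply_apply] at h6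
      rw [Finset.card_erase_of_mem (Finset.mem_univ _), Finset.card_univ,
        ← Nat.card_eq_fintype_card]
      omega)
  refine ⟨s, fun i => (Finset.mem_erase.1 (hs i)).1, fun i hi => hs' ?_⟩
  rw [map_prod]
  refine Finset.prod_eq_zero (Finset.mem_univ i) ?_
  simpa [lin_apply] using hi

end Pool.Agent.AJT

end
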