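import Mathlib

section

/-! The free super-commutative algebra on even `x e`, odd `d e` (linear in `e`) and odd `k i`. -/

set_option autoImplicit false

namespace Pool.Agent.AJT

/-- Generators. -/
inductive Gen (E ι : Type) : Type
  | x (e : E) : Gen E ι
  | d (e : E) : Gen E ι
  | k (i : ι) : Gen E ι

/-- Odd generators. -/
def Gen.odd {E ι : Type} : Gen E ι → Prop
  | .x _ => False
  | .d _ => True
  | .k _ => True

/-- Defining relations. -/
inductive Rel (K E ι : Type) [Field K] [AddCommGroup E] [Module K E] :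
    FreeAlgebra K (Gen E ι) → FreeAlgebra K (Gen E ι) → Prop
  | xadd (a b : E) : Rel K E ι (FreeAlgebra.ι K (.x (a + b)))
      (FreeAlgebra.ι K (.x a) + FreeAlgebra.ι K (.x b))
  | xsmul (r : K) (a : E) : Rel K E ι (FreeAlgebra.ι K (.x (r • a))) (r • FreeAlgebra.ι K (.x a))
  | dadd (a b : E) : Rel K E ι (FreeAlgebra.ι K (.d (a + b)))
      (FreeAlgebra.ι K (.d a) + FreeAlgebra.ι K (.d b))
  | dsmul (r : K) (a : E) : Rel K E ι (FreeAlgebra.ι K (.d (r • a))) (r • FreeAlgebra.ι K (.d a))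
  | comm (e : E) (g : Gen E ι) : Rel K E ι (FreeAlgebra.ι K (.x e) * FreeAlgebra.ι K g)
      (FreeAlgebra.ι K g * FreeAlgebra.ι K (.x e))
  | anti (g g' : Gen E ι) (hg : g.odd) (hg' : g'.odd) :
      Rel K E ι (FreeAlgebra.ι K g * FreeAlgebra.ι K g') (-(FreeAlgebra.ι K g' * FreeAlgebra.ι K g))

/-- The algebra. -/
def Om (K E ι : Type) [Field K] [AddCommGroup E] [Module K E] : Type := RingQuot (Rel K E ι)

variable {K E ι : Type} [Field K] [AddCommGroup E] [Module K E]

noncomputable instance instRingOm : Ring (Om K E ι) := inferInstanceAs (Ring (RingQuot (Rel K E ι)))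
noncomputable instance instAlgebraOm : Algebra K (Om K E ι) :=
  inferInstanceAs (Algebra K (RingQuot (Rel K E ι)))

/-- The quotient map. -/
noncomputable def mkOm : FreeAlgebra K (Gen E ι) →ₐ[K] Om K E ι := RingQuot.mkAlgHom K (Rel K E ι)

theorem mkOm_rel {a b : FreeAlgebra K (Gen E ι)} (h : Rel K E ι a b) : mkOm a = mkOm b :=
  RingQuot.mkAlgHom_rel K h

theorem mkOm_surj : Function.Surjective (mkOm (K := K) (E := E) (ι := ι)) :=
  RingQuot.mkAlgHom_surjective K (Rel K E ι)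

/-- Image of a generator. -/
noncomputable def gen (K : Type) [Field K] [Module K E] (g : Gen E ι) : Om K E ι :=
  mkOm (FreeAlgebra.ι K g)

/-- Compatibility of an assignment on generators with the relations. -/
structure Compat (K : Type) [Field K] [Module K E] {B : Type} [Ring B] [Algebra K B]
    (f : Gen E ι → B) : Prop where
  xadd : ∀ a b, f (.x (a + b)) = f (.x a) + f (.x b)
  xsmul : ∀ (r : K) a, f (.x (r • a)) = r • f (.x a)
  dadd : ∀ a b, f (.d (a + b)) = f (.d a) + f (.d b)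
  dsmul : ∀ (r : K) a, f (.d (r • a)) = r • f (.d a)
  comm : ∀ e g, f (.x e) * f g = f g * f (.x e)
  anti : ∀ g g', g.odd → g'.odd → f g * f g' = -(f g' * f g)

theorem compat_gen : Compat K (gen K : Gen E ι → Om K E ι) where
  xadd a b := by
    simpa [gen] using mkOm_rel (Rel.xadd (K := K) (ι := ι) a b)
  xsmul r a := by
    simpa [gen] using mkOm_rel (Rel.xsmul (K := K) (ι := ι) r a)
  dadd a b := by
    simpa [gen] using mkOm_rel (Rel.dadd (K := K) (ι := ι) a b)
  dsmul r a := by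
    simpa [gen] using mkOm_rel (Rel.dsmul (K := K) (ι := ι) r a)
  comm e g := by
    simpa [gen] using mkOm_rel (Rel.comm (K := K) e g)
  anti g g' hg hg' := by
    simpa [gen] using mkOm_rel (Rel.anti (K := K) g g' hg hg')

/-- Universal property. -/
noncomputable def lift {B : Type} [Ring B] [Algebra K B] (f : Gen E ι → B) (h : Compat K f) :
    Om K E ι →ₐ[K] B :=
  RingQuot.liftAlgHom K ⟨FreeAlgebra.lift K f, by
    intro a b r
    induction r with
    | xadd a b => simp [h.xadd]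
    | xsmul r a => simp [h.xsmul]
    | dadd a b => simp [h.dadd]
    | dsmul r a => simp [h.dsmul]
    | comm e g => simp [h.comm]
    | anti g g' hg hg' => simp [h.anti g g' hg hg']⟩

@[simp] theorem lift_gen {B : Type} [Ring B] [Algebra K B] (f : Gen E ι → B) (h : Compat K f)
    (g : Gen E ι) : lift f h (gen K g) = f g := by
  refine (RingQuot.liftAlgHom_mkAlgHom_apply K (FreeAlgebra.lift K f) _
    (FreeAlgebra.ι K g)).trans ?_
  simp

/-- Product of a list of generators. -/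
noncomputable def pr (K : Type) [Field K] [Module K E] (l : List (Gen E ι)) : Om K E ι :=
  (l.map (gen K)).prod

@[simp] theorem pr_nil : pr K ([] : List (Gen E ι)) = 1 := by simp [pr]

@[simp] theorem pr_cons (g : Gen E ι) (l : List (Gen E ι)) :
    pr K (g :: l) = gen K g * pr K l := by simp [pr]

theorem pr_append (l l' : List (Gen E ι)) : pr K (l ++ l') = pr K l * pr K l' := by simp [pr]

/-- Span of the products of lists with a property. -/
noncomputable def Sp (K : Type) [Field K] [Module K E] (Q : List (Gen E ι) → Prop) : Submodule K (Om K E ι) :=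
  Submodule.span K {a | ∃ l, Q l ∧ pr K l = a}

theorem pr_mem_Sp {Q : List (Gen E ι) → Prop} {l : List (Gen E ι)} (h : Q l) :
    pr K l ∈ Sp K Q := Submodule.subset_span ⟨l, h, rfl⟩

theorem Sp_le {Q : List (Gen E ι) → Prop} {U : Submodule K (Om K E ι)}
    (h : ∀ l, Q l → pr K l ∈ U) : Sp K Q ≤ U := by
  refine Submodule.span_le.2 ?_
  rintro a ⟨l, hl, rfl⟩
  exact h l hl

theorem Sp_mono {Q Q' : List (Gen E ι) → Prop} (h : ∀ l, Q l → Q' l) : Sp K Q ≤ Sp K Q' :=
  Sp_le fun l hl => pr_mem_Sp (h l hl)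

theorem Sp_map {V : Type} [AddCommGroup V] [Module K V] {Q : List (Gen E ι) → Prop}
    (Φ : Om K E ι →ₗ[K] V) {U : Submodule K V} (h : ∀ l, Q l → Φ (pr K l) ∈ U)
    {a : Om K E ι} (ha : a ∈ Sp K Q) : Φ a ∈ U :=
  (Sp_le (U := U.comap Φ) h) ha

theorem Sp_ext {V : Type} [AddCommGroup V] [Module K V] {Q : List (Gen E ι) → Prop}
    (Φ Ψ : Om K E ι →ₗ[K] V) (h : ∀ l, Q l → Φ (pr K l) = Ψ (pr K l))
    {a : Om K E ι} (ha : a ∈ Sp K Q) : Φ a = Ψ a := by
  have := Sp_map (Φ - Ψ) (U := ⊥) (Q := Q) (fun l hl => by simp [h l hl]) ha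
  simpa [sub_eq_zero] using this

theorem Sp_mul {Q Q' Q'' : List (Gen E ι) → Prop} (h : ∀ l l', Q l → Q' l' → Q'' (l ++ l'))
    {a b : Om K E ι} (ha : a ∈ Sp K Q) (hb : b ∈ Sp K Q') : a * b ∈ Sp K Q'' := by
  refine Sp_map (LinearMap.mulRight K b) (fun l hl => ?_) ha
  refine Sp_map (LinearMap.mulLeft K (pr K l)) (fun l' hl' => ?_) hb
  simpa [← pr_append] using pr_mem_Sp (h l l' hl hl')

theorem mem_Sp_true (a : Om K E ι) : a ∈ Sp K (fun _ => True) := by
  obtain ⟨b, rfl⟩ := mkOm_surj a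
  induction b using FreeAlgebra.induction with
  | grade0 r =>
    rw [AlgHom.commutes, Algebra.algebraMap_eq_smul_one]
    exact Submodule.smul_mem _ _ (by simpa using pr_mem_Sp (K := K) (l := []) trivial)
  | grade1 g => simpa [gen] using pr_mem_Sp (K := K) (l := [g]) trivial
  | mul a b ha hb => rw [map_mul]; exact Sp_mul (fun _ _ _ _ => trivial) ha hb
  | add a b ha hb => rw [map_add]; exact Submodule.add_mem _ ha hb

theorem lin_ext {V : Type} [AddCommGroup V] [Module K V]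
    (Φ Ψ : Om K E ι →ₗ[K] V) (h : ∀ l, Φ (pr K l) = Ψ (pr K l)) (a : Om K E ι) : Φ a = Ψ a :=
  Sp_ext Φ Ψ (fun l _ => h l) (mem_Sp_true a)

theorem map_pr_eq {B : Type} [Ring B] [Algebra K B] (φ ψ : Om K E ι →ₐ[K] B)
    (l : List (Gen E ι)) (h : ∀ g ∈ l, φ (gen K g) = ψ (gen K g)) : φ (pr K l) = ψ (pr K l) := by
  induction l with
  | nil => simp
  | cons g l ih =>
    simp only [pr_cons, map_mul]
    rw [h g (by simp), ih (fun g' hg' => h g' (by simp [hg']))]

theorem alg_ext {B : Type} [Ring B] [Algebra K B] (φ ψ : Om K E ι →ₐ[K] B)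
    (h : ∀ g, φ (gen K g) = ψ (gen K g)) (a : Om K E ι) : φ a = ψ a :=
  lin_ext φ.toLinearMap ψ.toLinearMap (fun l => map_pr_eq φ ψ l (fun g _ => h g)) a

/-- The even generators as a linear map. -/
noncomputable def xx (ι : Type) : E →ₗ[K] Om K E ι where
  toFun e := gen K (.x e)
  map_add' := compat_gen.xadd
  map_smul' := compat_gen.xsmul

/-- The odd generators `d e` as a linear map. -/
noncomputable def dd (ι : Type) : E →ₗ[K] Om K E ι where
  toFun e := gen K (.d e)
  map_add' := compat_gen.dadd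
  map_smul' := compat_gen.dsmul

/-- The Koszul generators. -/
noncomputable def kk (K E : Type) [Field K] [AddCommGroup E] [Module K E] (i : ι) : Om K E ι :=
  gen K (.k i)

@[simp] theorem gen_x (e : E) : gen K (.x e : Gen E ι) = xx (K := K) ι e := rfl
@[simp] theorem gen_d (e : E) : gen K (.d e : Gen E ι) = dd (K := K) ι e := rfl
@[simp] theorem gen_k (i : ι) : gen K (.k i : Gen E ι) = kk K E i := rfl

theorem xx_comm (e : E) (a : Om K E ι) : xx (K := K) ι e * a = a * xx (K := K) ι e := by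
  refine lin_ext (LinearMap.mulLeft K (xx (K := K) ι e)) (LinearMap.mulRight K (xx (K := K) ι e))
    (fun l => ?_) a
  simp only [LinearMap.mulLeft_apply, LinearMap.mulRight_apply]
  induction l with
  | nil => simp
  | cons g l ih =>
    have := compat_gen.comm (K := K) e g
    simp only [gen_x] at this
    rw [pr_cons, ← mul_assoc, this, mul_assoc, ih, mul_assoc]

theorem xx_pow_comm (e : E) (n : ℕ) (a : Om K E ι) :
    xx (K := K) ι e ^ n * a = a * xx (K := K) ι e ^ n :=
  (Commute.pow_left (xx_comm e a) n)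

/-- Span of the odd generators. -/
noncomputable def O1 (K E ι : Type) [Field K] [AddCommGroup E] [Module K E] : Submodule K (Om K E ι) :=
  Submodule.span K {a | ∃ g : Gen E ι, g.odd ∧ gen K g = a}

theorem gen_mem_O1 {g : Gen E ι} (h : g.odd) : gen K g ∈ O1 K E ι :=
  Submodule.subset_span ⟨g, h, rfl⟩

theorem dd_mem_O1 (e : E) : dd (K := K) ι e ∈ O1 K E ι := gen_mem_O1 (g := .d e) trivial
theorem kk_mem_O1 (i : ι) : kk K E i ∈ O1 K E ι := gen_mem_O1 (g := .k i) trivial

theorem O1_anti {a b : Om K E ι} (ha : a ∈ O1 K E ι) (hb : b ∈ O1 K E ι) : a * b = -(b * a) := by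
  induction ha using Submodule.span_induction with
  | mem a ha =>
    obtain ⟨g, hg, rfl⟩ := ha
    induction hb using Submodule.span_induction with
    | mem b hb =>
      obtain ⟨g', hg', rfl⟩ := hb
      exact compat_gen.anti g g' hg hg'
    | zero => simp
    | add b c _ _ h1 h2 => rw [mul_add, add_mul, h1, h2, neg_add]
    | smul r b _ h1 => rw [mul_smul_comm, smul_mul_assoc, h1, smul_neg]
  | zero => simp
  | add a c _ _ h1 h2 => rw [mul_add, add_mul, h1, h2, neg_add]
  | smul r a _ h1 => rw [mul_smul_comm, smul_mul_assoc, h1, smul_neg]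

theorem O1_sq [NeZero (2 : K)] {a : Om K E ι} (ha : a ∈ O1 K E ι) : a * a = 0 := by
  have h := O1_anti ha ha
  have h2 : (2 : K) • (a * a) = 0 := by
    rw [two_smul]; nth_rewrite 1 [h]; simp
  exact (smul_eq_zero.1 h2).resolve_left (NeZero.ne 2)

/-- Values of an endomorphism on generators. -/
noncomputable def endoGen (F G : E →ₗ[K] E) (u : ι → Om K E ι) : Gen E ι → Om K E ι
  | .x e => xx (K := K) ι (F e)
  | .d e => dd (K := K) ι (G e)
  | .k i => u i

theorem endoGen_odd (F G : E →ₗ[K] E) (u : ι → Om K E ι) (hu : ∀ i, u i ∈ O1 K E ι)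
    {g : Gen E ι} (hg : g.odd) : endoGen F G u g ∈ O1 K E ι := by
  cases g with
  | x e => exact hg.elim
  | d e => exact dd_mem_O1 _
  | k i => exact hu i

/-- Endomorphisms given on generators. -/
noncomputable def endo (F G : E →ₗ[K] E) (u : ι → Om K E ι) (hu : ∀ i, u i ∈ O1 K E ι) :
    Om K E ι →ₐ[K] Om K E ι :=
  lift (endoGen F G u)
    { xadd := fun a b => by simp [endoGen]
      xsmul := fun r a => by simp [endoGen]
      dadd := fun a b => by simp [endoGen]
      dsmul := fun r a => by simp [endoGen]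
      comm := fun e g => xx_comm _ _
      anti := fun g g' hg hg' => O1_anti (endoGen_odd F G u hu hg) (endoGen_odd F G u hu hg') }

@[simp] theorem endo_xx (F G : E →ₗ[K] E) (u : ι → Om K E ι) (hu : ∀ i, u i ∈ O1 K E ι) (e : E) :
    endo F G u hu (xx (K := K) ι e) = xx (K := K) ι (F e) := lift_gen _ _ (.x e)
@[simp] theorem endo_dd (F G : E →ₗ[K] E) (u : ι → Om K E ι) (hu : ∀ i, u i ∈ O1 K E ι) (e : E) :
    endo F G u hu (dd (K := K) ι e) = dd (K := K) ι (G e) := lift_gen _ _ (.d e)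
@[simp] theorem endo_kk (F G : E →ₗ[K] E) (u : ι → Om K E ι) (hu : ∀ i, u i ∈ O1 K E ι) (i : ι) :
    endo F G u hu (kk K E i) = u i := lift_gen _ _ (.k i)

/-- The parity automorphism. -/
noncomputable def par : Om K E ι →ₐ[K] Om K E ι :=
  endo LinearMap.id (-LinearMap.id) (fun i => -kk K E i)
    (fun i => Submodule.neg_mem _ (kk_mem_O1 i))

@[simp] theorem par_xx (e : E) : par (xx (K := K) ι e) = xx (K := K) ι e := by simp [par]
@[simp] theorem par_dd (e : E) : par (dd (K := K) ι e) = -dd (K := K) ι e := by simp [par]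
@[simp] theorem par_kk (i : ι) : par (kk K E i) = -kk K E i := by simp [par]

@[simp] theorem par_par (a : Om K E ι) : par (par a) = a :=
  alg_ext (par.comp par) (AlgHom.id K _) (fun g => by cases g <;> simp) a

theorem par_O1 {a : Om K E ι} (ha : a ∈ O1 K E ι) : par a = -a := by
  induction ha using Submodule.span_induction with
  | mem a ha =>
    obtain ⟨g, hg, rfl⟩ := ha
    cases g with
    | x e => exact hg.elim
    | d e => simp
    | k i => simp
  | zero => simp
  | add a c _ _ h1 h2 => rw [map_add, h1, h2, neg_add]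
  | smul r a _ h1 => rw [map_smul, h1, smul_neg]

theorem par_gen (g : Gen E ι) : par (gen K g) = gen K g ∨ par (gen K g) = -gen K g := by
  cases g <;> simp

theorem par_pr (l : List (Gen E ι)) : par (pr K l) = pr K l ∨ par (pr K l) = -pr K l := by
  induction l with
  | nil => simp
  | cons g l ih =>
    rw [pr_cons, map_mul]
    rcases par_gen (K := K) g with h | h <;> rcases ih with h' | h' <;> simp [h, h']

theorem O1_mul {θ : Om K E ι} (hθ : θ ∈ O1 K E ι) (a : Om K E ι) : θ * a = par a * θ := by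
  refine lin_ext (LinearMap.mulLeft K θ) ((LinearMap.mulRight K θ).comp par.toLinearMap)
    (fun l => ?_) a
  simp only [LinearMap.mulLeft_apply, LinearMap.comp_apply, LinearMap.mulRight_apply,
    AlgHom.toLinearMap_apply]
  induction l with
  | nil => simp
  | cons g l ih =>
    rw [pr_cons, map_mul, mul_assoc, ← ih, ← mul_assoc, ← mul_assoc]
    congr 1
    cases g with
    | x e => simp [xx_comm]
    | d e => simpa using O1_anti hθ (dd_mem_O1 e)
    | k i => simpa using O1_anti hθ (kk_mem_O1 i)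

theorem mul_O1 {θ : Om K E ι} (hθ : θ ∈ O1 K E ι) (a : Om K E ι) : a * θ = θ * par a := by
  rw [O1_mul hθ, par_par]

theorem Sp_par {Q : List (Gen E ι) → Prop} {a : Om K E ι} (ha : a ∈ Sp K Q) : par a ∈ Sp K Q := by
  refine Sp_map par.toLinearMap (fun l hl => ?_) ha
  rcases par_pr (K := K) l with h | h
  · simpa [h] using pr_mem_Sp hl
  · simpa [h] using pr_mem_Sp hl

/-- A product with a repeated odd generator vanishes. -/
theorem pr_eq_zero_of_mem [NeZero (2 : K)] {g : Gen E ι} (hg : g.odd) {l : List (Gen E ι)}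
    (h : g ∈ l) : gen K g * pr K l = 0 := by
  obtain ⟨s, t, rfl⟩ := List.append_of_mem h
  rw [pr_append, pr_cons, ← mul_assoc, O1_mul (gen_mem_O1 hg), mul_assoc, ← mul_assoc (gen K g),
    O1_sq (gen_mem_O1 hg)]
  simp

end Pool.Agent.AJT

end

section

/-! Twisted derivations of the super algebra. -/

set_option autoImplicit false

namespace Pool.Agent.AJT

variable {K E ι : Type} [Field K] [AddCommGroup E] [Module K E]

/-- Twisted Leibniz rule. -/
def IsDer (φ : Om K E ι →ₐ[K] Om K E ι) (δ : Om K E ι →ₗ[K] Om K E ι) : Prop :=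
  ∀ a b, δ (a * b) = δ a * b + φ a * δ b

theorem IsDer.one {φ : Om K E ι →ₐ[K] Om K E ι} {δ : Om K E ι →ₗ[K] Om K E ι} (h : IsDer φ δ) :
    δ 1 = 0 := by
  have := h 1 1
  simpa using this

theorem der_zero {B : Type} [Ring B] [Algebra K B] (δ : Om K E ι →ₗ[K] B) (φ ψ : Om K E ι → B)
    (h : ∀ a b, δ (a * b) = δ a * ψ b + φ a * δ b) (h1 : δ 1 = 0) (l : List (Gen E ι))
    (hg : ∀ g ∈ l, δ (gen K g) = 0) : δ (pr K l) = 0 := by
  induction l with
  | nil => simpa using h1
  | cons g l ih =>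
    rw [pr_cons, h, hg g (by simp), ih (fun g' hg' => hg g' (by simp [hg']))]
    simp

theorem der_zero_all {B : Type} [Ring B] [Algebra K B] (δ : Om K E ι →ₗ[K] B)
    (φ ψ : Om K E ι → B)
    (h : ∀ a b, δ (a * b) = δ a * ψ b + φ a * δ b) (h1 : δ 1 = 0)
    (hg : ∀ g, δ (gen K g) = 0) (a : Om K E ι) : δ a = 0 :=
  lin_ext δ 0 (fun l => der_zero δ φ ψ h h1 l (fun g _ => hg g)) a

theorem IsDer.pr_zero {φ : Om K E ι →ₐ[K] Om K E ι} {δ : Om K E ι →ₗ[K] Om K E ι}
    (h : IsDer φ δ) (l : List (Gen E ι)) (hg : ∀ g ∈ l, δ (gen K g) = 0) : δ (pr K l) = 0 :=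
  der_zero δ φ id h h.one l hg

/-- Compatibility of values of a derivation on generators. -/
structure DerCompat (φ : Om K E ι →ₐ[K] Om K E ι) (f : Gen E ι → Om K E ι) : Prop where
  xadd : ∀ a b, f (.x (a + b)) = f (.x a) + f (.x b)
  xsmul : ∀ (r : K) a, f (.x (r • a)) = r • f (.x a)
  dadd : ∀ a b, f (.d (a + b)) = f (.d a) + f (.d b)
  dsmul : ∀ (r : K) a, f (.d (r • a)) = r • f (.d a)
  comm : ∀ e g, f (.x e) * gen K g + φ (gen K (.x e)) * f g
    = f g * gen K (.x e) + φ (gen K g) * f (.x e)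
  anti : ∀ g g', g.odd → g'.odd →
    f g * gen K g' + φ (gen K g) * f g' = -(f g' * gen K g + φ (gen K g') * f g)

/-- The triangular matrix attached to a generator. -/
noncomputable def derMat (φ : Om K E ι →ₐ[K] Om K E ι) (f : Gen E ι → Om K E ι) (g : Gen E ι) :
    Matrix (Fin 2) (Fin 2) (Om K E ι) := !![φ (gen K g), f g; 0, gen K g]

theorem derMat_compat {φ : Om K E ι →ₐ[K] Om K E ι} {f : Gen E ι → Om K E ι}
    (h : DerCompat φ f) : Compat K (derMat φ f) where
  xadd a b := by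
    ext i j; fin_cases i <;> fin_cases j <;> simp [derMat, h.xadd]
  xsmul r a := by
    ext i j; fin_cases i <;> fin_cases j <;> simp [derMat, h.xsmul]
  dadd a b := by
    ext i j; fin_cases i <;> fin_cases j <;> simp [derMat, h.dadd]
  dsmul r a := by
    ext i j; fin_cases i <;> fin_cases j <;> simp [derMat, h.dsmul]
  comm e g := by
    have h1 := h.comm e g
    have h2 : φ (gen K (.x e)) * φ (gen K g) = φ (gen K g) * φ (gen K (.x e)) := by
      rw [← map_mul, ← map_mul, compat_gen.comm]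
    have h3 := compat_gen.comm (K := K) e g
    simp only [derMat, Matrix.mul_fin_two, mul_zero, add_zero, zero_mul, zero_add]
    rw [h2, h3, add_comm (φ (gen K (.x e)) * f g), h1, add_comm]
  anti g g' hg hg' := by
    have h1 := h.anti g g' hg hg'
    have h2 : φ (gen K g) * φ (gen K g') = -(φ (gen K g') * φ (gen K g)) := by
      rw [← map_mul, ← map_mul, compat_gen.anti g g' hg hg', map_neg]
    have h3 := compat_gen.anti (K := K) g g' hg hg'
    simp only [derMat, Matrix.mul_fin_two, mul_zero, add_zero, zero_mul, zero_add]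
    rw [h2, h3, add_comm (φ (gen K g) * f g'), h1]
    ext i j; fin_cases i <;> fin_cases j <;> simp [add_comm]

theorem exists_der {φ : Om K E ι →ₐ[K] Om K E ι} {f : Gen E ι → Om K E ι}
    (h : DerCompat φ f) :
    ∃ δ : Om K E ι →ₗ[K] Om K E ι, IsDer φ δ ∧ ∀ g, δ (gen K g) = f g := by
  let M := lift (derMat φ f) (derMat_compat h)
  let ent : Fin 2 → Fin 2 → (Om K E ι →ₗ[K] Om K E ι) := fun i j =>
    (Matrix.entryLinearMap K (Om K E ι) i j).comp M.toLinearMap
  have hent : ∀ i j a, ent i j a = M a i j := fun i j a => rfl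
  have key : ∀ l, M (pr K l) 0 0 = φ (pr K l) ∧ M (pr K l) 1 0 = 0 ∧ M (pr K l) 1 1 = pr K l := by
    intro l
    induction l with
    | nil => simp
    | cons g l ih =>
      obtain ⟨h1, h2, h3⟩ := ih
      simp only [pr_cons, map_mul, Matrix.mul_apply, Fin.sum_univ_two, h1, h2, h3]
      simp [M, derMat]
  have k0 : ∀ a, M a 0 0 = φ a := fun a =>
    lin_ext (ent 0 0) φ.toLinearMap (fun l => (key l).1) a
  have k2 : ∀ a, M a 1 1 = a := fun a =>
    lin_ext (ent 1 1) LinearMap.id (fun l => (key l).2.2) a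
  refine ⟨ent 0 1, fun a b => ?_, fun g => ?_⟩
  · simp only [hent, map_mul, Matrix.mul_apply, Fin.sum_univ_two, k0, k2]
    rw [add_comm]
  · simp [hent, M, derMat]

/-- Values of an odd derivation on generators. -/
noncomputable def oddGen (F G : E →ₗ[K] Om K E ι) (H : ι → Om K E ι) : Gen E ι → Om K E ι
  | .x e => F e
  | .d e => G e
  | .k i => H i

theorem oddGen_compat (F G : E →ₗ[K] Om K E ι) (H : ι → Om K E ι)
    (hF : ∀ e, F e ∈ O1 K E ι) (hG : ∀ e a, G e * a = a * G e) (hH : ∀ i a, H i * a = a * H i) :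
    DerCompat par (oddGen F G H) := by
  have hc : ∀ g : Gen E ι, g.odd → ∀ a, oddGen F G H g * a = a * oddGen F G H g := by
    intro g hg a
    cases g with
    | x e => exact hg.elim
    | d e => exact hG e a
    | k i => exact hH i a
  refine ⟨fun a b => by simp [oddGen], fun r a => by simp [oddGen], fun a b => by simp [oddGen],
    fun r a => by simp [oddGen], fun e g => ?_, fun g g' hg hg' => ?_⟩
  · change F e * gen K g + par (xx (K := K) ι e) * oddGen F G H g
      = oddGen F G H g * xx (K := K) ι e + par (gen K g) * F e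
    rw [par_xx, xx_comm, O1_mul (hF e), add_comm]
  · rw [par_O1 (gen_mem_O1 hg), par_O1 (gen_mem_O1 hg'), hc g hg, hc g' hg']
    simp

/-- Odd derivations. -/
noncomputable def oddDer (F G : E →ₗ[K] Om K E ι) (H : ι → Om K E ι)
    (hF : ∀ e, F e ∈ O1 K E ι) (hG : ∀ e a, G e * a = a * G e) (hH : ∀ i a, H i * a = a * H i) :
    Om K E ι →ₗ[K] Om K E ι := (exists_der (oddGen_compat F G H hF hG hH)).choose

section
variable (F G : E →ₗ[K] Om K E ι) (H : ι → Om K E ι)
    (hF : ∀ e, F e ∈ O1 K E ι) (hG : ∀ e a, G e * a = a * G e) (hH : ∀ i a, H i * a = a * H i)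

theorem oddDer_isDer : IsDer par (oddDer F G H hF hG hH) :=
  (exists_der (oddGen_compat F G H hF hG hH)).choose_spec.1
theorem oddDer_xx (e : E) : oddDer F G H hF hG hH (xx (K := K) ι e) = F e :=
  (exists_der (oddGen_compat F G H hF hG hH)).choose_spec.2 (.x e)
theorem oddDer_dd (e : E) : oddDer F G H hF hG hH (dd (K := K) ι e) = G e :=
  (exists_der (oddGen_compat F G H hF hG hH)).choose_spec.2 (.d e)
theorem oddDer_kk (i : ι) : oddDer F G H hF hG hH (kk K E i) = H i :=
  (exists_der (oddGen_compat F G H hF hG hH)).choose_spec.2 (.k i)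
end

/-- An odd derivation: twisted by parity and anticommuting with parity. -/
structure IsOdd (δ : Om K E ι →ₗ[K] Om K E ι) : Prop where
  der : IsDer par δ
  anti : ∀ a, δ (par a) = -par (δ a)

theorem isOdd_of_gen {δ : Om K E ι →ₗ[K] Om K E ι} (h : IsDer par δ)
    (hg : ∀ g, δ (par (gen K g)) = -par (δ (gen K g))) : IsOdd δ := by
  refine ⟨h, fun a => ?_⟩
  have := der_zero_all (δ.comp par.toLinearMap + par.toLinearMap.comp δ) id par
    (fun a b => by
      simp only [LinearMap.add_apply, LinearMap.comp_apply, AlgHom.toLinearMap_apply, map_mul, h _ _,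
        map_add, par_par, id]
      noncomm_ring)
    (by simp [h.one]) (fun g => by simp [hg g]) a
  simp only [LinearMap.add_apply, LinearMap.comp_apply, AlgHom.toLinearMap_apply] at this
  exact eq_neg_of_add_eq_zero_left this

theorem IsOdd.xx_pow {δ : Om K E ι →ₗ[K] Om K E ι} (h : IsOdd δ) (e : E) (n : ℕ) :
    δ (xx (K := K) ι e ^ (n + 1)) = (n + 1) • (xx (K := K) ι e ^ n * δ (xx (K := K) ι e)) := by
  induction n with
  | zero => simp
  | succ n ih =>
    rw [pow_succ', h.der, ih, par_xx, ← xx_pow_comm, mul_smul_comm, ← mul_assoc, ← pow_succ',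
      succ_nsmul _ (n + 1), add_comm]

theorem IsOdd.xx_pow_char {δ : Om K E ι →ₗ[K] Om K E ι} (h : IsOdd δ) (p : ℕ) [Fact p.Prime]
    [CharP K p] (e : E) : δ (xx (K := K) ι e ^ p) = 0 := by
  obtain ⟨n, hn⟩ : ∃ n, p = n + 1 := ⟨p - 1, by have := (Fact.out : p.Prime).pos; omega⟩
  have hp : ((n + 1 : ℕ) : K) = 0 := by rw [← hn]; exact CharP.cast_eq_zero K p
  rw [hn, h.xx_pow, ← Nat.cast_smul_eq_nsmul K, hp, zero_smul]

theorem IsOdd.xx_pow_zero {δ : Om K E ι →ₗ[K] Om K E ι} (h : IsOdd δ) (e : E)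
    (he : δ (xx (K := K) ι e) = 0) (n : ℕ) : δ (xx (K := K) ι e ^ n) = 0 := by
  cases n with
  | zero => simpa using h.der.one
  | succ n => rw [h.xx_pow, he]; simp

/-- The super commutator of two odd derivations is an even derivation. -/
theorem IsOdd.bracket {δ δ' : Om K E ι →ₗ[K] Om K E ι} (h : IsOdd δ) (h' : IsOdd δ') :
    IsDer (AlgHom.id K _) (δ.comp δ' + δ'.comp δ) := by
  intro a b
  simp only [LinearMap.add_apply, LinearMap.comp_apply, h.der _ _, h'.der _ _, map_add, h.anti,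
    h'.anti, par_par, AlgHom.id_apply]
  noncomm_ring

theorem IsOdd.anticomm {δ δ' : Om K E ι →ₗ[K] Om K E ι} (h : IsOdd δ) (h' : IsOdd δ')
    (hg : ∀ g, δ (δ' (gen K g)) + δ' (δ (gen K g)) = 0) (a : Om K E ι) :
    δ (δ' a) = -δ' (δ a) := by
  have := der_zero_all (δ.comp δ' + δ'.comp δ) (AlgHom.id K _) id (h.bracket h')
    (h.bracket h').one hg a
  exact eq_neg_of_add_eq_zero_left this

/-- The differential. -/
noncomputable def DD (p : ℕ) (u : ι → E) : Om K E ι →ₗ[K] Om K E ι :=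
  oddDer (dd (K := K) ι) 0 (fun i => xx (K := K) ι (u i) ^ p) dd_mem_O1 (by simp)
    (fun i a => xx_pow_comm _ _ a)

@[simp] theorem DD_xx (p : ℕ) (u : ι → E) (e : E) :
    DD p u (xx (K := K) ι e) = dd (K := K) ι e := by simp [DD, oddDer_xx]
@[simp] theorem DD_dd (p : ℕ) (u : ι → E) (e : E) :
    DD p u (dd (K := K) ι e) = 0 := by simp [DD, oddDer_dd]
@[simp] theorem DD_kk (p : ℕ) (u : ι → E) (i : ι) :
    DD p u (kk K E i) = xx (K := K) ι (u i) ^ p := by simp [DD, oddDer_kk]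

theorem DD_isOdd (p : ℕ) (u : ι → E) : IsOdd (DD (K := K) p u) :=
  isOdd_of_gen (oddDer_isDer _ _ _ _ _ _) (fun g => by cases g <;> simp)

theorem DD_DD [NeZero (2 : K)] (p : ℕ) [Fact p.Prime] [CharP K p] (u : ι → E) (a : Om K E ι) :
    DD p u (DD p u a) = 0 := by
  have h := (DD_isOdd (K := K) p u).anticomm (DD_isOdd p u)
    (fun g => by cases g <;> simp [(DD_isOdd (K := K) p u).xx_pow_char p]) a
  have h2 : (2 : K) • (DD p u (DD p u a)) = 0 := by
    rw [two_smul]; nth_rewrite 1 [h]; simp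
  exact (smul_eq_zero.1 h2).resolve_left (NeZero.ne 2)

/-- The Euler homotopy. -/
noncomputable def hh (ι : Type) (σ : E →ₗ[K] E) : Om K E ι →ₗ[K] Om K E ι :=
  oddDer 0 ((xx (K := K) ι).comp σ) 0 (by simp) (fun e a => xx_comm _ a) (by simp)

@[simp] theorem hh_xx (σ : E →ₗ[K] E) (e : E) : hh ι σ (xx (K := K) ι e) = 0 := by
  simp [hh, oddDer_xx]
@[simp] theorem hh_dd (σ : E →ₗ[K] E) (e : E) :
    hh ι σ (dd (K := K) ι e) = xx (K := K) ι (σ e) := by simp [hh, oddDer_dd]
@[simp] theorem hh_kk (σ : E →ₗ[K] E) (i : ι) : hh ι σ (kk K E i) = 0 := by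
  simp [hh, oddDer_kk]

theorem hh_isOdd (σ : E →ₗ[K] E) : IsOdd (hh ι σ) :=
  isOdd_of_gen (oddDer_isDer _ _ _ _ _ _) (fun g => by cases g <;> simp)

/-- Contraction with a linear functional. -/
noncomputable def con (ι : Type) (f : E →ₗ[K] K) : Om K E ι →ₗ[K] Om K E ι :=
  oddDer 0 (f.smulRight 1) 0 (by simp) (fun e a => by simp) (by simp)

@[simp] theorem con_xx (f : E →ₗ[K] K) (e : E) : con ι f (xx (K := K) ι e) = 0 := by
  simp [con, oddDer_xx]
@[simp] theorem con_dd (f : E →ₗ[K] K) (e : E) :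
    con ι f (dd (K := K) ι e) = f e • 1 := by simp [con, oddDer_dd]
@[simp] theorem con_kk (f : E →ₗ[K] K) (i : ι) : con ι f (kk K E i) = 0 := by
  simp [con, oddDer_kk]

theorem con_isOdd (f : E →ₗ[K] K) : IsOdd (con ι f) :=
  isOdd_of_gen (oddDer_isDer _ _ _ _ _ _) (fun g => by cases g <;> simp)

open Classical in
/-- Derivative along a Koszul generator. -/
noncomputable def dk (K E : Type) [Field K] [AddCommGroup E] [Module K E] (i : ι) :
    Om K E ι →ₗ[K] Om K E ι :=
  oddDer 0 0 (fun j => if j = i then 1 else 0) (by simp) (by simp)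
    (fun j a => by split_ifs <;> simp)

@[simp] theorem dk_xx (i : ι) (e : E) : dk K E i (xx (K := K) ι e) = 0 := by
  simp [dk, oddDer_xx]
@[simp] theorem dk_dd (i : ι) (e : E) : dk K E i (dd (K := K) ι e) = 0 := by
  simp [dk, oddDer_dd]
open Classical in
theorem dk_kk (i j : ι) : dk K E i (kk K E j) = if j = i then 1 else 0 := by
  simp [dk, oddDer_kk]

theorem dk_isOdd (i : ι) : IsOdd (dk K E i) :=
  isOdd_of_gen (oddDer_isDer _ _ _ _ _ _) (fun g => by
    cases g with
    | x e => simp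
    | d e => simp
    | k j => simp only [gen_k, par_kk, map_neg, dk_kk]; split_ifs <;> simp)

/-- Projection along `y`. -/
noncomputable def prj (f : E →ₗ[K] K) (y : E) : E →ₗ[K] E := LinearMap.id - f.smulRight y

theorem prj_apply (f : E →ₗ[K] K) (y e : E) : prj f y e = e - f e • y := by simp [prj]

theorem prj_self {f : E →ₗ[K] K} {y : E} (h : f y = 1) : prj f y y = 0 := by simp [prj, h]

/-- Functoriality in `E`. -/
noncomputable def push (ι : Type) (π : E →ₗ[K] E) : Om K E ι →ₐ[K] Om K E ι :=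
  endo π π (kk K E) kk_mem_O1

/-- Substitution in the even generators only. -/
noncomputable def zx (ι : Type) (π : E →ₗ[K] E) : Om K E ι →ₐ[K] Om K E ι :=
  endo π LinearMap.id (kk K E) kk_mem_O1

@[simp] theorem push_xx (π : E →ₗ[K] E) (e : E) :
    push ι π (xx (K := K) ι e) = xx (K := K) ι (π e) := by simp [push]
@[simp] theorem push_dd (π : E →ₗ[K] E) (e : E) :
    push ι π (dd (K := K) ι e) = dd (K := K) ι (π e) := by simp [push]
@[simp] theorem push_kk (π : E →ₗ[K] E) (i : ι) : push ι π (kk K E i) = kk K E i := by simp [push]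
@[simp] theorem zx_xx (π : E →ₗ[K] E) (e : E) :
    zx ι π (xx (K := K) ι e) = xx (K := K) ι (π e) := by simp [zx]
@[simp] theorem zx_dd (π : E →ₗ[K] E) (e : E) :
    zx ι π (dd (K := K) ι e) = dd (K := K) ι e := by simp [zx]
@[simp] theorem zx_kk (π : E →ₗ[K] E) (i : ι) : zx ι π (kk K E i) = kk K E i := by simp [zx]

theorem push_push (π π' : E →ₗ[K] E) (a : Om K E ι) :
    push ι π' (push ι π a) = push ι (π'.comp π) a :=
  alg_ext ((push ι π').comp (push ι π)) _ (fun g => by cases g <;> simp) a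

/-- Values of the division operator on generators. -/
noncomputable def divGen (ι : Type) (f : E →ₗ[K] K) : Gen E ι → Om K E ι
  | .x e => f e • 1
  | .d _ => 0
  | .k _ => 0

theorem divGen_compat (f : E →ₗ[K] K) (y : E) : DerCompat (zx ι (prj f y)) (divGen ι f) := by
  refine ⟨fun a b => by simp [divGen, add_smul], fun r a => by simp [divGen, mul_smul],
    fun a b => by simp [divGen], fun r a => by simp [divGen], fun e g => ?_,
    fun g g' hg hg' => ?_⟩
  · cases g with
    | x e' =>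
      simp only [divGen, gen_x, zx_xx, prj_apply, map_sub, map_smul, smul_mul_assoc, one_mul,
        mul_smul_comm, mul_one, smul_sub, smul_smul, mul_comm (f e) (f e')]
      abel
    | d e' => simp [divGen]
    | k i => simp [divGen]
  · cases g with
    | x e => exact hg.elim
    | d e =>
      cases g' with
      | x e => exact hg'.elim
      | d e' => simp [divGen]
      | k i => simp [divGen]
    | k j =>
      cases g' with
      | x e => exact hg'.elim
      | d e' => simp [divGen]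
      | k i => simp [divGen]

/-- Division by `x y`, dropping the remainder. -/
noncomputable def dv (ι : Type) (f : E →ₗ[K] K) (y : E) : Om K E ι →ₗ[K] Om K E ι :=
  (exists_der (divGen_compat (ι := ι) f y)).choose

theorem dv_isDer (f : E →ₗ[K] K) (y : E) : IsDer (zx ι (prj f y)) (dv ι f y) :=
  (exists_der (divGen_compat (ι := ι) f y)).choose_spec.1

@[simp] theorem dv_xx (f : E →ₗ[K] K) (y e : E) : dv ι f y (xx (K := K) ι e) = f e • 1 :=
  (exists_der (divGen_compat (ι := ι) f y)).choose_spec.2 (.x e)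
@[simp] theorem dv_dd (f : E →ₗ[K] K) (y e : E) : dv ι f y (dd (K := K) ι e) = 0 :=
  (exists_der (divGen_compat (ι := ι) f y)).choose_spec.2 (.d e)
@[simp] theorem dv_kk (f : E →ₗ[K] K) (y : E) (i : ι) : dv ι f y (kk K E i) = 0 :=
  (exists_der (divGen_compat (ι := ι) f y)).choose_spec.2 (.k i)

theorem dv_xx_mul {f : E →ₗ[K] K} {y : E} (h : f y = 1) (a : Om K E ι) :
    dv ι f y (xx (K := K) ι y * a) = a := by
  rw [dv_isDer f y, dv_xx, zx_xx, prj_self h, h]; simp

theorem xx_mul_dv (f : E →ₗ[K] K) (y : E) (a : Om K E ι) :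
    xx (K := K) ι y * dv ι f y a = a - zx ι (prj f y) a := by
  have := der_zero_all ((LinearMap.mulLeft K (xx (K := K) ι y)).comp (dv ι f y)
      - (LinearMap.id - (zx ι (prj f y)).toLinearMap)) (zx ι (prj f y)) id
    (fun a b => by
      simp only [LinearMap.sub_apply, LinearMap.comp_apply, LinearMap.mulLeft_apply,
        LinearMap.id_apply, AlgHom.toLinearMap_apply, dv_isDer f y _ _, map_mul, id, mul_add,
        ← mul_assoc, xx_comm y (zx ι (prj f y) a)]
      noncomm_ring)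
    (by simp [(dv_isDer (ι := ι) f y).one])
    (fun g => by cases g <;> simp [prj_apply]) a
  simpa [sub_eq_zero] using this

theorem xx_mul_eq_zero {f : E →ₗ[K] K} {y : E} (h : f y = 1) {a : Om K E ι}
    (ha : xx (K := K) ι y * a = 0) : a = 0 := by
  rw [← dv_xx_mul h a, ha, map_zero]

theorem xx_pow_mul_eq_zero {f : E →ₗ[K] K} {y : E} (h : f y = 1) (n : ℕ) {a : Om K E ι}
    (ha : xx (K := K) ι y ^ n * a = 0) : a = 0 := by
  induction n with
  | zero => simpa using ha
  | succ n ih => rw [pow_succ', mul_assoc] at ha; exact ih (xx_mul_eq_zero h ha)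

/-- Expansion along an odd element. -/
theorem odd_expand [NeZero (2 : K)] {θ : Om K E ι} (hθ : θ ∈ O1 K E ι)
    (z : Om K E ι →ₐ[K] Om K E ι) (hz : ∀ a, z (par a) = par (z a))
    {δ : Om K E ι →ₗ[K] Om K E ι} (hδ : IsDer par δ)
    (hg : ∀ g, gen K g = z (gen K g) + θ * z (δ (gen K g))) (a : Om K E ι) :
    a = z a + θ * z (δ a) := by
  refine lin_ext LinearMap.id (z.toLinearMap + (LinearMap.mulLeft K θ).comp (z.toLinearMap.comp δ))
    (fun l => ?_) a
  simp only [LinearMap.id_apply, LinearMap.add_apply, AlgHom.toLinearMap_apply,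
    LinearMap.comp_apply, LinearMap.mulLeft_apply]
  induction l with
  | nil => simp [hδ.one]
  | cons g l ih =>
    rw [pr_cons, hδ, map_add, map_mul, map_mul, map_mul, hz]
    have h1 := hg g
    generalize gen K g = b at *
    generalize pr K l = c at *
    have h2 : θ * z (δ b) * θ = 0 := by
      rw [mul_assoc, mul_O1 hθ, ← mul_assoc, O1_sq hθ, zero_mul]
    have h3 : z b * θ = θ * par (z b) := mul_O1 hθ _
    calc b * c = (z b + θ * z (δ b)) * (z c + θ * z (δ c)) := by rw [← h1, ← ih]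
      _ = z b * z c + (z b * θ) * z (δ c) + θ * z (δ b) * z c + (θ * z (δ b) * θ) * z (δ c) := by
        noncomm_ring
      _ = _ := by rw [h2, h3]; noncomm_ring

theorem endo_par (F G : E →ₗ[K] E) (u : ι → Om K E ι) (hu : ∀ i, u i ∈ O1 K E ι) (a : Om K E ι) :
    endo F G u hu (par a) = par (endo F G u hu a) :=
  alg_ext ((endo F G u hu).comp par) (par.comp (endo F G u hu))
    (fun g => by cases g <;> simp [par_O1 (hu _)]) a

open Classical in
/-- Kill one Koszul generator. -/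
noncomputable def zk (K E : Type) [Field K] [AddCommGroup E] [Module K E] (i : ι) :
    Om K E ι →ₐ[K] Om K E ι :=
  endo LinearMap.id LinearMap.id (fun j => if j = i then 0 else kk K E j)
    (fun j => by split_ifs; exacts [Submodule.zero_mem _, kk_mem_O1 j])

@[simp] theorem zk_xx (i : ι) (e : E) : zk K E i (xx (K := K) ι e) = xx (K := K) ι e := by
  simp [zk]
@[simp] theorem zk_dd (i : ι) (e : E) : zk K E i (dd (K := K) ι e) = dd (K := K) ι e := by
  simp [zk]
open Classical in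
theorem zk_kk (i j : ι) : zk K E i (kk K E j) = if j = i then 0 else kk K E j := by
  simp [zk]

theorem zk_expand [NeZero (2 : K)] (i : ι) (a : Om K E ι) :
    a = zk K E i a + kk K E i * zk K E i (dk K E i a) := by
  refine odd_expand (kk_mem_O1 i) (zk K E i) (endo_par _ _ _ _) (dk_isOdd i).der (fun g => ?_) a
  cases g with
  | x e => simp
  | d e => simp
  | k j =>
    simp only [gen_k, zk_kk, dk_kk]
    split_ifs with h
    · simp [h]
    · simp

theorem zx_expand [NeZero (2 : K)] (f : E →ₗ[K] K) (y : E) (a : Om K E ι) :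
    zx ι (prj f y) a = push ι (prj f y) a + dd (K := K) ι y * push ι (prj f y) (con ι f a) := by
  let zd : Om K E ι →ₐ[K] Om K E ι := endo LinearMap.id (prj f y) (kk K E) kk_mem_O1
  have h1 := odd_expand (dd_mem_O1 y) zd (endo_par _ _ _ _) (con_isOdd f).der
    (fun g => by cases g <;> simp [zd, prj_apply]) a
  have h2 : ∀ b, zx ι (prj f y) (zd b) = push ι (prj f y) b :=
    alg_ext ((zx ι (prj f y)).comp zd) _ (fun g => by cases g <;> simp [zd])
  conv_lhs => rw [h1]
  rw [map_add, map_mul, h2, h2, zx_dd]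

end Pool.Agent.AJT

end

section

/-! Filtrations and gradings. -/

set_option autoImplicit false

namespace Pool.Agent.AJT

open Polynomial

variable {K E ι : Type} [Field K] [AddCommGroup E] [Module K E]

/-- Weight of a list. -/
def wt (w : Gen E ι → ℕ) (l : List (Gen E ι)) : ℕ := (l.map w).sum

omit [AddCommGroup E] in
@[simp] theorem wt_nil (w : Gen E ι → ℕ) : wt w [] = 0 := rfl
omit [AddCommGroup E] in
@[simp] theorem wt_cons (w : Gen E ι → ℕ) (g : Gen E ι) (l : List (Gen E ι)) :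
    wt w (g :: l) = w g + wt w l := by simp [wt]
omit [AddCommGroup E] in
theorem wt_append (w : Gen E ι → ℕ) (l l' : List (Gen E ι)) :
    wt w (l ++ l') = wt w l + wt w l' := by simp [wt]
omit [AddCommGroup E] in
theorem wt_le {w w' : Gen E ι → ℕ} {l : List (Gen E ι)} (h : ∀ g ∈ l, w g ≤ w' g) :
    wt w l ≤ wt w' l := by
  induction l with
  | nil => simp
  | cons g l ih =>
    simp only [wt_cons]
    exact add_le_add (h g (by simp)) (ih fun g' hg' => h g' (by simp [hg']))
omit [AddCommGroup E] in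
theorem wt_congr {w w' : Gen E ι → ℕ} {l : List (Gen E ι)} (h : ∀ g ∈ l, w g = w' g) :
    wt w l = wt w' l :=
  le_antisymm (wt_le fun g hg => (h g hg).le) (wt_le fun g hg => (h g hg).ge)
omit [AddCommGroup E] in
theorem wt_filter (w : Gen E ι → ℕ) (q : Gen E ι → Bool) (l : List (Gen E ι)) :
    wt w l = wt w (l.filter q) + wt w (l.filter fun g => !q g) := by
  induction l with
  | nil => simp
  | cons g l ih =>
    cases h : q g <;> simp [h, ih] <;> omega
omit [AddCommGroup E] in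
theorem wt_eq_zero {w : Gen E ι → ℕ} {l : List (Gen E ι)} (h : ∀ g ∈ l, w g = 0) : wt w l = 0 := by
  induction l with
  | nil => simp
  | cons g l ih => simp [h g (by simp), ih fun g' hg' => h g' (by simp [hg'])]

/-- Span of products of allowed generators of weight at least `k`. -/
noncomputable def Fil (K : Type) [Field K] [Module K E] (A : Set (Gen E ι)) (w : Gen E ι → ℕ)
    (k : ℕ) : Submodule K (Om K E ι) := Sp K (fun l => (∀ g ∈ l, g ∈ A) ∧ k ≤ wt w l)

theorem Fil_mul {A : Set (Gen E ι)} {w : Gen E ι → ℕ} {k k' n : ℕ} {a b : Om K E ι}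
    (ha : a ∈ Fil K A w k) (hb : b ∈ Fil K A w k') (hn : n ≤ k + k') : a * b ∈ Fil K A w n := by
  refine Sp_mul (fun l l' hl hl' => ⟨fun g hg => ?_, ?_⟩) ha hb
  · rcases List.mem_append.1 hg with h | h
    exacts [hl.1 g h, hl'.1 g h]
  · rw [wt_append]; have := hl.2; have := hl'.2; omega

theorem Fil_mono {A A' : Set (Gen E ι)} {w w' : Gen E ι → ℕ} {k k' : ℕ} (hA : A ⊆ A')
    (hw : ∀ g ∈ A, w g ≤ w' g) (hk : k' ≤ k) : Fil K A w k ≤ Fil K A' w' k' :=
  Sp_mono fun _ hl => ⟨fun g hg => hA (hl.1 g hg),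
    hk.trans (hl.2.trans (wt_le fun g hg => hw g (hl.1 g hg)))⟩

theorem Fil_anti {A : Set (Gen E ι)} {w : Gen E ι → ℕ} {k k' : ℕ} (hk : k' ≤ k) :
    Fil K A w k ≤ Fil K A w k' := Fil_mono subset_rfl (fun _ _ => le_rfl) hk

theorem Fil_le_zero {A A' : Set (Gen E ι)} {w w' : Gen E ι → ℕ} {k : ℕ} (hA : A ⊆ A') :
    Fil K A w k ≤ Fil K A' w' 0 :=
  Sp_mono fun _ hl => ⟨fun g hg => hA (hl.1 g hg), Nat.zero_le _⟩

theorem one_mem_Fil {A : Set (Gen E ι)} {w : Gen E ι → ℕ} : (1 : Om K E ι) ∈ Fil K A w 0 := by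
  have : pr K [] ∈ Fil K A w 0 := pr_mem_Sp (by simp)
  simpa using this

theorem gen_mem_Fil {A : Set (Gen E ι)} {w : Gen E ι → ℕ} {k : ℕ} {g : Gen E ι} (hg : g ∈ A)
    (hk : k ≤ w g) : gen K g ∈ Fil K A w k := by
  have : pr K [g] ∈ Fil K A w k := pr_mem_Sp (by simp [hg, hk])
  simpa using this

theorem pow_mem_Fil {A : Set (Gen E ι)} {w : Gen E ι → ℕ} {k : ℕ} {a : Om K E ι}
    (ha : a ∈ Fil K A w k) (n : ℕ) : a ^ n ∈ Fil K A w (n * k) := by
  induction n with
  | zero => simpa using one_mem_Fil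
  | succ n ih => rw [pow_succ]; exact Fil_mul ih ha (by rw [Nat.succ_mul])

theorem map_pr_mem_Fil {A' : Set (Gen E ι)} {w w' : Gen E ι → ℕ} (φ : Om K E ι →ₐ[K] Om K E ι)
    (l : List (Gen E ι)) (h : ∀ g ∈ l, φ (gen K g) ∈ Fil K A' w' (w g)) :
    φ (pr K l) ∈ Fil K A' w' (wt w l) := by
  induction l with
  | nil => simpa using one_mem_Fil
  | cons g l ih =>
    rw [pr_cons, map_mul, wt_cons]
    exact Fil_mul (h g (by simp)) (ih fun g' hg' => h g' (by simp [hg'])) le_rfl

theorem Fil_map {A A' : Set (Gen E ι)} {w w' : Gen E ι → ℕ} (φ : Om K E ι →ₐ[K] Om K E ι)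
    (h : ∀ g ∈ A, φ (gen K g) ∈ Fil K A' w' (w g)) {k : ℕ} {a : Om K E ι}
    (ha : a ∈ Fil K A w k) : φ a ∈ Fil K A' w' k :=
  Sp_map φ.toLinearMap
    (fun l hl => Fil_anti hl.2 (map_pr_mem_Fil φ l fun g hg => h g (hl.1 g hg))) ha

theorem Fil_le {A A' : Set (Gen E ι)} {w w' : Gen E ι → ℕ}
    (h : ∀ g ∈ A, gen K g ∈ Fil K A' w' (w g)) (k : ℕ) : Fil K A w k ≤ Fil K A' w' k :=
  fun _ ha => Fil_map (AlgHom.id K _) h ha

theorem Fil_der {A : Set (Gen E ι)} {w : Gen E ι → ℕ} {φ : Om K E ι →ₐ[K] Om K E ι}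
    {δ : Om K E ι →ₗ[K] Om K E ι} (hδ : IsDer φ δ) (n m : ℕ)
    (h : ∀ g ∈ A, φ (gen K g) ∈ Fil K A w (w g))
    (h' : ∀ g ∈ A, δ (gen K g) ∈ Fil K A w (w g + n - m)) {k : ℕ} {a : Om K E ι}
    (ha : a ∈ Fil K A w k) : δ a ∈ Fil K A w (k + n - m) := by
  refine Sp_map δ (fun l hl => ?_) ha
  have key : ∀ l : List (Gen E ι), (∀ g ∈ l, g ∈ A) → δ (pr K l) ∈ Fil K A w (wt w l + n - m) := by
    intro l hl
    induction l with
    | nil => simp [hδ.one]
    | cons g l ih =>
      have hg := hl g (by simp)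
      have hl' : ∀ g' ∈ l, g' ∈ A := fun g' hg' => hl g' (by simp [hg'])
      rw [pr_cons, hδ, wt_cons]
      refine Submodule.add_mem _ ?_ ?_
      · exact Fil_mul (k' := wt w l) (h' g hg) (pr_mem_Sp ⟨hl', le_rfl⟩) (by omega)
      · exact Fil_mul (h g hg) (ih hl') (by omega)
  exact Fil_anti (by have := hl.2; omega) (key l hl.1)

theorem Fil_par {A : Set (Gen E ι)} {w : Gen E ι → ℕ} {k : ℕ} {a : Om K E ι}
    (ha : a ∈ Fil K A w k) : par a ∈ Fil K A w k := Sp_par ha

theorem Fil_odd {A : Set (Gen E ι)} {w : Gen E ι → ℕ}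
    {δ : Om K E ι →ₗ[K] Om K E ι} (hδ : IsOdd δ) (n m : ℕ)
    (h' : ∀ g ∈ A, δ (gen K g) ∈ Fil K A w (w g + n - m)) {k : ℕ} {a : Om K E ι}
    (ha : a ∈ Fil K A w k) : δ a ∈ Fil K A w (k + n - m) :=
  Fil_der hδ.der n m (fun _ hg => Fil_par (gen_mem_Fil hg le_rfl)) h' ha

theorem Fil_der_zero {A : Set (Gen E ι)} {w : Gen E ι → ℕ} {φ : Om K E ι →ₐ[K] Om K E ι}
    {δ : Om K E ι →ₗ[K] Om K E ι} (hδ : IsDer φ δ) (h : ∀ g ∈ A, δ (gen K g) = 0)
    {k : ℕ} {a : Om K E ι} (ha : a ∈ Fil K A w k) : δ a = 0 :=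
  Sp_ext δ 0 (fun l hl => hδ.pr_zero l fun g hg => h g (hl.1 g hg)) ha

theorem Fil_alg_ext {B : Type} [Ring B] [Algebra K B] {A : Set (Gen E ι)} {w : Gen E ι → ℕ}
    (φ ψ : Om K E ι →ₐ[K] B) (h : ∀ g ∈ A, φ (gen K g) = ψ (gen K g))
    {k : ℕ} {a : Om K E ι} (ha : a ∈ Fil K A w k) : φ a = ψ a :=
  Sp_ext φ.toLinearMap ψ.toLinearMap
    (fun l hl => map_pr_eq φ ψ l fun g hg => h g (hl.1 g hg)) ha

theorem Fil_eq_zero {A : Set (Gen E ι)} {w : Gen E ι → ℕ} (h : ∀ g ∈ A, w g ≠ 0 → gen K g = 0)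
    {k : ℕ} (hk : 0 < k) {a : Om K E ι} (ha : a ∈ Fil K A w k) : a = 0 := by
  refine Sp_ext LinearMap.id 0 (fun l hl => ?_) ha
  simp only [LinearMap.id_apply, LinearMap.zero_apply]
  by_contra hne
  have : wt w l = 0 := by
    refine wt_eq_zero fun g hg => ?_
    by_contra hw
    obtain ⟨s, t, rfl⟩ := List.append_of_mem hg
    exact hne (by rw [pr_append, pr_cons, h g (hl.1 g hg) hw]; simp)
  have := hl.2
  omega

/-- Homogeneous components. -/
noncomputable def cp (G : Om K E ι →ₐ[K] (Om K E ι)[X]) (k : ℕ) : Om K E ι →ₗ[K] Om K E ι where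
  toFun a := (G a).coeff k
  map_add' a b := by simp
  map_smul' r a := by simp

theorem cp_apply (G : Om K E ι →ₐ[K] (Om K E ι)[X]) (k : ℕ) (a : Om K E ι) :
    cp G k a = (G a).coeff k := rfl

/-- Homogeneous elements. -/
noncomputable def Hom (G : Om K E ι →ₐ[K] (Om K E ι)[X]) (k : ℕ) : Submodule K (Om K E ι) where
  carrier := {a | G a = monomial k a}
  add_mem' := fun {a b} ha hb => by
    simp only [Set.mem_ofPred_eq] at *
    rw [map_add, ha, hb, map_add]
  zero_mem' := by simp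
  smul_mem' := fun r a ha => by
    simp only [Set.mem_ofPred_eq] at *
    rw [map_smul, ha, smul_monomial]

theorem mem_Hom {G : Om K E ι →ₐ[K] (Om K E ι)[X]} {k : ℕ} {a : Om K E ι} :
    a ∈ Hom G k ↔ G a = monomial k a := Iff.rfl

section
variable {G : Om K E ι →ₐ[K] (Om K E ι)[X]}

theorem Hom_mul {k k' : ℕ} {a b : Om K E ι} (ha : a ∈ Hom G k) (hb : b ∈ Hom G k') :
    a * b ∈ Hom G (k + k') := by
  rw [mem_Hom] at *
  rw [map_mul, ha, hb, monomial_mul_monomial]

theorem one_mem_Hom : (1 : Om K E ι) ∈ Hom G 0 := by simp [mem_Hom]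

theorem Hom_pow {k : ℕ} {a : Om K E ι} (ha : a ∈ Hom G k) (n : ℕ) : a ^ n ∈ Hom G (n * k) := by
  induction n with
  | zero => simpa using one_mem_Hom
  | succ n ih => rw [pow_succ, Nat.succ_mul]; exact Hom_mul ih ha

theorem cp_of_Hom {j : ℕ} {a : Om K E ι} (ha : a ∈ Hom G j) (k : ℕ) :
    cp G k a = if j = k then a else 0 := by
  rw [cp_apply, mem_Hom.1 ha, coeff_monomial]

theorem cp_self {j : ℕ} {a : Om K E ι} (ha : a ∈ Hom G j) : cp G j a = a := by
  simp [cp_of_Hom ha]

theorem cp_mul (n : ℕ) (a b : Om K E ι) :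
    cp G n (a * b) = ∑ x ∈ Finset.HasAntidiagonal.antidiagonal n, cp G x.1 a * cp G x.2 b := by
  simp only [cp_apply, map_mul, coeff_mul]

theorem cp_Hom_mul {j : ℕ} {a : Om K E ι} (ha : a ∈ Hom G j) (k : ℕ) (b : Om K E ι) :
    cp G (k + j) (a * b) = a * cp G k b := by
  simp only [cp_apply, map_mul, mem_Hom.1 ha, coeff_monomial_mul]

theorem map_pr_Hom {w : Gen E ι → ℕ} (φ : Om K E ι →ₐ[K] Om K E ι) (l : List (Gen E ι))
    (h : ∀ g ∈ l, φ (gen K g) ∈ Hom G (w g)) : φ (pr K l) ∈ Hom G (wt w l) := by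
  induction l with
  | nil => simpa using one_mem_Hom
  | cons g l ih =>
    rw [pr_cons, map_mul, wt_cons]
    exact Hom_mul (h g (by simp)) (ih fun g' hg' => h g' (by simp [hg']))

theorem pr_Hom {w : Gen E ι → ℕ} (l : List (Gen E ι))
    (h : ∀ g ∈ l, gen K g ∈ Hom G (w g)) : pr K l ∈ Hom G (wt w l) :=
  map_pr_Hom (AlgHom.id K _) l h

theorem cp_Sp {Q : List (Gen E ι) → Prop} {w : Gen E ι → ℕ}
    (h : ∀ l, Q l → ∀ g ∈ l, gen K g ∈ Hom G (w g)) (k : ℕ) {a : Om K E ι} (ha : a ∈ Sp K Q) :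
    cp G k a ∈ Sp K (fun l => Q l ∧ wt w l = k) := by
  refine Sp_map _ (fun l hl => ?_) ha
  rw [cp_of_Hom (pr_Hom l (h l hl))]
  split_ifs with h'
  · exact pr_mem_Sp ⟨hl, h'⟩
  · exact Submodule.zero_mem _

theorem Sp_le_Hom {Q : List (Gen E ι) → Prop} {w : Gen E ι → ℕ} {k : ℕ}
    (h : ∀ l, Q l → (∀ g ∈ l, gen K g ∈ Hom G (w g)) ∧ wt w l = k) : Sp K Q ≤ Hom G k :=
  Sp_le fun l hl => (h l hl).2 ▸ pr_Hom l (h l hl).1

theorem sub_cp_mem_Fil {A : Set (Gen E ι)} {w : Gen E ι → ℕ}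
    (h : ∀ g ∈ A, gen K g ∈ Hom G (w g)) {k : ℕ} {a : Om K E ι} (ha : a ∈ Fil K A w k) :
    a - cp G k a ∈ Fil K A w (k + 1) := by
  refine Sp_map (LinearMap.id - cp G k) (fun l hl => ?_) ha
  simp only [LinearMap.sub_apply, LinearMap.id_apply]
  rw [cp_of_Hom (pr_Hom l fun g hg => h g (hl.1 g hg))]
  split_ifs with h'
  · simp
  · rw [sub_zero]
    exact pr_mem_Sp ⟨hl.1, by have := hl.2; omega⟩

theorem cp_Fil_succ {A : Set (Gen E ι)} {w : Gen E ι → ℕ}
    (h : ∀ g ∈ A, gen K g ∈ Hom G (w g)) {k : ℕ} {a : Om K E ι} (ha : a ∈ Fil K A w (k + 1)) :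
    cp G k a = 0 := by
  refine Sp_ext (cp G k) 0 (fun l hl => ?_) ha
  rw [cp_of_Hom (pr_Hom l fun g hg => h g (hl.1 g hg)), if_neg (by have := hl.2; omega)]
  simp

theorem der_pr_Hom {w : Gen E ι → ℕ} {φ : Om K E ι →ₐ[K] Om K E ι}
    {δ : Om K E ι →ₗ[K] Om K E ι} (hδ : IsDer φ δ) (n : ℕ) (l : List (Gen E ι))
    (h : ∀ g ∈ l, gen K g ∈ Hom G (w g) ∧ φ (gen K g) ∈ Hom G (w g) ∧
      δ (gen K g) ∈ Hom G (w g + n)) : δ (pr K l) ∈ Hom G (wt w l + n) := by
  induction l with
  | nil => simp [hδ.one]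
  | cons g l ih =>
    have hg := h g (by simp)
    have hl' := fun g' (hg' : g' ∈ l) => h g' (by simp [hg'])
    rw [pr_cons, hδ, wt_cons]
    refine Submodule.add_mem _ ?_ ?_
    · have := Hom_mul hg.2.2 (pr_Hom l fun g' hg' => (hl' g' hg').1)
      rwa [show w g + n + wt w l = w g + wt w l + n by omega] at this
    · have := Hom_mul hg.2.1 (ih hl')
      rwa [← add_assoc] at this

theorem cp_lin {Q : List (Gen E ι) → Prop} {w : Gen E ι → ℕ} (δ : Om K E ι →ₗ[K] Om K E ι)
    (n : ℕ) (h : ∀ l, Q l → pr K l ∈ Hom G (wt w l) ∧ δ (pr K l) ∈ Hom G (wt w l + n))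
    (k : ℕ) {a : Om K E ι} (ha : a ∈ Sp K Q) : cp G (k + n) (δ a) = δ (cp G k a) := by
  refine Sp_ext ((cp G (k + n)).comp δ) (δ.comp (cp G k)) (fun l hl => ?_) ha
  simp only [LinearMap.comp_apply]
  rw [cp_of_Hom (h l hl).1, cp_of_Hom (h l hl).2]
  by_cases h' : wt w l = k
  · simp [h']
  · rw [if_neg h', if_neg (by omega), map_zero]

theorem cp_lin_lt {Q : List (Gen E ι) → Prop} {w : Gen E ι → ℕ} (δ : Om K E ι →ₗ[K] Om K E ι)
    (n : ℕ) (h : ∀ l, Q l → δ (pr K l) ∈ Hom G (wt w l + n))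
    {k : ℕ} (hk : k < n) {a : Om K E ι} (ha : a ∈ Sp K Q) : cp G k (δ a) = 0 := by
  refine Sp_ext ((cp G k).comp δ) 0 (fun l hl => ?_) ha
  simp only [LinearMap.comp_apply]
  rw [cp_of_Hom (h l hl), if_neg (by omega)]
  simp

end

/-- Values of a grading on generators. -/
noncomputable def gradGen (σ : E →ₗ[K] E) (a b : ℕ) (c : ι → ℕ) : Gen E ι → (Om K E ι)[X]
  | .x e => monomial a (xx (K := K) ι (σ e)) + monomial 0 (xx (K := K) ι (e - σ e))
  | .d e => monomial b (dd (K := K) ι (σ e)) + monomial 0 (dd (K := K) ι (e - σ e))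
  | .k i => monomial (c i) (kk K E i)

theorem monomial_xx_comm (n : ℕ) (e : E) (f : (Om K E ι)[X]) :
    monomial n (xx (K := K) ι e) * f = f * monomial n (xx (K := K) ι e) := by
  induction f using Polynomial.induction_on' with
  | add f g hf hg => rw [mul_add, add_mul, hf, hg]
  | monomial m a => rw [monomial_mul_monomial, monomial_mul_monomial, xx_comm, add_comm]

theorem monomial_anti (n m : ℕ) {a b : Om K E ι} (ha : a ∈ O1 K E ι) (hb : b ∈ O1 K E ι) :
    monomial n a * monomial m b = -(monomial m b * monomial n a) := by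
  rw [monomial_mul_monomial, monomial_mul_monomial, O1_anti ha hb, map_neg, add_comm]

theorem gradGen_compat (σ : E →ₗ[K] E) (a b : ℕ) (c : ι → ℕ) :
    Compat K (gradGen (ι := ι) σ a b c) where
  xadd e e' := by
    simp only [gradGen, map_add, map_sub]; abel
  xsmul r e := by
    simp only [gradGen, map_smul, ← smul_sub, smul_add, smul_monomial]
  dadd e e' := by
    simp only [gradGen, map_add, map_sub]; abel
  dsmul r e := by
    simp only [gradGen, map_smul, ← smul_sub, smul_add, smul_monomial]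
  comm e g := by
    simp only [gradGen, add_mul, mul_add, monomial_xx_comm]
  anti g g' hg hg' := by
    cases g with
    | x e => exact hg.elim
    | d e =>
      cases g' with
      | x e => exact hg'.elim
      | d e' =>
        simp only [gradGen, add_mul, mul_add]
        rw [monomial_anti b b (dd_mem_O1 _) (dd_mem_O1 (σ e')),
          monomial_anti b 0 (dd_mem_O1 _) (dd_mem_O1 (e' - σ e')),
          monomial_anti 0 b (dd_mem_O1 _) (dd_mem_O1 (σ e')),
          monomial_anti 0 0 (dd_mem_O1 _) (dd_mem_O1 (e' - σ e'))]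
        abel
      | k i =>
        simp only [gradGen, add_mul, mul_add]
        rw [monomial_anti b _ (dd_mem_O1 _) (kk_mem_O1 i),
          monomial_anti 0 _ (dd_mem_O1 _) (kk_mem_O1 i)]
        abel
    | k j =>
      cases g' with
      | x e => exact hg'.elim
      | d e' =>
        simp only [gradGen, add_mul, mul_add]
        rw [monomial_anti _ b (kk_mem_O1 j) (dd_mem_O1 _),
          monomial_anti _ 0 (kk_mem_O1 j) (dd_mem_O1 _)]
        abel
      | k i => exact monomial_anti _ _ (kk_mem_O1 j) (kk_mem_O1 i)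

/-- A grading. -/
noncomputable def grad (σ : E →ₗ[K] E) (a b : ℕ) (c : ι → ℕ) : Om K E ι →ₐ[K] (Om K E ι)[X] :=
  lift _ (gradGen_compat σ a b c)

section
variable (σ : E →ₗ[K] E) (a b : ℕ) (c : ι → ℕ)

theorem grad_xx (e : E) : grad σ a b c (xx (K := K) ι e)
    = monomial a (xx (K := K) ι (σ e)) + monomial 0 (xx (K := K) ι (e - σ e)) :=
  lift_gen _ _ (.x e)
theorem grad_dd (e : E) : grad σ a b c (dd (K := K) ι e)
    = monomial b (dd (K := K) ι (σ e)) + monomial 0 (dd (K := K) ι (e - σ e)) :=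
  lift_gen _ _ (.d e)
theorem grad_kk (i : ι) : grad σ a b c (kk K E i) = monomial (c i) (kk K E i) :=
  lift_gen _ _ (.k i)

theorem xx_Hom_left {e : E} (he : σ e = e) : xx (K := K) ι e ∈ Hom (grad σ a b c) a := by
  simp [mem_Hom, grad_xx, he]
theorem dd_Hom_left {e : E} (he : σ e = e) : dd (K := K) ι e ∈ Hom (grad σ a b c) b := by
  simp [mem_Hom, grad_dd, he]
theorem xx_Hom_right {e : E} (he : σ e = 0) : xx (K := K) ι e ∈ Hom (grad σ a b c) 0 := by
  simp [mem_Hom, grad_xx, he]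
theorem dd_Hom_right {e : E} (he : σ e = 0) : dd (K := K) ι e ∈ Hom (grad σ a b c) 0 := by
  simp [mem_Hom, grad_dd, he]
theorem kk_Hom (i : ι) : kk K E i ∈ Hom (grad σ a b c) (c i) := by
  simp [mem_Hom, grad_kk]
end

/-- The weights of the main grading. -/
def wT (p : ℕ) : Gen E ι → ℕ
  | .x _ => 2
  | .d _ => p + 2
  | .k _ => p

/-- The main grading. -/
noncomputable def tau (K E ι : Type) [Field K] [AddCommGroup E] [Module K E] (p : ℕ) :
    Om K E ι →ₐ[K] (Om K E ι)[X] := grad LinearMap.id 2 (p + 2) (fun _ => p)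

theorem xx_tau (p : ℕ) (e : E) : xx (K := K) ι e ∈ Hom (tau K E ι p) 2 := xx_Hom_left _ _ _ _ rfl
theorem dd_tau (p : ℕ) (e : E) : dd (K := K) ι e ∈ Hom (tau K E ι p) (p + 2) :=
  dd_Hom_left _ _ _ _ rfl
theorem kk_tau (p : ℕ) (i : ι) : kk K E i ∈ Hom (tau K E ι p) p := kk_Hom _ _ _ (fun _ => p) i

theorem gen_tau (p : ℕ) (g : Gen E ι) : gen K g ∈ Hom (tau K E ι p) (wT p g) := by
  cases g with
  | x e => exact xx_tau p e
  | d e => exact dd_tau p e
  | k i => exact kk_tau p i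

theorem pr_tau (p : ℕ) (l : List (Gen E ι)) : pr K l ∈ Hom (tau K E ι p) (wt (wT p) l) :=
  pr_Hom l fun g _ => gen_tau p g

theorem cp_tau_Sp (p k : ℕ) {Q : List (Gen E ι) → Prop} {a : Om K E ι} (ha : a ∈ Sp K Q) :
    cp (tau K E ι p) k a ∈ Sp K Q :=
  Sp_mono (fun _ hl => hl.1) (cp_Sp (w := wT p) (fun _ _ g _ => gen_tau p g) k ha)

theorem cp_tau_Hom (p k : ℕ) (a : Om K E ι) : cp (tau K E ι p) k a ∈ Hom (tau K E ι p) k :=
  Sp_le_Hom (w := wT p) (fun _ hl => ⟨fun g _ => gen_tau p g, hl.2⟩)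
    (cp_Sp (w := wT p) (fun _ _ g _ => gen_tau p g) k (mem_Sp_true a))

theorem par_Hom_gen {G : Om K E ι →ₐ[K] (Om K E ι)[X]} {g : Gen E ι} {k : ℕ}
    (h : gen K g ∈ Hom G k) : par (gen K g) ∈ Hom G k := by
  rcases par_gen (K := K) g with h' | h' <;> rw [h']
  exacts [h, Submodule.neg_mem _ h]

theorem DD_pr_tau (p : ℕ) (u : ι → E) (l : List (Gen E ι)) :
    DD p u (pr K l) ∈ Hom (tau K E ι p) (wt (wT p) l + p) := by
  refine der_pr_Hom (DD_isOdd p u).der p l fun g _ =>
    ⟨gen_tau p g, par_Hom_gen (gen_tau p g), ?_⟩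
  cases g with
  | x e => simpa [wT, add_comm] using dd_tau (K := K) (ι := ι) p e
  | d e => simp
  | k i => simpa [wT, mul_two] using Hom_pow (xx_tau (K := K) (ι := ι) p (u i)) p

theorem cp_tau_DD (p : ℕ) (u : ι → E) (k : ℕ) (a : Om K E ι) :
    cp (tau K E ι p) (k + p) (DD p u a) = DD p u (cp (tau K E ι p) k a) :=
  cp_lin (w := wT p) _ p (fun l _ => ⟨pr_tau p l, DD_pr_tau p u l⟩) k (mem_Sp_true a)

theorem cp_tau_DD_lt (p : ℕ) (u : ι → E) {k : ℕ} (hk : k < p) (a : Om K E ι) :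
    cp (tau K E ι p) k (DD p u a) = 0 :=
  cp_lin_lt (w := wT p) _ p (fun l _ => DD_pr_tau p u l) hk (mem_Sp_true a)

theorem DD_tau (p : ℕ) (u : ι → E) {k : ℕ} {a : Om K E ι} (ha : a ∈ Hom (tau K E ι p) k) :
    DD p u a ∈ Hom (tau K E ι p) (k + p) := by
  rw [← cp_self ha, ← cp_tau_DD]; exact cp_tau_Hom _ _ _

theorem cp_tau_alg (p : ℕ) (φ : Om K E ι →ₐ[K] Om K E ι)
    (h : ∀ g, φ (gen K g) ∈ Hom (tau K E ι p) (wT p g)) (k : ℕ) (a : Om K E ι) :
    cp (tau K E ι p) k (φ a) = φ (cp (tau K E ι p) k a) :=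
  cp_lin (w := wT p) φ.toLinearMap 0
    (fun l _ => ⟨pr_tau p l, map_pr_Hom φ l fun g _ => h g⟩) k (mem_Sp_true a)

theorem alg_tau (p : ℕ) (φ : Om K E ι →ₐ[K] Om K E ι)
    (h : ∀ g, φ (gen K g) ∈ Hom (tau K E ι p) (wT p g)) {k : ℕ} {a : Om K E ι}
    (ha : a ∈ Hom (tau K E ι p) k) : φ a ∈ Hom (tau K E ι p) k := by
  rw [← cp_self ha, ← cp_tau_alg p φ h]; exact cp_tau_Hom _ _ _

theorem par_tau (p : ℕ) {k : ℕ} {a : Om K E ι}
    (ha : a ∈ Hom (tau K E ι p) k) : par a ∈ Hom (tau K E ι p) k :=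
  alg_tau p par (fun g => par_Hom_gen (gen_tau p g)) ha

/-- Making a primitive homogeneous. -/
theorem exists_cp_DD (p : ℕ) (u : ι → E) (U : Submodule K (Om K E ι))
    (hU : ∀ k, ∀ a ∈ U, cp (tau K E ι p) k a ∈ U) (t : ℕ) {a : Om K E ι} (ha : a ∈ U) :
    ∃ b ∈ U, cp (tau K E ι p) t (DD p u a) = DD p u b ∧
      (b = 0 ∨ ∃ k, k + p = t ∧ b ∈ Hom (tau K E ι p) k) := by
  by_cases h : t < p
  · exact ⟨0, U.zero_mem, by rw [cp_tau_DD_lt p u h, map_zero], Or.inl rfl⟩
  · obtain ⟨k, rfl⟩ : ∃ k, t = k + p := ⟨t - p, by omega⟩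
    exact ⟨_, hU k a ha, cp_tau_DD p u k a, Or.inr ⟨k, rfl, cp_tau_Hom _ _ _⟩⟩

end Pool.Agent.AJT

end

section

/-! Linear algebra in a tensor square. -/

set_option autoImplicit false

namespace Pool.Agent.AJT

open TensorProduct

variable {K V : Type} [Field K] [AddCommGroup V] [Module K V]

theorem exists_proj (U : Submodule K V) :
    ∃ P : V →ₗ[K] V, (∀ v, P v ∈ U) ∧ ∀ v ∈ U, P v = v := by
  obtain ⟨g, hg⟩ := LinearMap.exists_extend (LinearMap.id : U →ₗ[K] U)
  refine ⟨U.subtype.comp g, fun v => (g v).2, fun v hv => ?_⟩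
  have := congr($hg ⟨v, hv⟩)
  simp only [LinearMap.comp_apply, Submodule.subtype_apply, LinearMap.id_apply] at this ⊢
  rw [this]

theorem exists_functional {S : Submodule K V} {y : V} (hy : y ∉ S) :
    ∃ f : V →ₗ[K] K, f y = 1 ∧ ∀ e ∈ S, f e = 0 := by
  obtain ⟨g, hg, hg'⟩ := LinearMap.exists_extend_of_notMem (0 : S →ₗ[K] K) hy 1
  exact ⟨g, hg', fun e he => congr($hg ⟨e, he⟩)⟩

/-- Span of pure tensors. -/
def TS (U W : Submodule K V) : Submodule K (V ⊗[K] V) :=
  Submodule.span K {t | ∃ u ∈ U, ∃ w ∈ W, u ⊗ₜ[K] w = t}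

theorem tmul_mem_TS {U W : Submodule K V} {u w : V} (hu : u ∈ U) (hw : w ∈ W) :
    u ⊗ₜ[K] w ∈ TS U W := Submodule.subset_span ⟨u, hu, w, hw, rfl⟩

theorem TS_map {V' : Type} [AddCommGroup V'] [Module K V'] {U W : Submodule K V}
    (Φ : V ⊗[K] V →ₗ[K] V') {N : Submodule K V'} (h : ∀ u ∈ U, ∀ w ∈ W, Φ (u ⊗ₜ[K] w) ∈ N)
    {t : V ⊗[K] V} (ht : t ∈ TS U W) : Φ t ∈ N := by
  refine (Submodule.span_le (p := N.comap Φ)).2 ?_ ht
  rintro _ ⟨u, hu, w, hw, rfl⟩
  exact h u hu w hw

theorem TS_ext {V' : Type} [AddCommGroup V'] [Module K V'] {U W : Submodule K V}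
    (Φ Ψ : V ⊗[K] V →ₗ[K] V') (h : ∀ u ∈ U, ∀ w ∈ W, Φ (u ⊗ₜ[K] w) = Ψ (u ⊗ₜ[K] w))
    {t : V ⊗[K] V} (ht : t ∈ TS U W) : Φ t = Ψ t := by
  have := TS_map (Φ - Ψ) (N := ⊥) (fun u hu w hw => by simp [h u hu w hw]) ht
  simpa [sub_eq_zero] using this

theorem TS_mono {U W U' W' : Submodule K V} (hU : U ≤ U') (hW : W ≤ W') : TS U W ≤ TS U' W' :=
  fun _ ht => TS_map LinearMap.id (fun _ hu _ hw => tmul_mem_TS (hU hu) (hW hw)) ht

/-- Left slice. -/
noncomputable def lsl (f : V →ₗ[K] K) : V ⊗[K] V →ₗ[K] V :=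
  (TensorProduct.lid K V).toLinearMap.comp (f.rTensor V)

/-- Right slice. -/
noncomputable def rsl (f : V →ₗ[K] K) : V ⊗[K] V →ₗ[K] V :=
  (TensorProduct.rid K V).toLinearMap.comp (f.lTensor V)

@[simp] theorem lsl_tmul (f : V →ₗ[K] K) (a b : V) : lsl f (a ⊗ₜ[K] b) = f a • b := by simp [lsl]
@[simp] theorem rsl_tmul (f : V →ₗ[K] K) (a b : V) : rsl f (a ⊗ₜ[K] b) = f b • a := by simp [rsl]

theorem lsl_map (f : V →ₗ[K] K) (g : V →ₗ[K] V) (t : V ⊗[K] V) :
    lsl f (TensorProduct.map LinearMap.id g t) = g (lsl f t) := by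
  induction t with
  | zero => simp
  | tmul a b => simp
  | add a b ha hb => simp [ha, hb]

theorem rsl_map (f : V →ₗ[K] K) (g : V →ₗ[K] V) (t : V ⊗[K] V) :
    rsl f (TensorProduct.map g LinearMap.id t) = g (rsl f t) := by
  induction t with
  | zero => simp
  | tmul a b => simp
  | add a b ha hb => simp [ha, hb]

theorem exists_left_expand (t : V ⊗[K] V) :
    ∃ (F : Finset V) (f : V → V →ₗ[K] K), t = ∑ i ∈ F, i ⊗ₜ[K] lsl (f i) t := by
  classical
  let b := Module.Basis.ofVectorSpace K V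
  let e := TensorProduct.equivFinsuppOfBasisLeft (N := V) b
  refine ⟨(e t).support.map (Function.Embedding.subtype _),
    fun i => if h : i ∈ Module.Basis.ofVectorSpaceIndex K V then b.coord ⟨i, h⟩ else 0, ?_⟩
  rw [Finset.sum_map]
  conv_lhs => rw [← e.symm_apply_apply t]
  rw [TensorProduct.equivFinsuppOfBasisLeft_symm_apply, Finsupp.sum]
  refine Finset.sum_congr rfl fun i _ => ?_
  simp only [Function.Embedding.coe_subtype, i.2, dif_pos]
  rw [TensorProduct.equivFinsuppOfBasisLeft_apply]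
  simp [b, lsl]

theorem eq_zero_of_lsl {t : V ⊗[K] V} (h : ∀ f, lsl f t = 0) : t = 0 := by
  obtain ⟨F, f, hf⟩ := exists_left_expand t
  rw [hf]; simp [h]

theorem eq_zero_of_rsl {t : V ⊗[K] V} (h : ∀ f, rsl f t = 0) : t = 0 := by
  have h1 : ∀ f s, lsl f (TensorProduct.comm K V V s) = rsl f s := by
    intro f s
    induction s with
    | zero => simp
    | tmul a b => simp
    | add a b ha hb => simp [ha, hb]
  have := eq_zero_of_lsl (t := TensorProduct.comm K V V t) (fun f => by rw [h1, h])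
  simpa using this

theorem map_proj_left {U : Submodule K V} {P : V →ₗ[K] V} (hP : ∀ v ∈ U, P v = v)
    {t : V ⊗[K] V} (h : ∀ f, rsl f t ∈ U) : TensorProduct.map P LinearMap.id t = t := by
  rw [← sub_eq_zero]
  refine eq_zero_of_rsl fun f => ?_
  rw [map_sub, rsl_map, hP _ (h f), sub_self]

theorem mem_TS_of_slices {U W : Submodule K V} {t : V ⊗[K] V} (hU : ∀ f, rsl f t ∈ U)
    (hW : ∀ f, lsl f t ∈ W) : t ∈ TS U W := by
  obtain ⟨P, hP, hP'⟩ := exists_proj U
  obtain ⟨F, f, hf⟩ := exists_left_expand t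
  rw [← map_proj_left hP' hU, hf, map_sum]
  exact Submodule.sum_mem _ fun i _ => tmul_mem_TS (hP i) (hW _)

theorem rsl_mem {U W : Submodule K V} {t : V ⊗[K] V} (ht : t ∈ TS U W) (f : V →ₗ[K] K) :
    rsl f t ∈ U := TS_map _ (fun _ hu _ _ => by simpa using U.smul_mem _ hu) ht

theorem lsl_mem {U W : Submodule K V} {t : V ⊗[K] V} (ht : t ∈ TS U W) (f : V →ₗ[K] K) :
    lsl f t ∈ W := TS_map _ (fun _ _ _ hw => by simpa using W.smul_mem _ hw) ht

theorem TS_exact {U W W0 : Submodule K V} (D : V →ₗ[K] V)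
    (hex : ∀ w ∈ W, D w = 0 → ∃ w0 ∈ W0, D w0 = w) {t : V ⊗[K] V} (ht : t ∈ TS U W)
    (h0 : TensorProduct.map LinearMap.id D t = 0) :
    ∃ s ∈ TS U W0, TensorProduct.map LinearMap.id D s = t := by
  obtain ⟨P, hP, hP'⟩ := exists_proj U
  obtain ⟨F, f, hf⟩ := exists_left_expand t
  have h1 : ∀ i, ∃ w0 ∈ W0, D w0 = lsl (f i) t := fun i =>
    hex _ (lsl_mem ht _) (by rw [← lsl_map, h0, map_zero])
  choose w0 hw0 hw0' using h1
  refine ⟨∑ i ∈ F, P i ⊗ₜ[K] w0 i, Submodule.sum_mem _ fun i _ => tmul_mem_TS (hP i) (hw0 i), ?_⟩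
  conv_rhs => rw [← map_proj_left hP' (rsl_mem ht), hf]
  simp [map_sum, hw0']

/-- The differential on the tensor square. -/
noncomputable def tdiff (D ε : V →ₗ[K] V) : V ⊗[K] V →ₗ[K] V ⊗[K] V :=
  TensorProduct.map D LinearMap.id + TensorProduct.map ε D

theorem tdiff_tmul (D ε : V →ₗ[K] V) (a b : V) :
    tdiff D ε (a ⊗ₜ[K] b) = D a ⊗ₜ[K] b + ε a ⊗ₜ[K] D b := by simp [tdiff]

theorem tdiff_tdiff (D ε : V →ₗ[K] V) (hDD : ∀ v, D (D v) = 0) (hε : ∀ v, D (ε v) = -ε (D v))
    (t : V ⊗[K] V) : tdiff D ε (tdiff D ε t) = 0 := by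
  induction t with
  | zero => simp
  | tmul a b => simp [tdiff_tmul, hDD, hε, neg_tmul]
  | add a b ha hb => simp [ha, hb]

/-- Graded part of the tensor product with a lower bound on the left degree. -/
def TG (Y W : ℕ → Submodule K V) (t0 j : ℕ) : Submodule K (V ⊗[K] V) :=
  Submodule.span K {t | ∃ i k, j ≤ i ∧ i + k = t0 ∧ ∃ u ∈ Y i, ∃ w ∈ W k, u ⊗ₜ[K] w = t}

theorem TG_map {V' : Type} [AddCommGroup V'] [Module K V'] {Y W : ℕ → Submodule K V} {t0 j : ℕ}
    (Φ : V ⊗[K] V →ₗ[K] V') {N : Submodule K V'}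
    (h : ∀ i k, j ≤ i → i + k = t0 → ∀ u ∈ Y i, ∀ w ∈ W k, Φ (u ⊗ₜ[K] w) ∈ N)
    {t : V ⊗[K] V} (ht : t ∈ TG Y W t0 j) : Φ t ∈ N := by
  refine (Submodule.span_le (p := N.comap Φ)).2 ?_ ht
  rintro _ ⟨i, k, h1, h2, u, hu, w, hw, rfl⟩
  exact h i k h1 h2 u hu w hw

theorem tmul_mem_TG {Y W : ℕ → Submodule K V} {t0 j i k : ℕ} (h1 : j ≤ i) (h2 : i + k = t0)
    {u w : V} (hu : u ∈ Y i) (hw : w ∈ W k) : u ⊗ₜ[K] w ∈ TG Y W t0 j :=
  Submodule.subset_span ⟨i, k, h1, h2, u, hu, w, hw, rfl⟩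

theorem tensor_step (D ε : V →ₗ[K] V) (hDD : ∀ v, D (D v) = 0) (hε : ∀ v, D (ε v) = -ε (D v))
    (hεε : ∀ v, ε (ε v) = v) (Y W : ℕ → Submodule K V) (Ya Wa : Submodule K V)
    (hYa : ∀ i, Y i ≤ Ya) (hWa : ∀ i, W i ≤ Wa) (π : ℕ → V →ₗ[K] V)
    (hπ : ∀ i j, ∀ y ∈ Y i, π j y = if i = j then y else 0) (p : ℕ) (hp : 0 < p)
    (hDY : ∀ i, ∀ y ∈ Y i, D y ∈ Y (i + p)) (hεY : ∀ i, ∀ y ∈ Y i, ε y ∈ Y i)
    (B : ℕ) (hB : ∀ i, B < i → ∀ y ∈ Y i, y = 0) (t0 : ℕ)
    (hex : ∀ k, t0 ≤ k + B → ∀ w ∈ W k, D w = 0 →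
      w = 0 ∨ ∃ k0, k0 + p = k ∧ ∃ w0 ∈ W k0, D w0 = w)
    {t : V ⊗[K] V} (ht : t ∈ TG Y W t0 0) (h0 : tdiff D ε t = 0) :
    ∃ s ∈ TS Ya Wa, tdiff D ε s = t := by
  have key : ∀ n j, B + 1 ≤ j + n → ∀ t ∈ TG Y W t0 j, tdiff D ε t = 0 →
      ∃ s ∈ TS Ya Wa, tdiff D ε s = t := by
    intro n
    induction n with
    | zero =>
      intro j hj t ht _
      have : t = 0 := by
        have := TG_map LinearMap.id (N := ⊥) (fun i k h1 _ u hu w _ => by
          simp [hB i (by omega) u hu]) ht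
        simpa using this
      exact ⟨0, Submodule.zero_mem _, by simp [this]⟩
    | succ n ih =>
      intro j hj t ht h0
      by_cases hjB : B + 1 ≤ j + n
      · exact ih j hjB t ht h0
      let W0 : Submodule K V := if p ≤ t0 - j then W (t0 - j - p) else ⊥
      let Pj := TensorProduct.map (π j) (LinearMap.id : V →ₗ[K] V)
      have h1 : Pj t ∈ TS (Y j) (W (t0 - j)) := by
        refine TG_map Pj (fun i k h1 h2 u hu w hw => ?_) ht
        simp only [Pj, TensorProduct.map_tmul, hπ i j u hu, LinearMap.id_apply]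
        split_ifs with h
        · subst h
          exact tmul_mem_TS hu (by rwa [show t0 - i = k by omega])
        · simp
      have h2 : t - Pj t ∈ TG Y W t0 (j + 1) := by
        refine TG_map (LinearMap.id - Pj) (fun i k h1 h2 u hu w hw => ?_) ht
        simp only [Pj, LinearMap.sub_apply, TensorProduct.map_tmul, hπ i j u hu,
          LinearMap.id_apply]
        split_ifs with h
        · simp
        · simpa using tmul_mem_TG (by omega) h2 hu hw
      have h3 : TensorProduct.map LinearMap.id D (Pj t) = 0 := by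
        have := TG_map ((TensorProduct.map LinearMap.id D).comp Pj
          - (TensorProduct.map ε LinearMap.id).comp (Pj.comp (tdiff D ε))) (N := ⊥)
          (fun i k h1 h2 u hu w hw => by
            simp only [Pj, LinearMap.sub_apply, LinearMap.comp_apply, tdiff_tmul, map_add,
              TensorProduct.map_tmul, hπ i j u hu, hπ _ j _ (hDY i u hu), hπ _ j _ (hεY i u hu),
              LinearMap.id_apply]
            rw [if_neg (by omega : ¬ i + p = j)]
            split_ifs with h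
            · simp [hεε]
            · simp) ht
        simpa [h0] using this
      obtain ⟨s0, hs0, hs0'⟩ := TS_exact (W0 := W0) D (fun w hw hDw => by
        rcases hex (t0 - j) (by omega) w hw hDw with h | ⟨k0, hk0, w0, hw0, h⟩
        · exact ⟨0, W0.zero_mem, by simp [h]⟩
        · refine ⟨w0, ?_, h⟩
          simp only [W0]
          rw [if_pos (by omega), show t0 - j - p = k0 by omega]
          exact hw0) h1 h3
      let s := TensorProduct.map ε (LinearMap.id : V →ₗ[K] V) s0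
      have hs : s ∈ TS (Y j) W0 :=
        TS_map _ (fun u hu w hw => by simpa using tmul_mem_TS (hεY j u hu) hw) hs0
      have h4 : tdiff D ε s = TensorProduct.map D LinearMap.id s + Pj t := by
        rw [← hs0']
        simp only [tdiff, LinearMap.add_apply, add_right_inj, s]
        generalize s0 = r
        induction r with
        | zero => simp
        | tmul a b => simp [hεε]
        | add a b ha hb => simp [ha, hb]
      have h5 : TensorProduct.map D LinearMap.id s ∈ TG Y W t0 (j + 1) := by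
        refine TS_map _ (fun u hu w hw => ?_) hs
        simp only [TensorProduct.map_tmul, LinearMap.id_apply]
        simp only [W0] at hw
        split_ifs at hw with h
        · exact tmul_mem_TG (i := j + p) (by omega) (by omega) (hDY j u hu) hw
        · simp [(Submodule.mem_bot K).1 hw]
      have h6 : t - tdiff D ε s ∈ TG Y W t0 (j + 1) := by
        rw [h4, show t - (TensorProduct.map D LinearMap.id s + Pj t)
          = (t - Pj t) - TensorProduct.map D LinearMap.id s by abel]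
        exact Submodule.sub_mem _ h2 h5
      obtain ⟨s', hs', hs''⟩ := ih (j + 1) (by omega) _ h6
        (by rw [map_sub, h0, tdiff_tdiff D ε hDD hε, sub_zero])
      refine ⟨s + s', Submodule.add_mem _ (TS_mono (hYa j) ?_ hs) hs', by rw [map_add, hs'']; abel⟩
      simp only [W0]
      split_ifs
      · exact hWa _
      · exact bot_le
  exact key (B + 1) 0 (by omega) t ht h0

end Pool.Agent.AJT

end
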